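import Mathlib

/-!
# Piecewise affine maps of the line: most orbits of a family leave a bounded interval
-/

set_option autoImplicit false
set_option maxHeartbeats 400000

open Set Filter Topology MeasureTheory

namespace Pool.Agent.K3h78.RS

/-- The piecewise affine map. -/
noncomputable def T (α β L0 L1 t x : ℝ) : ℝ :=
  if x < 0 then α * x + L0 + t else β * x + L1 + t

/-- The parameters `t` for which the orbit of `D t + c` is not controlled up to time `m`. -/
def Bad (α β L0 L1 δ R : ℝ) : ℕ → ℝ → ℝ → Set ℝ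
  | 0, D, c => {t | |D * t + c| < R}
  | m + 1, D, c => {t | |D * t + c| < R} ∩ ({t | |D * t + c| < δ} ∪
      ({t | D * t + c < 0} ∩ Bad α β L0 L1 δ R m (α * D + 1) (α * c + L0)) ∪
      ({t | 0 ≤ D * t + c} ∩ Bad α β L0 L1 δ R m (β * D + 1) (β * c + L1)))

/-- The orbit of `x` reaches modulus `R` before time `m`, and before that it is off
`(-δ, δ)`. -/
def Leaves (α β L0 L1 δ R : ℝ) (m : ℕ) (t x : ℝ) : Prop :=
  ∃ j ≤ m, R ≤ |(T α β L0 L1 t)^[j] x| ∧ ∀ l < j, δ ≤ |(T α β L0 L1 t)^[l] x|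

theorem leaves_zero {α β L0 L1 δ R : ℝ} {m : ℕ} {t x : ℝ} (h : R ≤ |x|) :
    Leaves α β L0 L1 δ R m t x :=
  ⟨0, Nat.zero_le _, by simpa using h, fun l hl => absurd hl (Nat.not_lt_zero l)⟩

theorem leaves_succ {α β L0 L1 δ R : ℝ} {m : ℕ} {t x : ℝ} (h : δ ≤ |x|)
    (h1 : Leaves α β L0 L1 δ R m t (T α β L0 L1 t x)) :
    Leaves α β L0 L1 δ R (m + 1) t x := by
  obtain ⟨j, hj, h2, h3⟩ := h1
  refine ⟨j + 1, by omega, ?_, fun l hl => ?_⟩
  · rw [Function.iterate_succ_apply]; exact h2
  · rcases l with _ | l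
    · simpa using h
    · rw [Function.iterate_succ_apply]; exact h3 l (by omega)

theorem leaves_of_not_bad {α β L0 L1 δ R : ℝ} (m : ℕ) : ∀ (D c t : ℝ),
    t ∉ Bad α β L0 L1 δ R m D c → Leaves α β L0 L1 δ R m t (D * t + c) := by
  induction m with
  | zero =>
    intro D c t h
    exact leaves_zero (not_lt.1 h)
  | succ m ih =>
    intro D c t h
    by_cases hR : |D * t + c| < R
    · have h1 : t ∉ ({t | |D * t + c| < δ} ∪
          ({t | D * t + c < 0} ∩ Bad α β L0 L1 δ R m (α * D + 1) (α * c + L0)) ∪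
          ({t | 0 ≤ D * t + c} ∩ Bad α β L0 L1 δ R m (β * D + 1) (β * c + L1)) : Set ℝ) :=
        fun h2 => h ⟨hR, h2⟩
      rw [mem_union, mem_union, not_or, not_or] at h1
      obtain ⟨⟨h2, h3⟩, h4⟩ := h1
      refine leaves_succ (not_lt.1 h2) ?_
      by_cases hx : D * t + c < 0
      · have h5 := ih (α * D + 1) (α * c + L0) t fun h6 => h3 ⟨hx, h6⟩
        have e : T α β L0 L1 t (D * t + c) = (α * D + 1) * t + (α * c + L0) := by
          unfold T; rw [if_pos hx]; ring
        rw [e]; exact h5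
      · have h5 := ih (β * D + 1) (β * c + L1) t fun h6 => h4 ⟨not_lt.1 hx, h6⟩
        have e : T α β L0 L1 t (D * t + c) = (β * D + 1) * t + (β * c + L1) := by
          unfold T; rw [if_neg hx]; ring
        rw [e]; exact h5
    · exact leaves_zero (not_lt.1 hR)

theorem volume_affine {D c r : ℝ} (hD : D ≠ 0) :
    volume {t : ℝ | |D * t + c| < r} ≤ ENNReal.ofReal (2 * r / |D|) := by
  have hD' : 0 < |D| := abs_pos.2 hD
  have h1 : {t : ℝ | |D * t + c| < r} ⊆ Metric.ball (-c / D) (r / |D|) := by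
    intro t ht
    rw [Metric.mem_ball, Real.dist_eq, lt_div_iff₀ hD']
    have e : |t - -c / D| * |D| = |D * t + c| := by
      rw [← abs_mul]; congr 1; field_simp; ring
    rw [e]; exact ht
  refine (measure_mono h1).trans ?_
  rw [Real.volume_ball, mul_div_assoc]

theorem volume_affine' {D c r w : ℝ} (hw : 0 < w) (hD : w ≤ |D|) (hr : 0 ≤ r) :
    volume {t : ℝ | |D * t + c| < r} ≤ ENNReal.ofReal (2 * r / w) := by
  have hD0 : D ≠ 0 := by
    intro h; rw [h, abs_zero] at hD; linarith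
  refine (volume_affine hD0).trans (ENNReal.ofReal_le_ofReal ?_)
  gcongr

theorem volume_bad {α β L0 L1 δ R r₁ r₂ : ℝ} {W : ℝ → ℝ} (hδ : 0 ≤ δ) (hR : 0 ≤ R)
    (hr₁ : 0 < r₁) (hr₂ : 0 < r₂) (hr : 1 / r₁ + 1 / r₂ ≤ 2 / 3)
    (hW : ∀ D, 0 < W D → W D ≤ |D|)
    (hα : ∀ D, 0 < W D → r₁ * W D ≤ W (α * D + 1))
    (hβ : ∀ D, 0 < W D → r₂ * W D ≤ W (β * D + 1)) (m : ℕ) : ∀ D c : ℝ, 0 < W D →
    volume (Bad α β L0 L1 δ R m D c) ≤
      ENNReal.ofReal ((6 * δ + 2 * R * (2 / 3) ^ m) / W D) := by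
  induction m with
  | zero =>
    intro D c hD
    refine (volume_affine' hD (hW D hD) hR).trans (ENNReal.ofReal_le_ofReal ?_)
    rw [pow_zero, mul_one]
    gcongr
    linarith
  | succ m ih =>
    intro D c hD
    set C : ℝ := 6 * δ + 2 * R * (2 / 3) ^ m with hC
    have hC0 : 0 ≤ C := by positivity
    have h1 : volume ({t | D * t + c < 0} ∩ Bad α β L0 L1 δ R m (α * D + 1) (α * c + L0)) ≤
        ENNReal.ofReal (C / (r₁ * W D)) := by
      refine (measure_mono inter_subset_right).trans ((ih _ _ ?_).trans ?_)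
      · exact lt_of_lt_of_le (by positivity) (hα D hD)
      · apply ENNReal.ofReal_le_ofReal
        exact div_le_div_of_nonneg_left hC0 (by positivity) (hα D hD)
    have h2 : volume ({t | 0 ≤ D * t + c} ∩ Bad α β L0 L1 δ R m (β * D + 1) (β * c + L1)) ≤
        ENNReal.ofReal (C / (r₂ * W D)) := by
      refine (measure_mono inter_subset_right).trans ((ih _ _ ?_).trans ?_)
      · exact lt_of_lt_of_le (by positivity) (hβ D hD)
      · apply ENNReal.ofReal_le_ofReal
        exact div_le_div_of_nonneg_left hC0 (by positivity) (hβ D hD)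
    have h3 : volume {t : ℝ | |D * t + c| < δ} ≤ ENNReal.ofReal (2 * δ / W D) :=
      volume_affine' hD (hW D hD) hδ
    refine (measure_mono inter_subset_right).trans ?_
    refine (measure_union_le _ _).trans ?_
    refine (add_le_add (measure_union_le _ _) le_rfl).trans ?_
    refine (add_le_add (add_le_add h3 h1) h2).trans ?_
    rw [← ENNReal.ofReal_add (by positivity) (by positivity),
      ← ENNReal.ofReal_add (by positivity) (by positivity)]
    apply ENNReal.ofReal_le_ofReal
    have e1 : 2 * δ / W D + C / (r₁ * W D) + C / (r₂ * W D) =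
        (2 * δ + C * (1 / r₁ + 1 / r₂)) / W D := by
      field_simp
      ring
    rw [e1]
    apply div_le_div_of_nonneg_right _ hD.le
    have e2 : C * (1 / r₁ + 1 / r₂) ≤ C * (2 / 3) := mul_le_mul_of_nonneg_left hr hC0
    have e3 : C * (2 / 3) = 4 * δ + 2 * R * (2 / 3) ^ (m + 1) := by rw [hC, pow_succ]; ring
    linarith

/-- The admissible pairs of exponents. -/
def Adm (α β : ℝ) : Prop :=
  (3 ≤ |α| ∧ 3 ≤ |β|) ∨ (|α| = 2 ∧ 7 ≤ |β|) ∨ (7 ≤ |α| ∧ |β| = 2)

theorem volume_bad_adm {α β L0 L1 δ R : ℝ} (hδ : 0 ≤ δ) (hR : 0 ≤ R) (h : Adm α β) (m : ℕ)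
    (c : ℝ) : volume (Bad α β L0 L1 δ R m 1 c) ≤
      ENNReal.ofReal (36 * δ + 12 * R * (2 / 3) ^ m) := by
  have hm : (0 : ℝ) ≤ (2 / 3) ^ m := by positivity
  have hC0 : 0 ≤ 6 * δ + 2 * R * (2 / 3) ^ m := by positivity
  have fin : ∀ W : ℝ → ℝ, 1 / 6 ≤ W 1 → volume (Bad α β L0 L1 δ R m 1 c) ≤
      ENNReal.ofReal ((6 * δ + 2 * R * (2 / 3) ^ m) / W 1) →
      volume (Bad α β L0 L1 δ R m 1 c) ≤
      ENNReal.ofReal (36 * δ + 12 * R * (2 / 3) ^ m) := by
    intro W hW h1
    refine h1.trans (ENNReal.ofReal_le_ofReal ?_)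
    rw [div_le_iff₀ (by linarith)]
    nlinarith
  -- growth lemmas
  have big : ∀ γ D : ℝ, |γ * D + 1| ≥ |γ| * |D| - 1 := by
    intro γ D
    have h1 := abs_sub_abs_le_abs_sub (γ * D) (-1)
    rw [abs_mul, abs_neg, abs_one, sub_neg_eq_add] at h1
    exact h1
  rcases h with ⟨h1, h2⟩ | ⟨h1, h2⟩ | ⟨h1, h2⟩
  · -- both at least three
    apply fin (fun D => |D| - 1 / 2) (by norm_num)
    have key : ∀ γ : ℝ, 3 ≤ |γ| → ∀ D : ℝ, 0 < |D| - 1 / 2 →
        3 * (|D| - 1 / 2) ≤ |γ * D + 1| - 1 / 2 := by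
      intro γ hγ D hD
      have h3 := big γ D
      nlinarith
    exact volume_bad (W := fun D => |D| - 1 / 2) hδ hR (by norm_num : (0 : ℝ) < 3)
      (by norm_num : (0 : ℝ) < 3) (by norm_num) (fun D _ => by linarith) (key α h1) (key β h2) m
      1 c (by norm_num)
  · rcases (abs_eq (by norm_num : (0 : ℝ) ≤ 2)).1 h1 with rfl | rfl
    · apply fin (fun D => |D + 1| - 3 / 2) (by norm_num)
      refine volume_bad (W := fun D => |D + 1| - 3 / 2) hδ hR (by norm_num : (0 : ℝ) < 2)
        (by norm_num : (0 : ℝ) < 7) (by norm_num) (fun D _ => ?_) (fun D _ => ?_) (fun D hD => ?_) m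
        1 c (by norm_num)
      · have := abs_add_le D 1
        rw [abs_one] at this
        linarith
      · have e : (2 * D + 1 + 1) = 2 * (D + 1) := by ring
        rw [e, abs_mul, abs_two]
        linarith
      · have h3 : |D + 1| ≤ |D| + 1 := by
          have := abs_add_le D 1
          rwa [abs_one] at this
        have h4 : |β| * |D| - 2 ≤ |β * D + 1 + 1| := by
          have h5 := abs_sub_abs_le_abs_sub (β * D) (-2)
          rw [abs_mul, abs_neg, abs_two] at h5
          have e : β * D - -2 = β * D + 1 + 1 := by ring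
          rwa [e] at h5
        nlinarith
    · apply fin (fun D => |D - 1 / 3| - 1 / 2) (by norm_num)
      refine volume_bad (W := fun D => |D - 1 / 3| - 1 / 2) hδ hR (by norm_num : (0 : ℝ) < 2)
        (by norm_num : (0 : ℝ) < 7) (by norm_num) (fun D _ => ?_) (fun D _ => ?_) (fun D hD => ?_) m
        1 c (by norm_num)
      · have := abs_sub D (1 / 3)
        rw [abs_of_pos (by norm_num : (0 : ℝ) < 1 / 3)] at this
        linarith
      · have e : (-2 * D + 1 - 1 / 3) = -(2 * (D - 1 / 3)) := by ring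
        rw [e, abs_neg, abs_mul, abs_two]
        linarith
      · have h3 : |D - 1 / 3| ≤ |D| + 1 / 3 := by
          have := abs_sub D (1 / 3)
          rwa [abs_of_pos (by norm_num : (0 : ℝ) < 1 / 3)] at this
        have h4 : |β| * |D| - 2 / 3 ≤ |β * D + 1 - 1 / 3| := by
          have h5 := abs_sub_abs_le_abs_sub (β * D) (-(2 / 3))
          rw [abs_mul, abs_neg, abs_of_pos (by norm_num : (0 : ℝ) < 2 / 3)] at h5
          have e : β * D - -(2 / 3) = β * D + 1 - 1 / 3 := by ring
          rwa [e] at h5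
        nlinarith
  · rcases (abs_eq (by norm_num : (0 : ℝ) ≤ 2)).1 h2 with rfl | rfl
    · apply fin (fun D => |D + 1| - 3 / 2) (by norm_num)
      refine volume_bad (W := fun D => |D + 1| - 3 / 2) hδ hR (by norm_num : (0 : ℝ) < 7)
        (by norm_num : (0 : ℝ) < 2) (by norm_num) (fun D _ => ?_) (fun D hD => ?_) (fun D _ => ?_) m
        1 c (by norm_num)
      · have := abs_add_le D 1
        rw [abs_one] at this
        linarith
      · have h3 : |D + 1| ≤ |D| + 1 := by
          have := abs_add_le D 1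
          rwa [abs_one] at this
        have h4 : |α| * |D| - 2 ≤ |α * D + 1 + 1| := by
          have h5 := abs_sub_abs_le_abs_sub (α * D) (-2)
          rw [abs_mul, abs_neg, abs_two] at h5
          have e : α * D - -2 = α * D + 1 + 1 := by ring
          rwa [e] at h5
        nlinarith
      · have e : (2 * D + 1 + 1) = 2 * (D + 1) := by ring
        rw [e, abs_mul, abs_two]
        linarith
    · apply fin (fun D => |D - 1 / 3| - 1 / 2) (by norm_num)
      refine volume_bad (W := fun D => |D - 1 / 3| - 1 / 2) hδ hR (by norm_num : (0 : ℝ) < 7)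
        (by norm_num : (0 : ℝ) < 2) (by norm_num) (fun D _ => ?_) (fun D hD => ?_) (fun D _ => ?_) m
        1 c (by norm_num)
      · have := abs_sub D (1 / 3)
        rw [abs_of_pos (by norm_num : (0 : ℝ) < 1 / 3)] at this
        linarith
      · have h3 : |D - 1 / 3| ≤ |D| + 1 / 3 := by
          have := abs_sub D (1 / 3)
          rwa [abs_of_pos (by norm_num : (0 : ℝ) < 1 / 3)] at this
        have h4 : |α| * |D| - 2 / 3 ≤ |α * D + 1 - 1 / 3| := by
          have h5 := abs_sub_abs_le_abs_sub (α * D) (-(2 / 3))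
          rw [abs_mul, abs_neg, abs_of_pos (by norm_num : (0 : ℝ) < 2 / 3)] at h5
          have e : α * D - -(2 / 3) = α * D + 1 - 1 / 3 := by ring
          rwa [e] at h5
        nlinarith
      · have e : (-2 * D + 1 - 1 / 3) = -(2 * (D - 1 / 3)) := by ring
        rw [e, abs_neg, abs_mul, abs_two]
        linarith

end Pool.Agent.K3h78.RS
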