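import Mathlib

/-!
# Local estimates for `s x ^ a A (x ^ n) / (x ^ b B (x ^ n))`
-/

set_option autoImplicit false
set_option maxHeartbeats 400000

open Set Filter Topology Polynomial

namespace Pool.Agent.K3h78.RS

/-- the bounds for the coefficients -/
structure Loc (D : ℕ) (M : ℝ) (A : ℂ[X]) : Prop where
  deg : A.natDegree ≤ D
  bd : ∀ k, ‖A.coeff k‖ ≤ M
  low : M⁻¹ ≤ ‖A.coeff 0‖

theorem abs_log_le {x y : ℝ} (h : |x - 1| ≤ y) (hy : y ≤ 1 / 2) : |Real.log x| ≤ 2 * y := by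
  have h1 := abs_le.1 h
  have hx : 0 < x := by linarith [h1.1]
  have h2 := Real.log_le_sub_one_of_pos hx
  have h3 := Real.one_sub_inv_le_log_of_pos hx
  have hy0 : 0 ≤ y := (abs_nonneg _).trans h
  rw [abs_le]
  constructor
  · have h4 : x⁻¹ ≤ 1 + 2 * y := by
      rw [inv_le_comm₀ hx (by linarith)]
      have h5 : (1 + 2 * y)⁻¹ ≤ 1 - y := by
        rw [inv_le_iff_one_le_mul₀ (by linarith)]
        nlinarith
      linarith [h1.1]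
    linarith
  · linarith [h1.2]


theorem Loc.near {D : ℕ} {M : ℝ} (hM : 0 < M) {A : ℂ[X]} (h : Loc D M A) {u : ℂ} (hu : ‖u‖ ≤ 1) :
    ‖A.eval u - A.coeff 0‖ ≤ D * M * ‖u‖ := by
  rw [eval_eq_sum_range' (Nat.lt_succ_of_le h.deg), Finset.sum_range_succ']
  simp only [pow_zero, mul_one, add_sub_cancel_right]
  refine (norm_sum_le _ _).trans ?_
  have h1 : ∀ k ∈ Finset.range D, ‖A.coeff (k + 1) * u ^ (k + 1)‖ ≤ M * ‖u‖ := by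
    intro k _
    rw [norm_mul, norm_pow]
    apply mul_le_mul (h.bd _) _ (by positivity) hM.le
    calc ‖u‖ ^ (k + 1) ≤ ‖u‖ ^ 1 := pow_le_pow_of_le_one (norm_nonneg _) hu (by omega)
      _ = ‖u‖ := pow_one _
  refine (Finset.sum_le_sum h1).trans ?_
  rw [Finset.sum_const, Finset.card_range, nsmul_eq_mul]
  linarith

theorem Loc.ratio {D : ℕ} {M : ℝ} (hM : 0 < M) {A : ℂ[X]} (h : Loc D M A) {u : ℂ}
    (hu : ‖u‖ ≤ 1) : ‖A.eval u / A.coeff 0 - 1‖ ≤ D * M ^ 2 * ‖u‖ := by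
  have h0 : 0 < ‖A.coeff 0‖ := lt_of_lt_of_le (inv_pos.2 hM) h.low
  have h1 : A.coeff 0 ≠ 0 := norm_pos_iff.1 h0
  have e : A.eval u / A.coeff 0 - 1 = (A.eval u - A.coeff 0) / A.coeff 0 := by
    field_simp
  rw [e, norm_div, div_le_iff₀ h0]
  refine (h.near hM hu).trans ?_
  have h2 : 1 ≤ M * ‖A.coeff 0‖ := by
    have := mul_le_mul_of_nonneg_left h.low hM.le
    rwa [mul_inv_cancel₀ hM.ne'] at this
  have h3 : 0 ≤ D * M * ‖u‖ := by positivity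
  calc (D : ℝ) * M * ‖u‖ = D * M * ‖u‖ * 1 := by ring
    _ ≤ D * M * ‖u‖ * (M * ‖A.coeff 0‖) := mul_le_mul_of_nonneg_left h2 h3
    _ = _ := by ring

theorem Loc.log_est {D : ℕ} {M : ℝ} (hM : 0 < M) {A : ℂ[X]} (h : Loc D M A) {u : ℂ}
    (hu : ‖u‖ ≤ 1) (hs : D * M ^ 2 * ‖u‖ ≤ 1 / 2) :
    A.eval u ≠ 0 ∧ |Real.log ‖A.eval u‖ - Real.log ‖A.coeff 0‖| ≤ 2 * (D * M ^ 2 * ‖u‖) := by
  have h0 : 0 < ‖A.coeff 0‖ := lt_of_lt_of_le (inv_pos.2 hM) h.low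
  have h1 : A.coeff 0 ≠ 0 := norm_pos_iff.1 h0
  have h2 := h.ratio hM hu
  have h3 : |‖A.eval u / A.coeff 0‖ - 1| ≤ D * M ^ 2 * ‖u‖ := by
    have := abs_norm_sub_norm_le (A.eval u / A.coeff 0) 1
    rw [norm_one] at this
    exact this.trans h2
  have h4 : A.eval u ≠ 0 := by
    intro h5
    rw [h5, zero_div, norm_zero, zero_sub, abs_neg, abs_one] at h3
    linarith
  refine ⟨h4, ?_⟩
  have h5 := abs_log_le h3 hs
  rw [norm_div, Real.log_div (norm_ne_zero_iff.2 h4) (norm_ne_zero_iff.2 h1)] at h5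
  exact h5

theorem Loc.norm_est {D : ℕ} {M : ℝ} (hM : 0 < M) {A : ℂ[X]} (h : Loc D M A) {u : ℂ}
    (hu : ‖u‖ ≤ 1) (hs : D * M ^ 2 * ‖u‖ ≤ 1 / 2) :
    M⁻¹ / 2 ≤ ‖A.eval u‖ ∧ ‖A.eval u‖ ≤ 2 * M := by
  have h0 : 0 < ‖A.coeff 0‖ := lt_of_lt_of_le (inv_pos.2 hM) h.low
  have h1 : A.coeff 0 ≠ 0 := norm_pos_iff.1 h0
  have h2 := h.ratio hM hu
  have h3 : |‖A.eval u / A.coeff 0‖ - 1| ≤ 1 / 2 := by
    have := abs_norm_sub_norm_le (A.eval u / A.coeff 0) 1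
    rw [norm_one] at this
    exact (this.trans h2).trans hs
  rw [abs_le, norm_div] at h3
  have h4 : 1 / 2 ≤ ‖A.eval u‖ / ‖A.coeff 0‖ := by linarith [h3.1]
  have h5 : ‖A.eval u‖ / ‖A.coeff 0‖ ≤ 3 / 2 := by linarith [h3.2]
  rw [le_div_iff₀ h0] at h4
  rw [div_le_iff₀ h0] at h5
  have h6 := h.bd 0
  have h7 := h.low
  constructor <;> linarith

/-- numerator and denominator in a chart -/
noncomputable def num (s : ℂ) (a n : ℕ) (A : ℂ[X]) (x : ℂ) : ℂ := s * x ^ a * A.eval (x ^ n)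

theorem num_differentiable (s : ℂ) (a n : ℕ) (A : ℂ[X]) : Differentiable ℂ (num s a n A) := by
  unfold num
  exact ((differentiable_const _).mul (differentiable_id.pow a)).mul
    (A.differentiable.comp (differentiable_id.pow n))

theorem log_num {D : ℕ} {M : ℝ} (hM : 0 < M) {A : ℂ[X]} (h : Loc D M A) {s x : ℂ} (hs : s ≠ 0)
    (hx : x ≠ 0) (a : ℕ) {n : ℕ} {η : ℝ} (hη : 0 ≤ η) (hv : Real.log ‖x‖ ≤ -η)
    (hsm : D * M ^ 2 * Real.exp (-(n * η)) ≤ 1 / 2) :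
    num s a n A x ≠ 0 ∧ |Real.log ‖num s a n A x‖ -
      (a * Real.log ‖x‖ + Real.log ‖A.coeff 0‖ + Real.log ‖s‖)| ≤
        2 * (D * M ^ 2 * Real.exp (-(n * η))) := by
  have hx0 : 0 < ‖x‖ := norm_pos_iff.2 hx
  have hxn : ‖x ^ n‖ ≤ Real.exp (-(n * η)) := by
    rw [norm_pow, ← Real.exp_log hx0, ← Real.exp_nat_mul]
    apply Real.exp_le_exp.2
    have : (0 : ℝ) ≤ n := Nat.cast_nonneg n
    nlinarith
  have hn1 : ‖x ^ n‖ ≤ 1 := by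
    refine hxn.trans (Real.exp_le_one_iff.2 ?_)
    have : (0 : ℝ) ≤ n := Nat.cast_nonneg n
    nlinarith
  have hsm' : D * M ^ 2 * ‖x ^ n‖ ≤ D * M ^ 2 * Real.exp (-(n * η)) :=
    mul_le_mul_of_nonneg_left hxn (by positivity)
  obtain ⟨h1, h2⟩ := h.log_est hM hn1 (hsm'.trans hsm)
  refine ⟨mul_ne_zero (mul_ne_zero hs (pow_ne_zero _ hx)) h1, ?_⟩
  have e : Real.log ‖num s a n A x‖ = Real.log ‖s‖ + a * Real.log ‖x‖ +
      Real.log ‖A.eval (x ^ n)‖ := by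
    unfold num
    rw [norm_mul, norm_mul, norm_pow, Real.log_mul (mul_ne_zero (norm_ne_zero_iff.2 hs)
      (pow_ne_zero _ hx0.ne')) (norm_ne_zero_iff.2 h1), Real.log_mul (norm_ne_zero_iff.2 hs)
      (pow_ne_zero _ hx0.ne'), Real.log_pow]
  rw [e]
  have e2 : Real.log ‖s‖ + a * Real.log ‖x‖ + Real.log ‖A.eval (x ^ n)‖ -
      (a * Real.log ‖x‖ + Real.log ‖A.coeff 0‖ + Real.log ‖s‖) =
      Real.log ‖A.eval (x ^ n)‖ - Real.log ‖A.coeff 0‖ := by ring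
  rw [e2]
  exact h2.trans (by linarith)

/-- the bound near zero -/
theorem trap_num {D : ℕ} {M ρ : ℝ} (hM : 0 < M) (hρ1 : ρ ≤ 1)
    (hρ : D * M ^ 2 * ρ ≤ 1 / 2) {A B : ℂ[X]} (hA : Loc D M A) (hB : Loc D M B) {s s' x : ℂ}
    {G : ℝ} (hG : 0 ≤ G) (hs : ‖s‖ ≤ G * ‖s'‖) (hs' : s' ≠ 0) (hx : ‖x‖ ≤ ρ) {a n : ℕ}
    (ha : 2 ≤ a) (hn : 1 ≤ n) :
    num s' 0 n B x ≠ 0 ∧ ‖num s a n A x / num s' 0 n B x‖ ≤ 4 * M ^ 2 * G * ‖x‖ ^ 2 := by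
  have hx1 : ‖x‖ ≤ 1 := hx.trans hρ1
  have hxn : ‖x ^ n‖ ≤ ‖x‖ := by
    rw [norm_pow]
    calc ‖x‖ ^ n ≤ ‖x‖ ^ 1 := pow_le_pow_of_le_one (norm_nonneg _) hx1 hn
      _ = ‖x‖ := pow_one _
  have hs2 : D * M ^ 2 * ‖x ^ n‖ ≤ 1 / 2 :=
    (mul_le_mul_of_nonneg_left (hxn.trans hx) (by positivity)).trans hρ
  obtain ⟨-, h1⟩ := hA.norm_est hM (hxn.trans hx1) hs2
  obtain ⟨h2, -⟩ := hB.norm_est hM (hxn.trans hx1) hs2
  have h3 : 0 < ‖B.eval (x ^ n)‖ := lt_of_lt_of_le (by positivity) h2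
  have hs0 : 0 < ‖s'‖ := norm_pos_iff.2 hs'
  have h4 : num s' 0 n B x ≠ 0 := by
    unfold num
    rw [pow_zero, mul_one]
    exact mul_ne_zero hs' (norm_pos_iff.1 h3)
  refine ⟨h4, ?_⟩
  unfold num
  rw [norm_div, norm_mul, norm_mul, norm_mul, pow_zero, mul_one, norm_pow,
    div_le_iff₀ (by positivity)]
  have h5 : ‖x‖ ^ a ≤ ‖x‖ ^ 2 := pow_le_pow_of_le_one (norm_nonneg _) hx1 ha
  have h6 : ‖s‖ * ‖x‖ ^ a * ‖A.eval (x ^ n)‖ ≤ (G * ‖s'‖) * ‖x‖ ^ 2 * (2 * M) := by gcongr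
  refine h6.trans ?_
  have h7 : 1 ≤ 2 * M * ‖B.eval (x ^ n)‖ := by
    have := mul_le_mul_of_nonneg_left h2 (by positivity : 0 ≤ 2 * M)
    have e : 2 * M * (M⁻¹ / 2) = 1 := by field_simp
    linarith
  have h8 : 0 ≤ (G * ‖s'‖) * ‖x‖ ^ 2 * (2 * M) := by positivity
  calc (G * ‖s'‖) * ‖x‖ ^ 2 * (2 * M) = (G * ‖s'‖) * ‖x‖ ^ 2 * (2 * M) * 1 := by ring
    _ ≤ (G * ‖s'‖) * ‖x‖ ^ 2 * (2 * M) * (2 * M * ‖B.eval (x ^ n)‖) :=
      mul_le_mul_of_nonneg_left h7 h8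
    _ = _ := by ring

end Pool.Agent.K3h78.RS
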