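import Mathlib
import Pool.Agent.H462R2.AP1
import Pool.Agent.K3h78.RS.A2

/-!
# Maps `s z ^ a A (z ^ n) / (z ^ b B (z ^ n))`: the charts at zero and at infinity
-/

set_option autoImplicit false
set_option maxHeartbeats 400000

open Set Filter Topology Polynomial
open scoped OnePoint

namespace Pool.Agent.K3h78.RS

open Pool.Agent.H762R2.Rt Pool.Agent.H462R2.AP
open Pool.Agent.Helper114.Herman Pool.Agent.Helper114.Konig

/-- `s z ^ a A (z ^ n)` -/
noncomputable def PP (s : ℂ) (a n : ℕ) (A : ℂ[X]) : ℂ[X] := C s * X ^ a * expand ℂ n A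

theorem PP_eval (s : ℂ) (a n : ℕ) (A : ℂ[X]) (x : ℂ) : (PP s a n A).eval x = num s a n A x := by
  simp [PP, num, expand_eval]

theorem PP_ne {s : ℂ} (hs : s ≠ 0) (a : ℕ) {n : ℕ} (hn : 0 < n) {A : ℂ[X]} (hA : A ≠ 0) :
    PP s a n A ≠ 0 := by
  unfold PP
  exact mul_ne_zero (mul_ne_zero (C_ne_zero.2 hs) (pow_ne_zero _ X_ne_zero))
    ((expand_ne_zero hn).2 hA)

theorem PP_natDegree {s : ℂ} (hs : s ≠ 0) (a : ℕ) {n : ℕ} (hn : 0 < n) {A : ℂ[X]} (hA : A ≠ 0) :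
    (PP s a n A).natDegree = a + n * A.natDegree := by
  unfold PP
  rw [natDegree_mul (mul_ne_zero (C_ne_zero.2 hs) (pow_ne_zero _ X_ne_zero))
    ((expand_ne_zero hn).2 hA), natDegree_C_mul_X_pow a s hs, natDegree_expand, mul_comm]

theorem reverse_eval {A : ℂ[X]} {y : ℂ} (hy : y ≠ 0) :
    A.reverse.eval y = y ^ A.natDegree * A.eval y⁻¹ := by
  let _ : Invertible y⁻¹ := invertibleOfNonzero (inv_ne_zero hy)
  have h := eval₂_reverse_mul_pow (RingHom.id ℂ) y⁻¹ A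
  rw [invOf_eq_inv, inv_inv, eval₂_id, eval₂_id] at h
  rw [← h, inv_pow]
  field_simp

theorem hom_cont (P : ℂ[X]) (d : ℕ) : Continuous fun x : ℂ => hom P d 1 x := by
  unfold hom
  fun_prop

theorem hom_PP {s : ℂ} (hs : s ≠ 0) {a n : ℕ} (hn : 0 < n) {A : ℂ[X]} (hA : A ≠ 0) {d : ℕ}
    (hd : a + n * A.natDegree ≤ d) (x : ℂ) :
    hom (PP s a n A) d 1 x = num s (d - (a + n * A.natDegree)) n A.reverse x := by
  have h1 : Continuous fun x : ℂ => hom (PP s a n A) d 1 x := hom_cont _ _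
  have h2 : Continuous fun x : ℂ => num s (d - (a + n * A.natDegree)) n A.reverse x :=
    (num_differentiable _ _ _ _).continuous
  have h3 : (fun x : ℂ => hom (PP s a n A) d 1 x) =
      fun x => num s (d - (a + n * A.natDegree)) n A.reverse x := by
    refine Continuous.ext_on (dense_compl_singleton (0 : ℂ)) h1 h2 ?_
    intro x hx
    have hx0 : x ≠ 0 := hx
    simp only
    rw [hom_ne (by rw [PP_natDegree hs a hn hA]; exact hd) hx0, PP_eval, num, num,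
      reverse_eval (pow_ne_zero _ hx0), one_div]
    obtain ⟨e, rfl⟩ := Nat.exists_eq_add_of_le hd
    rw [Nat.add_sub_cancel_left, inv_pow, inv_pow, ← pow_mul]
    have e1 : x ^ (a + n * A.natDegree + e) = x ^ a * x ^ (n * A.natDegree) * x ^ e := by
      rw [pow_add, pow_add]
    rw [e1]
    have h4 : x ^ a ≠ 0 := pow_ne_zero _ hx0
    field_simp
  exact congrFun h3 x

theorem coprime_PP {A B : ℂ[X]} (hc : IsCoprime A B) {a b : ℕ} (hab : a = 0 ∨ b = 0)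
    (hA0 : A.coeff 0 ≠ 0) (hB0 : B.coeff 0 ≠ 0) {s s' : ℂ} (hs : s ≠ 0) (hs' : s' ≠ 0) {n : ℕ}
    (hn : 0 < n) : IsCoprime (PP s a n A) (PP s' b n B) := by
  have hX : ∀ E : ℂ[X], E.coeff 0 ≠ 0 → IsCoprime (X : ℂ[X]) (expand ℂ n E) := by
    intro E hE
    refine (Irreducible.coprime_iff_not_dvd irreducible_X).2 ?_
    rw [X_dvd_iff, coeff_expand hn]
    simpa using hE
  have h1 : IsCoprime (expand ℂ n A) (expand ℂ n B) := hc.map _
  have hu : IsUnit (C s : ℂ[X]) := isUnit_C.2 (isUnit_iff_ne_zero.2 hs)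
  have hu' : IsUnit (C s' : ℂ[X]) := isUnit_C.2 (isUnit_iff_ne_zero.2 hs')
  unfold PP
  rw [mul_assoc, mul_assoc]
  refine (isCoprime_mul_unit_left_left hu _ _).2 ((isCoprime_mul_unit_left_right hu' _ _).2 ?_)
  refine IsCoprime.mul_left (IsCoprime.mul_right ?_ ?_) (IsCoprime.mul_right ?_ h1)
  · rcases hab with rfl | rfl
    · rw [pow_zero]; exact isCoprime_one_left
    · rw [pow_zero]; exact isCoprime_one_right
  · exact (hX B hB0).pow_left
  · exact (hX A hA0).symm.pow_right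

theorem loc_reverse {D : ℕ} {M : ℝ} {A : ℂ[X]} (hd : A.natDegree ≤ D) (hbd : ∀ k, ‖A.coeff k‖ ≤ M)
    (hl : M⁻¹ ≤ ‖A.leadingCoeff‖) : Loc D M A.reverse := by
  refine ⟨?_, fun k => ?_, ?_⟩
  · exact (reverse_natDegree_le A).trans hd
  · rw [coeff_reverse]; exact hbd _
  · rw [coeff_zero_reverse]; exact hl

/-- Cauchy's estimate -/
theorem cauchy_lip {h : ℂ → ℂ} (hd : ∀ y ∈ Metric.closedBall (0 : ℂ) 1, DifferentiableAt ℂ h y)
    (hb : ∀ y ∈ Metric.closedBall (0 : ℂ) 1, ‖h y‖ < 1 / 4) {x y : ℂ} (hx : ‖x‖ ≤ 1 / 2)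
    (hy : ‖y‖ ≤ 1 / 2) : ‖h x - h y‖ ≤ (1 / 2) * ‖x - y‖ := by
  have hsub : ∀ c : ℂ, ‖c‖ ≤ 1 / 2 → Metric.closedBall c (1 / 2) ⊆ Metric.closedBall (0 : ℂ) 1 := by
    intro c hc w hw
    rw [Metric.mem_closedBall, dist_eq_norm] at hw
    rw [mem_closedBall_zero_iff]
    have := norm_add_le (w - c) c
    rw [sub_add_cancel] at this
    linarith
  have hder : ∀ c ∈ Metric.closedBall (0 : ℂ) (1 / 2), ‖deriv h c‖ ≤ 1 / 2 := by
    intro c hc
    rw [mem_closedBall_zero_iff] at hc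
    have h1 : DifferentiableOn ℂ h (Metric.closedBall c (1 / 2)) := fun w hw =>
      (hd w (hsub c hc hw)).differentiableWithinAt
    have h2 : DiffContOnCl ℂ h (Metric.ball c (1 / 2)) := h1.diffContOnCl_ball subset_rfl
    have h3 := Complex.norm_deriv_le_of_forall_mem_sphere_norm_le (C := 1 / 4) (by norm_num) h2
      (fun w hw => (hb w (hsub c hc (Metric.sphere_subset_closedBall hw))).le)
    refine h3.trans ?_
    norm_num
  have hs1 : Metric.closedBall (0 : ℂ) (1 / 2) ⊆ Metric.closedBall (0 : ℂ) 1 :=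
    Metric.closedBall_subset_closedBall (by norm_num)
  exact (convex_closedBall (0 : ℂ) (1 / 2)).norm_image_sub_le_of_norm_deriv_le
    (fun w hw => hd w (hs1 hw)) hder (by rwa [mem_closedBall_zero_iff])
    (by rwa [mem_closedBall_zero_iff])

/-- the data of a normalised symmetric map -/
structure Dat (D : ℕ) (M G : ℝ) (n a b : ℕ) (A B : ℂ[X]) (s : ℂ) : Prop where
  M0 : 0 < M
  n1 : 1 ≤ n
  G1 : 1 ≤ G
  s1 : ‖s‖ ≤ G
  s2 : 1 ≤ G * ‖s‖
  s0 : s ≠ 0
  cop : IsCoprime A B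
  A0 : Loc D M A
  B0 : Loc D M B
  A1 : Loc D M A.reverse
  B1 : Loc D M B.reverse
  ab : a = 0 ∨ b = 0
  z0 : 2 ≤ a ∨ 2 ≤ b
  z1 : a + n * A.natDegree + 2 ≤ b + n * B.natDegree ∨
    b + n * B.natDegree + 2 ≤ a + n * A.natDegree

theorem Loc.coeff_ne {D : ℕ} {M : ℝ} (hM : 0 < M) {A : ℂ[X]} (h : Loc D M A) : A.coeff 0 ≠ 0 :=
  norm_pos_iff.1 (lt_of_lt_of_le (inv_pos.2 hM) h.low)

theorem Loc.ne {D : ℕ} {M : ℝ} (hM : 0 < M) {A : ℂ[X]} (h : Loc D M A) : A ≠ 0 := by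
  rintro rfl
  exact h.coeff_ne hM (by simp)

/-- the exponents and the polynomials in the charts -/
def ea (d n : ℕ) (a : ℕ) (A : ℂ[X]) (i : Bool) : ℕ := if i then d - (a + n * A.natDegree) else a

noncomputable def pa (A : ℂ[X]) (i : Bool) : ℂ[X] := if i then A.reverse else A

theorem ea_false (d n a : ℕ) (A : ℂ[X]) : ea d n a A false = a := rfl
theorem ea_true (d n a : ℕ) (A : ℂ[X]) : ea d n a A true = d - (a + n * A.natDegree) := rfl
theorem pa_false (A : ℂ[X]) : pa A false = A := rfl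
theorem pa_true (A : ℂ[X]) : pa A true = A.reverse := rfl

theorem Dat.chart {D : ℕ} {M G : ℝ} {n a b : ℕ} {A B : ℂ[X]} {s : ℂ} (h : Dat D M G n a b A B s)
    {f : OnePoint ℂ → OnePoint ℂ} (hf : IsRat f (PP s a n A) (PP 1 b n B)) {d : ℕ}
    (hd : d = max (PP s a n A).natDegree (PP 1 b n B).natDegree) (i : Bool) (x : ℂ) :
    f (ch i x) = pr (num s (ea d n a A i) n (pa A i) x) (num 1 (ea d n b B i) n (pa B i) x) := by
  have hA := h.A0.ne h.M0
  have hB := h.B0.ne h.M0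
  have hn : 0 < n := h.n1
  rw [PP_natDegree h.s0 a hn hA, PP_natDegree one_ne_zero b hn hB] at hd
  have hd0 : 0 < d := by
    have h1 := h.z0
    have h2 : a ≤ d := by rw [hd]; exact (Nat.le_add_right _ _).trans (le_max_left _ _)
    have h3 : b ≤ d := by rw [hd]; exact (Nat.le_add_right _ _).trans (le_max_right _ _)
    omega
  have hd' : d = max (PP s a n A).natDegree (PP 1 b n B).natDegree := by
    rw [PP_natDegree h.s0 a hn hA, PP_natDegree one_ne_zero b hn hB, hd]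
  have hda : a + n * A.natDegree ≤ d := by rw [hd]; exact le_max_left _ _
  have hdb : b + n * B.natDegree ≤ d := by rw [hd]; exact le_max_right _ _
  cases i
  · have e1 : ch false x = pr x 1 := by rw [ch_false, pr_one]
    rw [e1, rat_formula hf hd' hd0 (Or.inr one_ne_zero),
      hom_ne (by rw [PP_natDegree h.s0 a hn hA]; exact hda) one_ne_zero,
      hom_ne (by rw [PP_natDegree one_ne_zero b hn hB]; exact hdb) one_ne_zero,
      one_pow, one_mul, one_mul, div_one, PP_eval, PP_eval]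
    rfl
  · have e1 : ch true x = pr 1 x := by
      simp only [ch_true]
      rw [← pr_one x, sinv_pr (Or.inr one_ne_zero)]
    rw [e1, rat_formula hf hd' hd0 (Or.inl one_ne_zero), hom_PP h.s0 hn hA hda,
      hom_PP one_ne_zero hn hB hdb]
    rfl

theorem Dat.exps {D : ℕ} {M G : ℝ} {n a b : ℕ} {A B : ℂ[X]} {s : ℂ} (h : Dat D M G n a b A B s)
    {d : ℕ} (hd : d = max (PP s a n A).natDegree (PP 1 b n B).natDegree) (i : Bool) :
    (2 ≤ ea d n a A i ∧ ea d n b B i = 0) ∨ (2 ≤ ea d n b B i ∧ ea d n a A i = 0) := by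
  have hA := h.A0.ne h.M0
  have hB := h.B0.ne h.M0
  have hn : 0 < n := h.n1
  rw [PP_natDegree h.s0 a hn hA, PP_natDegree one_ne_zero b hn hB] at hd
  have h1 := h.ab
  have h2 := h.z0
  have h3 := h.z1
  cases i
  · rw [ea_false, ea_false]; omega
  · rw [ea_true, ea_true]; omega

theorem Dat.loc {D : ℕ} {M G : ℝ} {n a b : ℕ} {A B : ℂ[X]} {s : ℂ} (h : Dat D M G n a b A B s)
    (i : Bool) : Loc D M (pa A i) ∧ Loc D M (pa B i) := by
  cases i
  · exact ⟨h.A0, h.B0⟩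
  · exact ⟨h.A1, h.B1⟩

/-- Everything near zero and near infinity is attracted. -/
theorem Dat.sinks {D : ℕ} {M G : ℝ} {n a b : ℕ} {A B : ℂ[X]} {s : ℂ} (h : Dat D M G n a b A B s)
    {f : OnePoint ℂ → OnePoint ℂ} (hf : IsRat f (PP s a n A) (PP 1 b n B)) {ρ : ℝ} (hρ0 : 0 < ρ)
    (hρ1 : ρ ≤ 1) (hρ2 : D * M ^ 2 * ρ ≤ 1 / 2) (hρ3 : 4 * M ^ 2 * G * ρ < 1 / 4) (i : Bool)
    {x : ℂ} (hx : ‖x‖ ≤ ρ / 2) : Sinks f (ch i x) := by
  have hM := h.M0
  have hG0 : 0 ≤ G := by linarith [h.G1]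
  obtain ⟨d, hd⟩ : ∃ d, d = max (PP s a n A).natDegree (PP 1 b n B).natDegree := ⟨_, rfl⟩
  have hch := h.chart hf hd
  have hex := h.exps hd
  have hρc : (ρ : ℂ) ≠ 0 := by exact_mod_cast hρ0.ne'
  have hn1 : ‖s‖ ≤ G * ‖(1 : ℂ)‖ := by rw [norm_one, mul_one]; exact h.s1
  have hn2 : ‖(1 : ℂ)‖ ≤ G * ‖s‖ := by rw [norm_one]; exact h.s2
  have hnrm : ∀ y ∈ Metric.closedBall (0 : ℂ) 1, ‖(ρ : ℂ) * y‖ ≤ ρ := by
    intro y hy
    rw [mem_closedBall_zero_iff] at hy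
    rw [norm_mul, Complex.norm_real, Real.norm_eq_abs, abs_of_pos hρ0]
    nlinarith
  have hsq : ∀ y ∈ Metric.closedBall (0 : ℂ) 1, ∀ v : ℂ,
      ‖v‖ ≤ 4 * M ^ 2 * G * ‖(ρ : ℂ) * y‖ ^ 2 → ‖v / ρ‖ < 1 / 4 := by
    intro y hy v hv
    rw [norm_div, Complex.norm_real, Real.norm_eq_abs, abs_of_pos hρ0, div_lt_iff₀ hρ0]
    have h1 := hnrm y hy
    have h2 : ‖(ρ : ℂ) * y‖ ^ 2 ≤ ρ ^ 2 := pow_le_pow_left₀ (norm_nonneg _) h1 2
    have h3 : 4 * M ^ 2 * G * ‖(ρ : ℂ) * y‖ ^ 2 ≤ 4 * M ^ 2 * G * ρ ^ 2 :=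
      mul_le_mul_of_nonneg_left h2 (by positivity)
    have h4 : 4 * M ^ 2 * G * ρ ^ 2 = (4 * M ^ 2 * G * ρ) * ρ := by ring
    have h5 : (4 * M ^ 2 * G * ρ) * ρ < 1 / 4 * ρ := mul_lt_mul_of_pos_right hρ3 hρ0
    linarith
  have hstep : ∀ i, ∃ (σ : Bool) (g : ℂ → ℂ),
      (∀ y ∈ Metric.closedBall (0 : ℂ) 1, f (ch i (ρ * y)) = ch σ (ρ * g y)) ∧
      (∀ y ∈ Metric.closedBall (0 : ℂ) 1, DifferentiableAt ℂ g y) ∧
      (∀ y ∈ Metric.closedBall (0 : ℂ) 1, ‖g y‖ < 1 / 4) := by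
    intro i
    have hl : ∀ y : ℂ, DifferentiableAt ℂ (fun y : ℂ => (ρ : ℂ) * y) y := fun y =>
      differentiableAt_id.const_mul _
    have hdn : ∀ (s : ℂ) (e : ℕ) (E : ℂ[X]) (y : ℂ),
        DifferentiableAt ℂ (fun y : ℂ => num s e n E (ρ * y)) y := fun s e E y =>
      (num_differentiable s e n E _).comp y (hl y)
    rcases hex i with ⟨h2, h0⟩ | ⟨h2, h0⟩
    · have hb : ∀ y ∈ Metric.closedBall (0 : ℂ) 1, num 1 (ea d n b B i) n (pa B i) (ρ * y) ≠ 0 ∧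
          ‖num s (ea d n a A i) n (pa A i) (ρ * y) / num 1 (ea d n b B i) n (pa B i) (ρ * y)‖ ≤
            4 * M ^ 2 * G * ‖(ρ : ℂ) * y‖ ^ 2 := by
        intro y hy
        rw [h0]
        exact trap_num hM hρ1 hρ2 (h.loc i).1 (h.loc i).2 hG0 hn1 one_ne_zero (hnrm y hy) h2 h.n1
      refine ⟨false, fun y => num s (ea d n a A i) n (pa A i) (ρ * y) /
        num 1 (ea d n b B i) n (pa B i) (ρ * y) / ρ, fun y hy => ?_, fun y hy => ?_, fun y hy => ?_⟩
      · rw [hch, pr_ne (hb y hy).1, ch_false]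
        simp only
        rw [mul_div_cancel₀ _ hρc]
      · exact ((hdn _ _ _ y).fun_div (hdn _ _ _ y) (hb y hy).1).div_const _
      · exact hsq y hy _ (hb y hy).2
    · have hb : ∀ y ∈ Metric.closedBall (0 : ℂ) 1, num s (ea d n a A i) n (pa A i) (ρ * y) ≠ 0 ∧
          ‖num 1 (ea d n b B i) n (pa B i) (ρ * y) / num s (ea d n a A i) n (pa A i) (ρ * y)‖ ≤
            4 * M ^ 2 * G * ‖(ρ : ℂ) * y‖ ^ 2 := by
        intro y hy
        rw [h0]
        exact trap_num hM hρ1 hρ2 (h.loc i).2 (h.loc i).1 hG0 hn2 h.s0 (hnrm y hy) h2 h.n1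
      refine ⟨true, fun y => num 1 (ea d n b B i) n (pa B i) (ρ * y) /
        num s (ea d n a A i) n (pa A i) (ρ * y) / ρ, fun y hy => ?_, fun y hy => ?_, fun y hy => ?_⟩
      · rw [hch, ch_true]
        simp only
        rw [mul_div_cancel₀ _ hρc, ← pr_ne (hb y hy).1, sinv_pr (Or.inr (hb y hy).1)]
      · exact ((hdn _ _ _ y).fun_div (hdn _ _ _ y) (hb y hy).1).div_const _
      · exact hsq y hy _ (hb y hy).2
  choose σ g hconj hgd hgb using hstep
  have hhalf : ∀ x : ℂ, ‖x‖ ≤ 1 / 2 → x ∈ Metric.closedBall (0 : ℂ) 1 := by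
    intro x hx
    rw [mem_closedBall_zero_iff]; linarith
  have hψc : ∀ i, Continuous (fun y : ℂ => ch i (ρ * y)) := fun i =>
    (continuous_ch i).comp (continuous_const.mul continuous_id)
  have hψo : ∀ i, IsOpenMap (fun y : ℂ => ch i (ρ * y)) := fun i =>
    (isOpenMap_ch i).comp (Homeomorph.mulLeft₀ (ρ : ℂ) hρc).isOpenMap
  have hx' : ‖x / ρ‖ ≤ 1 / 2 := by
    rw [norm_div, Complex.norm_real, Real.norm_eq_abs, abs_of_pos hρ0, div_le_iff₀ hρ0]
    linarith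
  have key := two_charts' (ψ := fun i y => ch i (ρ * y)) (σ := σ) (τ := fun _ => 1) (h := g)
    (r := 1 / 2) (i := i) (x := x / ρ) hf.cont (by norm_num) (fun _ => one_pos) hψc hψo
    (fun i x hx => by rw [Function.iterate_one]; exact hconj i x (hhalf x hx))
    (fun i x hx => (hgb i x (hhalf x hx)).trans (by norm_num))
    (fun i x y hx hy => cauchy_lip (hgd i) (hgb i) hx hy) hx'
  rwa [mul_div_cancel₀ _ hρc] at key

end Pool.Agent.K3h78.RS
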