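import Mathlib
import Pool.Agent.K3h78.RS.A1
import Pool.Agent.K3h78.RS.A3

/-!
# Maps `s z ^ a A (z ^ n) / (z ^ b B (z ^ n))`: critical points and their orbits
-/

set_option autoImplicit false
set_option maxHeartbeats 400000

open Set Filter Topology Polynomial
open scoped OnePoint

namespace Pool.Agent.K3h78.RS

open Pool.Agent.H762R2.Rt Pool.Agent.H462R2.AP
open Pool.Agent.Helper114.Herman Pool.Agent.Helper114.Konig

theorem eval_deriv (s : ℂ) (a : ℕ) {n : ℕ} (hn : 0 < n) (A : ℂ[X]) (x : ℂ) :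
    x * (derivative (PP s a n A)).eval x =
      s * x ^ a * (a * A.eval (x ^ n) + n * x ^ n * (derivative A).eval (x ^ n)) := by
  unfold PP
  rw [derivative_mul, derivative_mul, derivative_C, derivative_X_pow, derivative_expand]
  simp only [zero_mul, zero_add, eval_add, eval_mul, eval_C, eval_pow, eval_X, expand_eval,
    eval_natCast]
  have h1 : x * ((a : ℂ) * x ^ (a - 1)) = a * x ^ a := by
    rcases a with _ | a
    · simp
    · rw [Nat.add_sub_cancel, pow_succ]; ring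
  have h2 : x * x ^ (n - 1) = x ^ n := by
    rw [← pow_succ']; congr 1; omega
  calc x * (s * (↑a * x ^ (a - 1)) * A.eval (x ^ n) + s * x ^ a *
        ((derivative A).eval (x ^ n) * (↑n * x ^ (n - 1)))) =
      s * (x * (↑a * x ^ (a - 1))) * A.eval (x ^ n) + s * x ^ a *
        ((derivative A).eval (x ^ n) * (↑n * (x * x ^ (n - 1)))) := by ring
    _ = _ := by rw [h1, h2]; ring

/-- its roots `z ^ n` are the critical points -/
noncomputable def NN (a b n : ℕ) (A B : ℂ[X]) : ℂ[X] :=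
  C ((a : ℂ) - b) * (A * B) + C (n : ℂ) * (X * wro A B)

theorem wro_eval (s : ℂ) (a b : ℕ) {n : ℕ} (hn : 0 < n) (A B : ℂ[X]) (x : ℂ) :
    x * (wro (PP s a n A) (PP 1 b n B)).eval x = s * x ^ (a + b) * (NN a b n A B).eval (x ^ n) := by
  have h1 := eval_deriv s a hn A x
  have h2 := eval_deriv 1 b hn B x
  have e : x * (wro (PP s a n A) (PP 1 b n B)).eval x =
      (x * (derivative (PP s a n A)).eval x) * (PP 1 b n B).eval x -
      (PP s a n A).eval x * (x * (derivative (PP 1 b n B)).eval x) := by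
    unfold wro
    rw [eval_sub, eval_mul, eval_mul]
    ring
  rw [e, h1, h2, PP_eval, PP_eval, num, num, NN, wro]
  simp only [eval_add, eval_mul, eval_C, eval_X, eval_sub]
  rw [pow_add]
  ring

theorem NN_natDegree {D : ℕ} {a b n : ℕ} {A B : ℂ[X]} (hA : A.natDegree ≤ D) (hB : B.natDegree ≤ D) :
    (NN a b n A B).natDegree ≤ 2 * D + 1 := by
  unfold NN
  refine (natDegree_add_le _ _).trans (max_le ?_ ?_)
  · refine (natDegree_C_mul_le _ _).trans ((natDegree_mul_le).trans (by omega))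
  · refine (natDegree_C_mul_le _ _).trans ((natDegree_mul_le).trans ?_)
    have h1 : (wro A B).natDegree ≤ 2 * D := by
      unfold wro
      refine (natDegree_sub_le _ _).trans (max_le ?_ ?_)
      · refine (natDegree_mul_le).trans ?_
        have := natDegree_derivative_le A
        omega
      · refine (natDegree_mul_le).trans ?_
        have := natDegree_derivative_le B
        omega
    rw [natDegree_X]
    omega

theorem NN_ne {a b n : ℕ} {A B : ℂ[X]} (hA : A.coeff 0 ≠ 0) (hB : B.coeff 0 ≠ 0) (hab : a ≠ b) :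
    NN a b n A B ≠ 0 := by
  intro h
  have h1 := congrArg (fun E : ℂ[X] => E.eval 0) h
  simp only [NN, eval_add, eval_mul, eval_C, eval_X, zero_mul, mul_zero, add_zero, eval_zero] at h1
  rw [← coeff_zero_eq_eval_zero, ← coeff_zero_eq_eval_zero] at h1
  have h2 : ((a : ℂ) - b) ≠ 0 := by
    rw [sub_ne_zero]
    exact_mod_cast hab
  exact mul_ne_zero h2 (mul_ne_zero hA hB) h1

/-- the logarithm of the modulus of the critical value over `u`, up to a constant -/
noncomputable def val (a b n : ℕ) (A B : ℂ[X]) (u : ℂ) : ℝ :=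
  ((a : ℝ) - b) / n * Real.log ‖u‖ + Real.log ‖A.eval u‖ - Real.log ‖B.eval u‖

theorem log_value {s : ℂ} (hs : s ≠ 0) {a b n : ℕ} (hn : 0 < n) {A B : ℂ[X]} {x : ℂ} (hx : x ≠ 0)
    (hA : A.eval (x ^ n) ≠ 0) (hB : B.eval (x ^ n) ≠ 0) :
    Real.log ‖num s a n A x / num 1 b n B x‖ = Real.log ‖s‖ + val a b n A B (x ^ n) := by
  have hx0 : ‖x‖ ≠ 0 := norm_ne_zero_iff.2 hx
  have hsn : ‖s‖ ≠ 0 := norm_ne_zero_iff.2 hs
  have h1 : ‖A.eval (x ^ n)‖ ≠ 0 := norm_ne_zero_iff.2 hA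
  have h2 : ‖B.eval (x ^ n)‖ ≠ 0 := norm_ne_zero_iff.2 hB
  have hn0 : (n : ℝ) ≠ 0 := by exact_mod_cast hn.ne'
  unfold num val
  rw [norm_div, norm_mul, norm_mul, norm_mul, norm_mul, norm_one, one_mul, norm_pow, norm_pow,
    norm_pow, Real.log_div (by positivity) (by positivity), Real.log_mul (by positivity) h1,
    Real.log_mul hsn (by positivity), Real.log_mul (by positivity) h2, Real.log_pow, Real.log_pow,
    Real.log_pow]
  field_simp
  ring

/-- the exponents at zero and at infinity -/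
def expo0 (a b : ℕ) : ℝ := (a : ℝ) - b

noncomputable def expo1 (a b n : ℕ) (A B : ℂ[X]) : ℝ :=
  ((a : ℝ) + n * A.natDegree) - (b + n * B.natDegree)

noncomputable def lev0 (A B : ℂ[X]) : ℝ := Real.log ‖A.coeff 0‖ - Real.log ‖B.coeff 0‖

noncomputable def lev1 (A B : ℂ[X]) : ℝ := Real.log ‖A.leadingCoeff‖ - Real.log ‖B.leadingCoeff‖

theorem Dat.step0 {D : ℕ} {M G : ℝ} {n a b : ℕ} {A B : ℂ[X]} {s : ℂ} (h : Dat D M G n a b A B s)
    {f : OnePoint ℂ → OnePoint ℂ} (hf : IsRat f (PP s a n A) (PP 1 b n B)) {η : ℝ} (hη : 0 ≤ η)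
    (hsm : D * M ^ 2 * Real.exp (-(n * η)) ≤ 1 / 2) {z : ℂ} (hz : z ≠ 0)
    (hv : Real.log ‖z‖ ≤ -η) : ∃ w : ℂ, w ≠ 0 ∧ f (z : OnePoint ℂ) = (w : OnePoint ℂ) ∧
      |Real.log ‖w‖ - (expo0 a b * Real.log ‖z‖ + lev0 A B + Real.log ‖s‖)| ≤
        4 * (D * M ^ 2 * Real.exp (-(n * η))) := by
  obtain ⟨h1, h2⟩ := log_num h.M0 h.A0 h.s0 hz a hη hv hsm
  obtain ⟨h3, h4⟩ := log_num h.M0 h.B0 one_ne_zero hz b hη hv hsm
  refine ⟨num s a n A z / num 1 b n B z, div_ne_zero h1 h3, ?_, ?_⟩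
  · have h5 : (PP 1 b n B).eval z ≠ 0 := by rw [PP_eval]; exact h3
    rw [hf.eval z h5, PP_eval, PP_eval]
  · rw [norm_div, Real.log_div (norm_ne_zero_iff.2 h1) (norm_ne_zero_iff.2 h3)]
    rw [norm_one, Real.log_one, add_zero] at h4
    rw [abs_le] at h2 h4 ⊢
    unfold expo0 lev0
    constructor <;> linarith [h2.1, h2.2, h4.1, h4.2]

theorem Dat.step1 {D : ℕ} {M G : ℝ} {n a b : ℕ} {A B : ℂ[X]} {s : ℂ} (h : Dat D M G n a b A B s)
    {f : OnePoint ℂ → OnePoint ℂ} (hf : IsRat f (PP s a n A) (PP 1 b n B)) {η : ℝ} (hη : 0 ≤ η)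
    (hsm : D * M ^ 2 * Real.exp (-(n * η)) ≤ 1 / 2) {z : ℂ} (hz : z ≠ 0)
    (hv : η ≤ Real.log ‖z‖) : ∃ w : ℂ, w ≠ 0 ∧ f (z : OnePoint ℂ) = (w : OnePoint ℂ) ∧
      |Real.log ‖w‖ - (expo1 a b n A B * Real.log ‖z‖ + lev1 A B + Real.log ‖s‖)| ≤
        4 * (D * M ^ 2 * Real.exp (-(n * η))) := by
  obtain ⟨d, hd⟩ : ∃ d, d = max (PP s a n A).natDegree (PP 1 b n B).natDegree := ⟨_, rfl⟩
  have hch := h.chart hf hd true z⁻¹
  have hA := h.A0.ne h.M0
  have hB := h.B0.ne h.M0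
  have hn : 0 < n := h.n1
  have hd' := hd
  rw [PP_natDegree h.s0 a hn hA, PP_natDegree one_ne_zero b hn hB] at hd'
  have hda : a + n * A.natDegree ≤ d := by rw [hd']; exact le_max_left _ _
  have hdb : b + n * B.natDegree ≤ d := by rw [hd']; exact le_max_right _ _
  have e1 : ch true z⁻¹ = (z : OnePoint ℂ) := by
    rw [ch_true]
    simp only
    rw [sinv_coe (inv_ne_zero hz), inv_inv]
  rw [e1, ea_true, ea_true, pa_true, pa_true] at hch
  have hv' : Real.log ‖z⁻¹‖ ≤ -η := by rw [norm_inv, Real.log_inv]; linarith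
  obtain ⟨h1, h2⟩ := log_num h.M0 h.A1 h.s0 (inv_ne_zero hz) (d - (a + n * A.natDegree)) hη hv' hsm
  obtain ⟨h3, h4⟩ := log_num h.M0 h.B1 one_ne_zero (inv_ne_zero hz) (d - (b + n * B.natDegree)) hη
    hv' hsm
  rw [pr_ne h3] at hch
  refine ⟨_, div_ne_zero h1 h3, hch, ?_⟩
  rw [norm_div, Real.log_div (norm_ne_zero_iff.2 h1) (norm_ne_zero_iff.2 h3)]
  rw [norm_one, Real.log_one, add_zero, coeff_zero_reverse, norm_inv, Real.log_inv,
    Nat.cast_sub hdb] at h4
  rw [coeff_zero_reverse, norm_inv, Real.log_inv, Nat.cast_sub hda] at h2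
  push_cast at h2 h4
  rw [abs_le] at h2 h4 ⊢
  unfold expo1 lev1
  constructor <;> linarith [h2.1, h2.2, h4.1, h4.2]

/-- the orbit follows the orbit of the piecewise affine map -/
theorem Dat.follow {D : ℕ} {M G : ℝ} {n a b : ℕ} {A B : ℂ[X]} {s : ℂ} (h : Dat D M G n a b A B s)
    {f : OnePoint ℂ → OnePoint ℂ} (hf : IsRat f (PP s a n A) (PP 1 b n B)) {δ Γ : ℝ} (hδ : 0 < δ)
    (hsm : D * M ^ 2 * Real.exp (-(n * (δ / 2))) ≤ 1 / 2) (hΓ0 : |expo0 a b| ≤ Γ)
    (hΓ1 : |expo1 a b n A B| ≤ Γ) {m : ℕ}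
    (herr : 4 * (D * M ^ 2 * Real.exp (-(n * (δ / 2)))) * (Γ + 1) ^ m ≤ δ / 2) {z : ℂ}
    (hz : z ≠ 0) {j : ℕ} (hjm : j ≤ m)
    (hoff : ∀ l < j, δ ≤ |(T (expo0 a b) (expo1 a b n A B) (lev0 A B) (lev1 A B)
      (Real.log ‖s‖))^[l] (Real.log ‖z‖)|) : ∀ l ≤ j, ∃ w : ℂ, w ≠ 0 ∧
      f^[l] (z : OnePoint ℂ) = (w : OnePoint ℂ) ∧
      |Real.log ‖w‖ - (T (expo0 a b) (expo1 a b n A B) (lev0 A B) (lev1 A B)
        (Real.log ‖s‖))^[l] (Real.log ‖z‖)| ≤
        4 * (D * M ^ 2 * Real.exp (-(n * (δ / 2)))) * (Γ + 1) ^ l := by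
  set e : ℝ := 4 * (D * M ^ 2 * Real.exp (-(n * (δ / 2)))) with he
  have he0 : 0 ≤ e := by positivity
  have hΓ : 0 ≤ Γ := (abs_nonneg _).trans hΓ0
  set F := T (expo0 a b) (expo1 a b n A B) (lev0 A B) (lev1 A B) (Real.log ‖s‖) with hF
  intro l
  induction l with
  | zero =>
    intro _
    refine ⟨z, hz, rfl, ?_⟩
    rw [Function.iterate_zero, id, sub_self, abs_zero]
    positivity
  | succ l ih =>
    intro hl
    obtain ⟨w, hw, hw1, hw2⟩ := ih (by omega)
    have hoffl := hoff l (by omega)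
    rw [Function.iterate_succ_apply', Function.iterate_succ_apply', hw1]
    set x := F^[l] (Real.log ‖z‖) with hx
    have hpow : (Γ + 1) ^ l ≤ (Γ + 1) ^ m := pow_le_pow_right₀ (by linarith) (by omega)
    have hel : e * (Γ + 1) ^ l ≤ δ / 2 := (mul_le_mul_of_nonneg_left hpow he0).trans herr
    have hone : 1 ≤ (Γ + 1) ^ l := one_le_pow₀ (by linarith)
    have hfin : ∀ γ : ℝ, |γ| ≤ Γ → |γ * Real.log ‖w‖ - γ * x| + e ≤ e * (Γ + 1) ^ (l + 1) := by
      intro γ hγ
      rw [← mul_sub, abs_mul]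
      have h1 : |γ| * |Real.log ‖w‖ - x| ≤ Γ * (e * (Γ + 1) ^ l) :=
        mul_le_mul hγ hw2 (abs_nonneg _) hΓ
      have h2 : e * 1 ≤ e * (Γ + 1) ^ l := mul_le_mul_of_nonneg_left hone he0
      calc |γ| * |Real.log ‖w‖ - x| + e ≤ Γ * (e * (Γ + 1) ^ l) + e * (Γ + 1) ^ l := by linarith
        _ = _ := by rw [pow_succ]; ring
    rcases lt_or_ge x 0 with hx0 | hx0
    · rw [abs_of_neg hx0] at hoffl
      have h1 : Real.log ‖w‖ ≤ -(δ / 2) := by
        have := (abs_le.1 hw2).2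
        linarith
      obtain ⟨w', hw', hw1', hw2'⟩ := h.step0 hf (by linarith) hsm hw h1
      refine ⟨w', hw', hw1', ?_⟩
      have e1 : F x = expo0 a b * x + lev0 A B + Real.log ‖s‖ := by
        rw [hF]; unfold T; rw [if_pos hx0]
      rw [e1]
      have h2 := hfin _ hΓ0
      have h3 : Real.log ‖w'‖ - (expo0 a b * x + lev0 A B + Real.log ‖s‖) =
          (Real.log ‖w'‖ - (expo0 a b * Real.log ‖w‖ + lev0 A B + Real.log ‖s‖)) +
          (expo0 a b * Real.log ‖w‖ - expo0 a b * x) := by ring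
      rw [h3]
      refine (abs_add_le _ _).trans ?_
      linarith
    · rw [abs_of_nonneg hx0] at hoffl
      have h1 : δ / 2 ≤ Real.log ‖w‖ := by
        have := (abs_le.1 hw2).1
        linarith
      obtain ⟨w', hw', hw1', hw2'⟩ := h.step1 hf (by linarith) hsm hw h1
      refine ⟨w', hw', hw1', ?_⟩
      have e1 : F x = expo1 a b n A B * x + lev1 A B + Real.log ‖s‖ := by
        rw [hF]; unfold T; rw [if_neg (not_lt.2 hx0)]
      rw [e1]
      have h2 := hfin _ hΓ1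
      have h3 : Real.log ‖w'‖ - (expo1 a b n A B * x + lev1 A B + Real.log ‖s‖) =
          (Real.log ‖w'‖ - (expo1 a b n A B * Real.log ‖w‖ + lev1 A B + Real.log ‖s‖)) +
          (expo1 a b n A B * Real.log ‖w‖ - expo1 a b n A B * x) := by ring
      rw [h3]
      refine (abs_add_le _ _).trans ?_
      linarith

/-- the critical points are attracted if the orbits of their values leave the interval -/
theorem Dat.hyp {D : ℕ} {M G : ℝ} {n a b : ℕ} {A B : ℂ[X]} {s : ℂ} (h : Dat D M G n a b A B s)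
    {ρ : ℝ} (hρ0 : 0 < ρ) (hρ1 : ρ ≤ 1) (hρ2 : D * M ^ 2 * ρ ≤ 1 / 2)
    (hρ3 : 4 * M ^ 2 * G * ρ < 1 / 4) {δ Γ R : ℝ} (hδ : 0 < δ)
    (hsm : D * M ^ 2 * Real.exp (-(n * (δ / 2))) ≤ 1 / 2) (hΓ0 : |expo0 a b| ≤ Γ)
    (hΓ1 : |expo1 a b n A B| ≤ Γ) {m : ℕ}
    (herr : 4 * (D * M ^ 2 * Real.exp (-(n * (δ / 2)))) * (Γ + 1) ^ m ≤ δ / 2)
    (hR : -Real.log (ρ / 2) + δ / 2 ≤ R)
    (hl : ∀ u : ℂ, (NN a b n A B).eval u = 0 →
      Leaves (expo0 a b) (expo1 a b n A B) (lev0 A B) (lev1 A B) δ R m (Real.log ‖s‖)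
        (Real.log ‖s‖ + val a b n A B u)) :
    Hyp (PP s a n A) (PP 1 b n B) := by
  have hn : 0 < n := h.n1
  have hA := h.A0.coeff_ne h.M0
  have hB := h.B0.coeff_ne h.M0
  have hcop := coprime_PP h.cop h.ab hA hB h.s0 one_ne_zero hn
  have hQ0 : PP 1 b n B ≠ 0 := PP_ne one_ne_zero b hn (h.B0.ne h.M0)
  obtain ⟨f, hf, -⟩ := exists_isRat hcop hQ0
  refine ⟨hcop, f, hf.cont, hf.eval, ?_⟩
  have hs := h.sinks hf hρ0 hρ1 hρ2 hρ3
  have hinf : Sinks f ∞ := by
    have e1 : ch true 0 = ∞ := by simp [ch, sinv_zero]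
    rw [← e1]
    exact hs true (by rw [norm_zero]; linarith)
  have hzero : Sinks f ((0 : ℂ) : OnePoint ℂ) := by
    have e1 : ch false 0 = ((0 : ℂ) : OnePoint ℂ) := by simp [ch]
    rw [← e1]
    exact hs false (by rw [norm_zero]; linarith)
  -- points far away
  have hfar : ∀ w : ℂ, w ≠ 0 → -Real.log (ρ / 2) ≤ |Real.log ‖w‖| → Sinks f (w : OnePoint ℂ) := by
    intro w hw hwl
    have hw0 : 0 < ‖w‖ := norm_pos_iff.2 hw
    have hρh : 0 < ρ / 2 := by linarith
    rcases abs_cases (Real.log ‖w‖) with ⟨h1, -⟩ | ⟨h1, -⟩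
    · rw [h1] at hwl
      have e1 : ch true w⁻¹ = (w : OnePoint ℂ) := by
        rw [ch_true]
        simp only
        rw [sinv_coe (inv_ne_zero hw), inv_inv]
      rw [← e1]
      apply hs true
      rw [norm_inv]
      rw [← Real.log_inv, Real.log_le_log_iff (inv_pos.2 hρh) hw0] at hwl
      rwa [inv_le_comm₀ hw0 hρh]
    · rw [h1] at hwl
      have e1 : ch false w = (w : OnePoint ℂ) := by rw [ch_false]
      rw [← e1]
      apply hs false
      rwa [neg_le_neg_iff, Real.log_le_log_iff hw0 hρh] at hwl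
  have hpole : ∀ w : ℂ, (PP 1 b n B).eval w = 0 → Sinks f (w : OnePoint ℂ) := by
    intro w hw
    apply sinks_of_image hf.cont
    obtain ⟨d, hd⟩ : ∃ d, d = max (PP s a n A).natDegree (PP 1 b n B).natDegree := ⟨_, rfl⟩
    have e1 := h.chart hf hd false w
    rw [ea_false, ea_false, pa_false, pa_false, ch_false] at e1
    simp only at e1
    rw [PP_eval] at hw
    rw [e1, hw, pr_zero]
    exact hinf
  intro c hnot
  induction c using OnePoint.rec with
  | infty => exact hinf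
  | coe w =>
    by_cases hw0 : w = 0
    · rw [hw0]; exact hzero
    by_cases hp : (PP 1 b n B).eval w = 0
    · exact hpole w hp
    by_cases hz : (PP s a n A).eval w = 0
    · apply sinks_of_image hf.cont
      rw [hf.eval w hp, hz, zero_div]
      exact hzero
    by_cases hW : (wro (PP s a n A) (PP 1 b n B)).eval w = 0
    · have h1 := wro_eval s a b hn A B w
      rw [hW, mul_zero] at h1
      have h2 : (NN a b n A B).eval (w ^ n) = 0 := by
        rcases mul_eq_zero.1 h1.symm with h3 | h3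
        · exact absurd h3 (mul_ne_zero h.s0 (pow_ne_zero _ hw0))
        · exact h3
      have h3 := hl _ h2
      have hz' := hz
      have hp' := hp
      rw [PP_eval, num] at hz' hp'
      have hA' : A.eval (w ^ n) ≠ 0 := fun h0 => hz' (by rw [h0, mul_zero])
      have hB' : B.eval (w ^ n) ≠ 0 := fun h0 => hp' (by rw [h0, mul_zero])
      have h4 := log_value (a := a) (b := b) h.s0 hn hw0 hA' hB'
      rw [← h4] at h3
      apply sinks_of_image hf.cont
      rw [hf.eval w hp, PP_eval, PP_eval]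
      have hv0 : num s a n A w / num 1 b n B w ≠ 0 := by
        rw [PP_eval] at hz hp
        exact div_ne_zero hz hp
      obtain ⟨j, hj, hj1, hj2⟩ := h3
      obtain ⟨w', hw', hw1, hw2⟩ := h.follow hf hδ hsm hΓ0 hΓ1 herr hv0 hj hj2 j le_rfl
      apply sinks_of_iterate hf.cont j
      rw [hw1]
      apply hfar w' hw'
      have hΓ : 0 ≤ Γ := (abs_nonneg _).trans hΓ0
      have hpow : (Γ + 1) ^ j ≤ (Γ + 1) ^ m := pow_le_pow_right₀ (by linarith) hj
      have hel : 4 * (D * M ^ 2 * Real.exp (-(n * (δ / 2)))) * (Γ + 1) ^ j ≤ δ / 2 :=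
        (mul_le_mul_of_nonneg_left hpow (by positivity)).trans herr
      have h5 := abs_sub_abs_le_abs_sub ((T (expo0 a b) (expo1 a b n A B) (lev0 A B) (lev1 A B)
        (Real.log ‖s‖))^[j] (Real.log ‖num s a n A w / num 1 b n B w‖)) (Real.log ‖w'‖)
      rw [abs_sub_comm] at hw2
      linarith
    exfalso
    apply hnot
    have hder := ((PP s a n A).hasStrictDerivAt w).fun_div ((PP 1 b n B).hasStrictDerivAt w) hp
    have hne : ((PP s a n A).derivative.eval w * (PP 1 b n B).eval w -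
        (PP s a n A).eval w * (PP 1 b n B).derivative.eval w) / ((PP 1 b n B).eval w) ^ 2 ≠ 0 := by
      apply div_ne_zero _ (pow_ne_zero _ hp)
      have e1 : (PP s a n A).derivative.eval w * (PP 1 b n B).eval w -
          (PP s a n A).eval w * (PP 1 b n B).derivative.eval w =
          (wro (PP s a n A) (PP 1 b n B)).eval w := by
        rw [wro]
        simp only [eval_mul, eval_sub]
      rw [e1]
      exact hW
    obtain ⟨U, hU, hinj⟩ := injOn_of_deriv hder hne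
    have hUQ : {x : ℂ | (PP 1 b n B).eval x ≠ 0} ∈ 𝓝 w :=
      (isOpen_ne_fun (PP 1 b n B).continuous continuous_const).mem_nhds hp
    refine ⟨(fun x : ℂ => (x : OnePoint ℂ)) '' (U ∩ {x : ℂ | (PP 1 b n B).eval x ≠ 0}), ?_, ?_⟩
    · exact (OnePoint.isOpenEmbedding_coe (X := ℂ)).isOpenMap.image_mem_nhds
        (inter_mem hU hUQ)
    · rintro _ ⟨x, ⟨hx, hxQ⟩, rfl⟩ _ ⟨y, ⟨hy, hyQ⟩, rfl⟩ hxy
      simp only at hxy
      rw [hf.eval x hxQ, hf.eval y hyQ, OnePoint.coe_eq_coe] at hxy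
      rw [hinj hx hy hxy]

end Pool.Agent.K3h78.RS
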