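import Mathlib
import Pool.Agent.K3h78.RS.A4

/-!
# The scalar multiples of a symmetric rational map
-/

set_option autoImplicit false
set_option maxHeartbeats 400000

open Set Filter Topology Polynomial MeasureTheory
open scoped OnePoint

namespace Pool.Agent.K3h78.RS

open Pool.Agent.H762R2.Rt

/-- the normalised class -/
structure Nrm (D : ℕ) (M : ℝ) (A B : ℂ[X]) : Prop where
  cop : IsCoprime A B
  degA : A.natDegree ≤ D
  degB : B.natDegree ≤ D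
  bdA : ∀ k, ‖A.coeff k‖ ≤ M
  bdB : ∀ k, ‖B.coeff k‖ ≤ M
  A0 : M⁻¹ ≤ ‖A.coeff 0‖
  B0 : M⁻¹ ≤ ‖B.coeff 0‖
  A1 : M⁻¹ ≤ ‖A.leadingCoeff‖
  B1 : M⁻¹ ≤ ‖B.leadingCoeff‖

theorem dat_of {D : ℕ} {M H : ℝ} (hM : 0 < M) {A B : ℂ[X]} (h : Nrm D M A B) {a b n : ℕ}
    (hn : 1 ≤ n) (hab : a = 0 ∨ b = 0) (hadm : Adm (expo0 a b) (expo1 a b n A B)) {t : ℝ}
    (ht : |t| ≤ H) : Dat D M (Real.exp H) n a b A B (Real.exp t : ℂ) := by
  have hH : 0 ≤ H := (abs_nonneg t).trans ht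
  have h2 : 2 ≤ |expo0 a b| ∧ 2 ≤ |expo1 a b n A B| := by
    rcases hadm with ⟨h1, h2⟩ | ⟨h1, h2⟩ | ⟨h1, h2⟩ <;> constructor <;> linarith
  have hns : ‖(Real.exp t : ℂ)‖ = Real.exp t := by
    rw [Complex.norm_real, Real.norm_eq_abs, abs_of_pos (Real.exp_pos t)]
  have key : ∀ x y : ℕ, 2 ≤ |(x : ℝ) - y| → x + 2 ≤ y ∨ y + 2 ≤ x := by
    intro x y hxy
    have h3 : (2 : ℤ) ≤ |(x : ℤ) - y| := by exact_mod_cast hxy
    rcases abs_cases ((x : ℤ) - y) with ⟨h4, -⟩ | ⟨h4, -⟩ <;> omega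
  refine ⟨hM, hn, Real.one_le_exp hH, ?_, ?_, ?_, h.cop, ⟨h.degA, h.bdA, h.A0⟩,
    ⟨h.degB, h.bdB, h.B0⟩, loc_reverse h.degA h.bdA h.A1, loc_reverse h.degB h.bdB h.B1, hab, ?_, ?_⟩
  · rw [hns]; exact Real.exp_le_exp.2 ((le_abs_self t).trans ht)
  · rw [hns, ← Real.exp_add]
    apply Real.one_le_exp
    linarith [neg_abs_le t]
  · exact_mod_cast (Real.exp_pos t).ne'
  · have := key a b h2.1
    omega
  · refine key _ _ ?_
    have h3 := h2.2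
    unfold expo1 at h3
    push_cast
    exact h3

theorem third_le_log : (1 : ℝ) / 3 ≤ Real.log (3 / 2) := by
  have := Real.one_sub_inv_le_log_of_pos (by norm_num : (0 : ℝ) < 3 / 2)
  norm_num at this ⊢
  linarith

theorem pow_le_inv {n m : ℕ} (hn : 1 ≤ n) (hm : 3 * Real.log n ≤ m) :
    ((2 : ℝ) / 3) ^ m ≤ 1 / n := by
  have hn0 : (0 : ℝ) < n := by exact_mod_cast hn
  have h1 : ((2 : ℝ) / 3) ^ m = Real.exp (-(m * Real.log (3 / 2))) := by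
    rw [Real.exp_neg, Real.exp_nat_mul, Real.exp_log (by norm_num), ← inv_pow]
    norm_num
  rw [h1]
  have h2 : (1 : ℝ) / n = Real.exp (-Real.log n) := by
    rw [Real.exp_neg, Real.exp_log hn0, one_div]
  rw [h2]
  apply Real.exp_le_exp.2
  have h3 := third_le_log
  have h4 : (0 : ℝ) ≤ m := Nat.cast_nonneg m
  nlinarith

theorem arith_fin {N D R x p δ : ℝ} (hN : N ≤ 2 * D + 1) (hN0 : 0 ≤ N) (hR : 0 ≤ R)
    (hδ : δ = 20 * x) (hp0 : 0 ≤ p) (hp : p ≤ x) :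
    N * (36 * δ + 12 * R * p) ≤ (2 * D + 1) * (720 + 12 * R) * x := by
  have h1 : 36 * δ + 12 * R * p ≤ (720 + 12 * R) * x := by
    have := mul_le_mul_of_nonneg_left hp (by positivity : 0 ≤ 12 * R)
    rw [hδ]
    linarith
  have h2 : 0 ≤ 36 * δ + 12 * R * p := by
    have : 0 ≤ x := hp0.trans hp
    rw [hδ]
    positivity
  calc N * (36 * δ + 12 * R * p) ≤ (2 * D + 1) * ((720 + 12 * R) * x) :=
        mul_le_mul hN h1 h2 (hN0.trans hN)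
    _ = _ := by ring

theorem measure_core {D : ℕ} {M H : ℝ} (hM : 0 < M) {a b n : ℕ} {A B : ℂ[X]} (hN : Nrm D M A B)
    (hn : 1 ≤ n) (hab : a = 0 ∨ b = 0) (hadm : Adm (expo0 a b) (expo1 a b n A B))
    {ρ : ℝ} (hρ0 : 0 < ρ) (hρ1 : ρ ≤ 1) (hρ2 : D * M ^ 2 * ρ ≤ 1 / 2)
    (hρ3 : 4 * M ^ 2 * Real.exp H * ρ < 1 / 4) {δ Γ R : ℝ} (hδ : 0 < δ)
    (hsm : D * M ^ 2 * Real.exp (-(n * (δ / 2))) ≤ 1 / 2) (hΓ0 : |expo0 a b| ≤ Γ)
    (hΓ1 : |expo1 a b n A B| ≤ Γ) {m : ℕ}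
    (herr : 4 * (D * M ^ 2 * Real.exp (-(n * (δ / 2)))) * (Γ + 1) ^ m ≤ δ / 2) (hR0 : 0 ≤ R)
    (hR : -Real.log (ρ / 2) + δ / 2 ≤ R) : ∃ N : ℕ, N ≤ 2 * D + 1 ∧
    volume {t : ℝ | |t| ≤ H ∧ ¬ Hyp (PP (Real.exp t : ℂ) a n A) (PP 1 b n B)} ≤
      ENNReal.ofReal (N * (36 * δ + 12 * R * (2 / 3) ^ m)) := by
  set α := expo0 a b with hα
  set β := expo1 a b n A B with hβ
  set V : Finset ℝ := (NN a b n A B).roots.toFinset.image (val a b n A B) with hV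
  have hVc : V.card ≤ 2 * D + 1 :=
    Finset.card_image_le.trans ((Multiset.toFinset_card_le _).trans
      ((card_roots' _).trans (NN_natDegree hN.degA hN.degB)))
  have hne : a ≠ b := by
    intro hab'
    have h0 : α = 0 := by rw [hα, hab']; unfold expo0; ring
    rcases hadm with ⟨h1, -⟩ | ⟨h1, -⟩ | ⟨h1, -⟩ <;>
      (rw [h0, abs_zero] at h1; norm_num at h1)
  have hNN : NN a b n A B ≠ 0 := NN_ne (by
    have := lt_of_lt_of_le (inv_pos.2 hM) hN.A0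
    exact norm_pos_iff.1 this) (by
    have := lt_of_lt_of_le (inv_pos.2 hM) hN.B0
    exact norm_pos_iff.1 this) hne
  have hsub : {t : ℝ | |t| ≤ H ∧ ¬ Hyp (PP (Real.exp t : ℂ) a n A) (PP 1 b n B)} ⊆
      ⋃ v ∈ V, Bad α β (lev0 A B) (lev1 A B) δ R m 1 v := by
    rintro t ⟨ht, hnot⟩
    by_contra hcon
    apply hnot
    simp only [mem_iUnion, not_exists] at hcon
    have hd := dat_of hM hN hn hab hadm ht
    have hlog : Real.log ‖(Real.exp t : ℂ)‖ = t := by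
      rw [Complex.norm_real, Real.norm_eq_abs, abs_of_pos (Real.exp_pos t), Real.log_exp]
    refine hd.hyp hρ0 hρ1 hρ2 hρ3 hδ hsm hΓ0 hΓ1 herr hR ?_
    intro u hu
    rw [hlog]
    have h1 : val a b n A B u ∈ V := by
      rw [hV]
      refine Finset.mem_image.2 ⟨u, ?_, rfl⟩
      rw [Multiset.mem_toFinset, mem_roots hNN]
      exact hu
    have h2 := leaves_of_not_bad m 1 (val a b n A B u) t (hcon _ h1)
    rwa [one_mul] at h2
  refine ⟨V.card, hVc, (measure_mono hsub).trans ((measure_biUnion_finset_le V _).trans ?_)⟩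
  have h1 : ∀ v ∈ V, volume (Bad α β (lev0 A B) (lev1 A B) δ R m 1 v) ≤
      ENNReal.ofReal (36 * δ + 12 * R * (2 / 3) ^ m) := fun v _ =>
    volume_bad_adm hδ.le hR0 hadm m v
  refine (Finset.sum_le_sum h1).trans ?_
  rw [Finset.sum_const, nsmul_eq_mul, ← ENNReal.ofReal_natCast,
    ← ENNReal.ofReal_mul (Nat.cast_nonneg _)]

theorem choose_rho {c e : ℝ} (hc : 0 ≤ c) (he : 0 < e) :
    ∃ ρ : ℝ, 0 < ρ ∧ ρ ≤ 1 ∧ c * ρ ≤ 1 / 2 ∧ 4 * e * ρ < 1 / 4 := by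
  have hden : 0 < 2 * (c + 1) + 32 * e := by positivity
  have hinv : (2 * (c + 1) + 32 * e)⁻¹ * (2 * (c + 1) + 32 * e) = 1 := inv_mul_cancel₀ hden.ne'
  have h0 : 0 < (2 * (c + 1) + 32 * e)⁻¹ := inv_pos.2 hden
  set ρ := (2 * (c + 1) + 32 * e)⁻¹
  have h1 : 0 ≤ ρ * c := by positivity
  have h2 : 0 < ρ * e := by positivity
  refine ⟨ρ, h0, by linarith, by linarith, by linarith⟩

theorem choose_const {c κ : ℝ} (hc : 0 ≤ c) (hκ : 0 ≤ κ) {n : ℕ} (hn3 : 3 ≤ n)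
    (hn1 : κ + 1 ≤ n) (hn2 : 2 * c + 1 ≤ n) {δ : ℝ} (hδ : δ = 20 * (Real.log n ^ 2 / n)) {m : ℕ}
    (hm : m = ⌈3 * Real.log n⌉₊) :
    0 < δ ∧ c * Real.exp (-(n * (δ / 2))) ≤ 1 / 2 ∧
      4 * (c * Real.exp (-(n * (δ / 2)))) * (κ * n + 1) ^ m ≤ δ / 2 ∧
      ((2 : ℝ) / 3) ^ m ≤ Real.log n ^ 2 / n := by
  have hnr : (3 : ℝ) ≤ n := by exact_mod_cast hn3
  have hn0 : (0 : ℝ) < n := by linarith
  set L := Real.log n with hL
  have hL1 : 1 ≤ L := by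
    rw [hL, Real.le_log_iff_exp_le hn0]
    have := Real.exp_one_lt_d9
    linarith
  have hLL : L ≤ L ^ 2 := by nlinarith
  have hδ0 : 0 < δ := by rw [hδ]; positivity
  have hm1 : 3 * L ≤ m := by rw [hm]; exact Nat.le_ceil _
  have hm2 : (m : ℝ) ≤ 4 * L := by
    have := (Nat.ceil_lt_add_one (by positivity : 0 ≤ 3 * L)).le
    rw [hm]
    linarith
  have hnδ : n * (δ / 2) = 10 * L ^ 2 := by
    rw [hδ]; field_simp; ring
  have hexpn : Real.exp (-L) = 1 / n := by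
    rw [Real.exp_neg, hL, Real.exp_log hn0, one_div]
  rw [hnδ]
  have h1 : Real.exp (-(10 * L ^ 2)) ≤ 1 / n := by
    rw [← hexpn]
    apply Real.exp_le_exp.2
    linarith
  have h2 : (κ * n + 1) ^ m ≤ Real.exp (8 * L ^ 2) := by
    have h3 : κ * n + 1 ≤ Real.exp (2 * L) := by
      have h4 : Real.exp (2 * L) = n * n := by
        rw [two_mul, Real.exp_add, hL, Real.exp_log hn0]
      rw [h4]
      have h5 : (κ + 1) * n ≤ n * n := mul_le_mul_of_nonneg_right hn1 hn0.le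
      linarith
    calc (κ * n + 1) ^ m ≤ (Real.exp (2 * L)) ^ m :=
          pow_le_pow_left₀ (by positivity) h3 m
      _ = Real.exp (m * (2 * L)) := by rw [Real.exp_nat_mul]
      _ ≤ Real.exp (8 * L ^ 2) := by
          apply Real.exp_le_exp.2
          have : (m : ℝ) * (2 * L) ≤ 4 * L * (2 * L) :=
            mul_le_mul_of_nonneg_right hm2 (by linarith)
          linarith
  have h3 : Real.exp (-(10 * L ^ 2)) * (κ * n + 1) ^ m ≤ (1 / n) * (1 / n) := by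
    calc Real.exp (-(10 * L ^ 2)) * (κ * n + 1) ^ m ≤
          Real.exp (-(10 * L ^ 2)) * Real.exp (8 * L ^ 2) :=
          mul_le_mul_of_nonneg_left h2 (Real.exp_pos _).le
      _ = Real.exp (-(2 * L ^ 2)) := by rw [← Real.exp_add]; congr 1; ring
      _ ≤ Real.exp (-L + -L) := by
          apply Real.exp_le_exp.2
          linarith
      _ = _ := by rw [Real.exp_add, hexpn]
  refine ⟨hδ0, ?_, ?_, ?_⟩
  · refine (mul_le_mul_of_nonneg_left h1 hc).trans ?_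
    rw [mul_one_div, div_le_iff₀ hn0]
    linarith
  · have h4 : 4 * (c * Real.exp (-(10 * L ^ 2))) * (κ * n + 1) ^ m =
        4 * c * (Real.exp (-(10 * L ^ 2)) * (κ * n + 1) ^ m) := by ring
    rw [h4]
    refine (mul_le_mul_of_nonneg_left h3 (by positivity)).trans ?_
    have h5 : δ / 2 = 10 * L ^ 2 * (1 / n) := by rw [hδ]; ring
    rw [h5, ← mul_assoc]
    apply mul_le_mul_of_nonneg_right _ (by positivity)
    rw [mul_one_div, div_le_iff₀ hn0]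
    have h6 : 1 ≤ L ^ 2 := by linarith
    have h7 : 10 * n * 1 ≤ 10 * n * L ^ 2 := mul_le_mul_of_nonneg_left h6 (by positivity)
    linarith
  · refine (pow_le_inv (by omega) hm1).trans ?_
    apply div_le_div_of_nonneg_right _ hn0.le
    linarith

theorem tendsto_rate (c : ℝ) : Tendsto (fun n : ℕ => c * (Real.log n ^ 2 / n)) atTop (𝓝 0) := by
  have h1 : Tendsto (fun x : ℝ => Real.log x ^ 2 / x) atTop (𝓝 0) := by
    have := Real.isLittleO_pow_log_id_atTop (n := 2)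
    simpa using this.tendsto_div_nhds_zero
  have h2 := (h1.comp tendsto_natCast_atTop_atTop).const_mul c
  rw [mul_zero] at h2
  exact h2

/-- **Measure of the exceptional multiples.** -/
theorem measure_bound (D : ℕ) {M κ H : ℝ} (hM : 0 < M) (hκ : 0 ≤ κ) :
    ∃ C : ℝ, 0 < C ∧ ∃ n₀ : ℕ, ∀ n : ℕ, n₀ ≤ n → ∀ (a b : ℕ) (A B : ℂ[X]), Nrm D M A B →
      (a = 0 ∨ b = 0) → Adm (expo0 a b) (expo1 a b n A B) → |expo0 a b| ≤ κ * n →
      |expo1 a b n A B| ≤ κ * n →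
      volume {t : ℝ | |t| ≤ H ∧ ¬ Hyp (PP (Real.exp t : ℂ) a n A) (PP 1 b n B)} ≤
        ENNReal.ofReal (C * (Real.log n ^ 2 / n)) := by
  have hDM : 0 ≤ D * M ^ 2 := by positivity
  have hMG : 0 < M ^ 2 * Real.exp H := mul_pos (by positivity) (Real.exp_pos H)
  obtain ⟨ρ, hρ0, hρ1, hρ2, hρ3⟩ := choose_rho hDM hMG
  rw [← mul_assoc] at hρ3
  obtain ⟨R, hR⟩ : ∃ R : ℝ, R = -Real.log (ρ / 2) + 1 := ⟨_, rfl⟩
  have hR0 : 0 ≤ R := by
    have : Real.log (ρ / 2) ≤ 0 := Real.log_nonpos (by linarith) (by linarith)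
    rw [hR]; linarith
  obtain ⟨n₁, hn₁⟩ := eventually_atTop.1
    ((tendsto_rate 20).eventually (ge_mem_nhds (by norm_num : (0 : ℝ) < 2)))
  obtain ⟨n₂, hn₂⟩ := exists_nat_ge (κ + 1)
  obtain ⟨n₃, hn₃⟩ := exists_nat_ge (2 * (D * M ^ 2) + 1)
  refine ⟨(2 * D + 1) * (720 + 12 * R), by positivity, max (max n₁ n₂) (max n₃ 3), ?_⟩
  intro n hn a b A B hN hab hadm hκ0 hκ1
  have hn1 := hn₁ n (by omega)
  have hn2 : κ + 1 ≤ n := hn₂.trans (by exact_mod_cast (by omega : n₂ ≤ n))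
  have hn3 : 2 * (D * M ^ 2) + 1 ≤ n := hn₃.trans (by exact_mod_cast (by omega : n₃ ≤ n))
  have hn4 : 3 ≤ n := by omega
  obtain ⟨δ, hδ⟩ : ∃ δ : ℝ, δ = 20 * (Real.log n ^ 2 / n) := ⟨_, rfl⟩
  obtain ⟨m, hm⟩ : ∃ m : ℕ, m = ⌈3 * Real.log n⌉₊ := ⟨_, rfl⟩
  obtain ⟨hδ0, hsm, herr, h2⟩ := choose_const hDM hκ hn4 hn2 hn3 hδ hm
  have hR' : -Real.log (ρ / 2) + δ / 2 ≤ R := by
    rw [← hδ] at hn1
    linarith
  obtain ⟨N, hN1, hN2⟩ := measure_core hM hN (by omega) hab hadm hρ0 hρ1 hρ2 hρ3 hδ0 hsm hκ0 hκ1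
    herr hR0 hR'
  refine hN2.trans (ENNReal.ofReal_le_ofReal ?_)
  have h3 : (N : ℝ) ≤ 2 * D + 1 := by exact_mod_cast hN1
  exact arith_fin h3 (Nat.cast_nonneg _) hR0 hδ (pow_nonneg (by norm_num) m) h2

/-- **Coarse density.** -/
theorem coarse_mult (D : ℕ) {M κ : ℝ} (hM : 0 < M) (hκ : 0 ≤ κ) :
    ∃ C : ℝ, 0 < C ∧ ∃ n₀ : ℕ, ∀ n : ℕ, n₀ ≤ n → ∀ (a b : ℕ) (A B : ℂ[X]), Nrm D M A B →
      (a = 0 ∨ b = 0) → Adm (expo0 a b) (expo1 a b n A B) → |expo0 a b| ≤ κ * n →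
      |expo1 a b n A B| ≤ κ * n → ∃ t : ℝ, 0 ≤ t ∧ t ≤ C * (Real.log n ^ 2 / n) ∧
        Hyp (PP (Real.exp t : ℂ) a n A) (PP 1 b n B) := by
  obtain ⟨C, hC, n₀, h⟩ := measure_bound D (H := 1) hM hκ
  obtain ⟨n₁, hn₁⟩ := eventually_atTop.1
    ((tendsto_rate (C + 1)).eventually (ge_mem_nhds (by norm_num : (0 : ℝ) < 1)))
  refine ⟨C + 1, by linarith, max (max n₀ n₁) 3, ?_⟩
  intro n hn a b A B hN hab hadm hκ0 hκ1
  have h1 := h n (by omega) a b A B hN hab hadm hκ0 hκ1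
  have h2 := hn₁ n (by omega)
  have hnr : (3 : ℝ) ≤ n := by exact_mod_cast (by omega : 3 ≤ n)
  have hn0 : (0 : ℝ) < n := by linarith
  have hL1 : 0 < Real.log n := Real.log_pos (by linarith)
  set x := Real.log n ^ 2 / n with hx
  have hx0 : 0 < x := by positivity
  by_contra hcon
  push Not at hcon
  have h3 : Icc 0 ((C + 1) * x) ⊆
      {t : ℝ | |t| ≤ 1 ∧ ¬ Hyp (PP (Real.exp t : ℂ) a n A) (PP 1 b n B)} := by
    rintro t ⟨ht0, ht1⟩
    refine ⟨?_, hcon t ht0 ht1⟩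
    rw [abs_of_nonneg ht0]
    exact ht1.trans h2
  have h4 := (measure_mono h3).trans h1
  rw [Real.volume_Icc, sub_zero, ENNReal.ofReal_le_ofReal_iff (by positivity)] at h4
  nlinarith

end Pool.Agent.K3h78.RS
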