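import Mathlib
import Pool.Agent.K3h78.RS.A1

/-!
# Piecewise affine maps of the line with slopes two or minus two
-/

set_option autoImplicit false
set_option maxHeartbeats 400000

open Set Filter Topology MeasureTheory

namespace Pool.Agent.K3h78.RS

theorem bad_lt {α β L0 L1 δ R : ℝ} (m : ℕ) {D c t : ℝ} (h : t ∈ Bad α β L0 L1 δ R m D c) :
    |D * t + c| < R := by
  cases m with
  | zero => exact h
  | succ m => exact h.1

theorem two_le {a b w : ℝ} (hw : 0 < w) {s : ℝ} {x y z : ENNReal}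
    (hx : x ≤ ENNReal.ofReal (s / w)) (hy : y ≤ ENNReal.ofReal (a / (2 * w)))
    (hz : z ≤ ENNReal.ofReal (b / (2 * w))) (hs : 0 ≤ s) (ha : 0 ≤ a) (hb : 0 ≤ b) :
    x + y + z ≤ ENNReal.ofReal ((s + (a + b) / 2) / w) := by
  refine (add_le_add (add_le_add hx hy) hz).trans ?_
  rw [← ENNReal.ofReal_add (by positivity) (by positivity),
    ← ENNReal.ofReal_add (by positivity) (by positivity)]
  apply ENNReal.ofReal_le_ofReal
  apply le_of_eq
  field_simp
  ring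

section auto

variable {γ L0 L1 δ R w0 : ℝ} {W : ℝ → ℝ} {I : Set ℝ} {Con : ℕ → ℝ → ℝ → Prop} {br : ℕ → Bool}
  {b0 : Bool} {J : ℕ}

theorem auto_near (hδ : 0 ≤ δ) (hW0 : 0 < w0) (hW : ∀ D, w0 ≤ W D → W D ≤ 2 * |D|) {D c : ℝ}
    (hD : w0 ≤ W D) : volume {t : ℝ | |D * t + c| < δ} ≤ ENNReal.ofReal (4 * δ / W D) := by
  have hWD : 0 < W D := lt_of_lt_of_le hW0 hD
  refine (volume_affine' (w := W D / 2) (by positivity) (by linarith [hW D hD]) hδ).trans ?_
  apply ENNReal.ofReal_le_ofReal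
  apply le_of_eq
  field_simp
  ring

theorem auto_free (hδ : 0 ≤ δ) (hW0 : 0 < w0) (hW : ∀ D, w0 ≤ W D → W D ≤ 2 * |D|)
    (hW2 : ∀ D, W (γ * D + 1) = 2 * W D) {m : ℕ} {F : ℝ} (hF : 0 ≤ F)
    (h : ∀ D c, w0 ≤ W D → volume (I ∩ Bad γ γ L0 L1 δ R m D c) ≤ ENNReal.ofReal (F / W D)) :
    ∀ D c, w0 ≤ W D → volume (I ∩ Bad γ γ L0 L1 δ R (m + 1) D c) ≤
      ENNReal.ofReal ((4 * δ + F) / W D) := by
  intro D c hD
  have hWD : 0 < W D := lt_of_lt_of_le hW0 hD
  have hD' : w0 ≤ W (γ * D + 1) := by rw [hW2]; linarith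
  have h1 := h (γ * D + 1) (γ * c + L0) hD'
  have h2 := h (γ * D + 1) (γ * c + L1) hD'
  rw [hW2] at h1 h2
  have h3 := auto_near hδ hW0 hW (c := c) hD
  have hsub : I ∩ Bad γ γ L0 L1 δ R (m + 1) D c ⊆ ({t | |D * t + c| < δ} ∪
      (I ∩ Bad γ γ L0 L1 δ R m (γ * D + 1) (γ * c + L0))) ∪
      (I ∩ Bad γ γ L0 L1 δ R m (γ * D + 1) (γ * c + L1)) := by
    rintro t ⟨hI, hb⟩
    rcases hb.2 with (h4 | h4) | h4
    · exact Or.inl (Or.inl h4)
    · exact Or.inl (Or.inr ⟨hI, h4.2⟩)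
    · exact Or.inr ⟨hI, h4.2⟩
  refine (measure_mono hsub).trans ((measure_union_le _ _).trans
    ((add_le_add (measure_union_le _ _) le_rfl).trans ?_))
  refine (two_le hWD h3 h1 h2 (by positivity) hF hF).trans ?_
  apply ENNReal.ofReal_le_ofReal
  apply le_of_eq
  ring

theorem auto_free' (hδ : 0 ≤ δ) (hW0 : 0 < w0) (hW : ∀ D, w0 ≤ W D → W D ≤ 2 * |D|)
    (hW2 : ∀ D, W (γ * D + 1) = 2 * W D) {m : ℕ} {F : ℝ} (hF : 0 ≤ F)
    (h : ∀ D c, w0 ≤ W D → volume (I ∩ Bad γ γ L0 L1 δ R m D c) ≤ ENNReal.ofReal (F / W D))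
    (i : ℕ) :
    ∀ D c, w0 ≤ W D → volume (I ∩ Bad γ γ L0 L1 δ R (m + i) D c) ≤
      ENNReal.ofReal ((F + 4 * i * δ) / W D) := by
  induction i with
  | zero => simpa using h
  | succ i ih =>
    intro D c hD
    have h1 := auto_free hδ hW0 hW hW2 (by positivity) ih D c hD
    have e : 4 * δ + (F + 4 * (i : ℝ) * δ) = F + 4 * ((i + 1 : ℕ) : ℝ) * δ := by
      push_cast; ring
    rw [e] at h1
    exact h1

/-- one round of the automaton -/
theorem auto_round (hδ : 0 ≤ δ) (hW0 : 0 < w0) (hW : ∀ D, w0 ≤ W D → W D ≤ 2 * |D|)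
    (hW2 : ∀ D, W (γ * D + 1) = 2 * W D)
    (hkill : ∀ t ∈ I, ∀ (x : ℝ) (j : ℕ), |x| < R → Con j t x → j < J)
    (hnext : ∀ t ∈ I, ∀ (x : ℝ) (j : ℕ), Con j t x →
      (br j = false → x < 0 → Con (j + 1) t (γ * x + L0 + t)) ∧
      (br j = true → 0 ≤ x → Con (j + 1) t (γ * x + L1 + t)))
    (hb0 : ∀ t ∈ I, ∀ x : ℝ, (b0 = false → x < 0 → Con 0 t (γ * x + L0 + t)) ∧
      (b0 = true → 0 ≤ x → Con 0 t (γ * x + L1 + t))) {m : ℕ} {F : ℝ} (hF : 0 ≤ F)
    (h : ∀ D c, w0 ≤ W D → volume (I ∩ Bad γ γ L0 L1 δ R m D c) ≤ ENNReal.ofReal (F / W D)) :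
    ∀ D c, w0 ≤ W D → volume (I ∩ Bad γ γ L0 L1 δ R (m + (J + 1)) D c) ≤
      ENNReal.ofReal ((1 - (1 / 2) ^ (J + 1)) * (F + (4 * J + 8) * δ) / W D) := by
  obtain ⟨F', hF'⟩ : ∃ F', F' = F + 4 * J * δ := ⟨_, rfl⟩
  have hF0 : 0 ≤ F' := by rw [hF']; positivity
  have hfree : ∀ i ≤ J, ∀ D c, w0 ≤ W D → volume (I ∩ Bad γ γ L0 L1 δ R (m + i) D c) ≤
      ENNReal.ofReal (F' / W D) := by
    intro i hi D c hD
    have hWD : 0 < W D := lt_of_lt_of_le hW0 hD
    refine (auto_free' hδ hW0 hW hW2 hF h i D c hD).trans ?_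
    apply ENNReal.ofReal_le_ofReal
    apply div_le_div_of_nonneg_right _ hWD.le
    have h1 : (i : ℝ) ≤ J := by exact_mod_cast hi
    rw [hF']
    have h2 : (i : ℝ) * δ ≤ J * δ := mul_le_mul_of_nonneg_right h1 hδ
    linarith
  have hpow : ∀ i : ℕ, 0 ≤ (1 - (1 / 2 : ℝ) ^ i) := by
    intro i
    have := pow_le_one₀ (n := i) (by norm_num : (0 : ℝ) ≤ 1 / 2) (by norm_num)
    linarith
  have hcon : ∀ i ≤ J, ∀ D c, w0 ≤ W D →
      volume (I ∩ {t | Con (J - i) t (D * t + c)} ∩ Bad γ γ L0 L1 δ R (m + i) D c) ≤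
      ENNReal.ofReal ((1 - (1 / 2) ^ i) * (F' + 8 * δ) / W D) := by
    intro i
    induction i with
    | zero =>
      intro _ D c hD
      have h1 : I ∩ {t | Con (J - 0) t (D * t + c)} ∩ Bad γ γ L0 L1 δ R (m + 0) D c = ∅ := by
        rw [eq_empty_iff_forall_notMem]
        rintro t ⟨⟨hI, hc⟩, hb⟩
        exact lt_irrefl _ (hkill t hI _ _ (bad_lt _ hb) hc)
      rw [h1, measure_empty]
      exact bot_le
    | succ i ih =>
      intro hi D c hD
      have ih' := ih (by omega)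
      have hfr := hfree i (by omega)
      have hWD : 0 < W D := lt_of_lt_of_le hW0 hD
      have hD' : w0 ≤ W (γ * D + 1) := by rw [hW2]; linarith
      have h3 := auto_near hδ hW0 hW (c := c) hD
      have hu : 0 ≤ (1 - (1 / 2) ^ i) * (F' + 8 * δ) := mul_nonneg (hpow i) (by positivity)
      have hj : J - (i + 1) + 1 = J - i := by omega
      have efin : (4 * δ + ((1 - (1 / 2) ^ i) * (F' + 8 * δ) + F') / 2) / W D =
          (1 - (1 / 2) ^ (i + 1)) * (F' + 8 * δ) / W D := by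
        rw [pow_succ]; ring
      rcases hbr : br (J - (i + 1)) with _ | _
      · have h1 := ih' (γ * D + 1) (γ * c + L0) hD'
        have h2 := hfr (γ * D + 1) (γ * c + L1) hD'
        rw [hW2] at h1 h2
        have hsub : I ∩ {t | Con (J - (i + 1)) t (D * t + c)} ∩
            Bad γ γ L0 L1 δ R (m + (i + 1)) D c ⊆ ({t | |D * t + c| < δ} ∪
            (I ∩ {t | Con (J - i) t ((γ * D + 1) * t + (γ * c + L0))} ∩
              Bad γ γ L0 L1 δ R (m + i) (γ * D + 1) (γ * c + L0))) ∪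
            (I ∩ Bad γ γ L0 L1 δ R (m + i) (γ * D + 1) (γ * c + L1)) := by
          rintro t ⟨⟨hI, hc⟩, hb⟩
          rcases hb.2 with (h4 | h4) | h4
          · exact Or.inl (Or.inl h4)
          · refine Or.inl (Or.inr ⟨⟨hI, ?_⟩, h4.2⟩)
            have h5 := (hnext t hI _ _ hc).1 hbr h4.1
            rw [hj] at h5
            show Con (J - i) t ((γ * D + 1) * t + (γ * c + L0))
            have e : (γ * D + 1) * t + (γ * c + L0) = γ * (D * t + c) + L0 + t := by ring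
            rw [e]; exact h5
          · exact Or.inr ⟨hI, h4.2⟩
        refine (measure_mono hsub).trans ((measure_union_le _ _).trans
          ((add_le_add (measure_union_le _ _) le_rfl).trans ?_))
        refine (two_le hWD h3 h1 h2 (by positivity) hu hF0).trans (le_of_eq ?_)
        rw [efin]
      · have h1 := ih' (γ * D + 1) (γ * c + L1) hD'
        have h2 := hfr (γ * D + 1) (γ * c + L0) hD'
        rw [hW2] at h1 h2
        have hsub : I ∩ {t | Con (J - (i + 1)) t (D * t + c)} ∩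
            Bad γ γ L0 L1 δ R (m + (i + 1)) D c ⊆ ({t | |D * t + c| < δ} ∪
            (I ∩ {t | Con (J - i) t ((γ * D + 1) * t + (γ * c + L1))} ∩
              Bad γ γ L0 L1 δ R (m + i) (γ * D + 1) (γ * c + L1))) ∪
            (I ∩ Bad γ γ L0 L1 δ R (m + i) (γ * D + 1) (γ * c + L0)) := by
          rintro t ⟨⟨hI, hc⟩, hb⟩
          rcases hb.2 with (h4 | h4) | h4
          · exact Or.inl (Or.inl h4)
          · exact Or.inr ⟨hI, h4.2⟩
          · refine Or.inl (Or.inr ⟨⟨hI, ?_⟩, h4.2⟩)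
            have h5 := (hnext t hI _ _ hc).2 hbr h4.1
            rw [hj] at h5
            show Con (J - i) t ((γ * D + 1) * t + (γ * c + L1))
            have e : (γ * D + 1) * t + (γ * c + L1) = γ * (D * t + c) + L1 + t := by ring
            rw [e]; exact h5
        refine (measure_mono hsub).trans ((measure_union_le _ _).trans
          ((add_le_add (measure_union_le _ _) le_rfl).trans ?_))
        refine (two_le hWD h3 h1 h2 (by positivity) hu hF0).trans (le_of_eq ?_)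
        rw [efin]
  -- the last step
  intro D c hD
  have hWD : 0 < W D := lt_of_lt_of_le hW0 hD
  have hD' : w0 ≤ W (γ * D + 1) := by rw [hW2]; linarith
  have h3 := auto_near hδ hW0 hW (c := c) hD
  have hcJ := hcon J le_rfl
  have hfJ := hfree J le_rfl
  rw [Nat.sub_self] at hcJ
  have hu : 0 ≤ (1 - (1 / 2) ^ J) * (F' + 8 * δ) := mul_nonneg (hpow J) (by positivity)
  have efin : (4 * δ + ((1 - (1 / 2) ^ J) * (F' + 8 * δ) + F') / 2) / W D =
      (1 - (1 / 2) ^ (J + 1)) * (F + (4 * J + 8) * δ) / W D := by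
    rw [hF', pow_succ]; ring
  rcases hbr : b0 with _ | _
  · have h1 := hcJ (γ * D + 1) (γ * c + L0) hD'
    have h2 := hfJ (γ * D + 1) (γ * c + L1) hD'
    rw [hW2] at h1 h2
    have hsub : I ∩ Bad γ γ L0 L1 δ R (m + (J + 1)) D c ⊆ ({t | |D * t + c| < δ} ∪
        (I ∩ {t | Con 0 t ((γ * D + 1) * t + (γ * c + L0))} ∩
          Bad γ γ L0 L1 δ R (m + J) (γ * D + 1) (γ * c + L0))) ∪
        (I ∩ Bad γ γ L0 L1 δ R (m + J) (γ * D + 1) (γ * c + L1)) := by
      rintro t ⟨hI, hb⟩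
      rcases hb.2 with (h4 | h4) | h4
      · exact Or.inl (Or.inl h4)
      · refine Or.inl (Or.inr ⟨⟨hI, ?_⟩, h4.2⟩)
        have h5 := (hb0 t hI _).1 hbr h4.1
        show Con 0 t ((γ * D + 1) * t + (γ * c + L0))
        have e : (γ * D + 1) * t + (γ * c + L0) = γ * (D * t + c) + L0 + t := by ring
        rw [e]; exact h5
      · exact Or.inr ⟨hI, h4.2⟩
    refine (measure_mono hsub).trans ((measure_union_le _ _).trans
      ((add_le_add (measure_union_le _ _) le_rfl).trans ?_))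
    refine (two_le hWD h3 h1 h2 (by positivity) hu hF0).trans (le_of_eq ?_)
    rw [efin]
  · have h1 := hcJ (γ * D + 1) (γ * c + L1) hD'
    have h2 := hfJ (γ * D + 1) (γ * c + L0) hD'
    rw [hW2] at h1 h2
    have hsub : I ∩ Bad γ γ L0 L1 δ R (m + (J + 1)) D c ⊆ ({t | |D * t + c| < δ} ∪
        (I ∩ {t | Con 0 t ((γ * D + 1) * t + (γ * c + L1))} ∩
          Bad γ γ L0 L1 δ R (m + J) (γ * D + 1) (γ * c + L1))) ∪
        (I ∩ Bad γ γ L0 L1 δ R (m + J) (γ * D + 1) (γ * c + L0)) := by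
      rintro t ⟨hI, hb⟩
      rcases hb.2 with (h4 | h4) | h4
      · exact Or.inl (Or.inl h4)
      · exact Or.inr ⟨hI, h4.2⟩
      · refine Or.inl (Or.inr ⟨⟨hI, ?_⟩, h4.2⟩)
        have h5 := (hb0 t hI _).2 hbr h4.1
        show Con 0 t ((γ * D + 1) * t + (γ * c + L1))
        have e : (γ * D + 1) * t + (γ * c + L1) = γ * (D * t + c) + L1 + t := by ring
        rw [e]; exact h5
    refine (measure_mono hsub).trans ((measure_union_le _ _).trans
      ((add_le_add (measure_union_le _ _) le_rfl).trans ?_))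
    refine (two_le hWD h3 h1 h2 (by positivity) hu hF0).trans (le_of_eq ?_)
    rw [efin]

/-- many rounds -/
theorem auto_rounds (hδ : 0 ≤ δ) (hR : 0 ≤ R) (hW0 : 0 < w0) (hW : ∀ D, w0 ≤ W D → W D ≤ 2 * |D|)
    (hW2 : ∀ D, W (γ * D + 1) = 2 * W D)
    (hkill : ∀ t ∈ I, ∀ (x : ℝ) (j : ℕ), |x| < R → Con j t x → j < J)
    (hnext : ∀ t ∈ I, ∀ (x : ℝ) (j : ℕ), Con j t x →
      (br j = false → x < 0 → Con (j + 1) t (γ * x + L0 + t)) ∧
      (br j = true → 0 ≤ x → Con (j + 1) t (γ * x + L1 + t)))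
    (hb0 : ∀ t ∈ I, ∀ x : ℝ, (b0 = false → x < 0 → Con 0 t (γ * x + L0 + t)) ∧
      (b0 = true → 0 ≤ x → Con 0 t (γ * x + L1 + t))) (N : ℕ) :
    ∀ D c, w0 ≤ W D → volume (I ∩ Bad γ γ L0 L1 δ R (N * (J + 1)) D c) ≤
      ENNReal.ofReal (((1 - (1 / 2) ^ (J + 1)) ^ N * (4 * R) + (4 * J + 8) * 2 ^ (J + 1) * δ) /
        W D) := by
  induction N with
  | zero =>
    intro D c hD
    have hWD : 0 < W D := lt_of_lt_of_le hW0 hD
    refine (measure_mono inter_subset_right).trans ?_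
    rw [Nat.zero_mul]
    refine (volume_affine' (w := W D / 2) (by positivity) (by linarith [hW D hD]) hR).trans ?_
    apply ENNReal.ofReal_le_ofReal
    rw [pow_zero, one_mul]
    have e : 2 * R / (W D / 2) = 4 * R / W D := by field_simp; ring
    rw [e]
    apply div_le_div_of_nonneg_right _ hWD.le
    have : 0 ≤ (4 * (J : ℝ) + 8) * 2 ^ (J + 1) * δ := by positivity
    linarith
  | succ N ih =>
    intro D c hD
    have hWD : 0 < W D := lt_of_lt_of_le hW0 hD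
    have hq0 : (0 : ℝ) ≤ 1 - (1 / 2) ^ (J + 1) := by
      have := pow_le_one₀ (n := J + 1) (by norm_num : (0 : ℝ) ≤ 1 / 2) (by norm_num)
      linarith
    have h1 := auto_round hδ hW0 hW hW2 hkill hnext hb0 (by positivity) ih D c hD
    rw [Nat.succ_mul]
    refine h1.trans (ENNReal.ofReal_le_ofReal ?_)
    apply div_le_div_of_nonneg_right _ hWD.le
    have e1 : (1 / 2 : ℝ) ^ (J + 1) * 2 ^ (J + 1) = 1 := by
      rw [← mul_pow]; norm_num
    have e2 : (1 - (1 / 2 : ℝ) ^ (J + 1)) * ((1 - (1 / 2) ^ (J + 1)) ^ N * (4 * R) +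
        (4 * J + 8) * 2 ^ (J + 1) * δ + (4 * J + 8) * δ) =
        (1 - (1 / 2) ^ (J + 1)) ^ (N + 1) * (4 * R) + (4 * J + 8) * 2 ^ (J + 1) * δ -
        (4 * J + 8) * δ * ((1 / 2 : ℝ) ^ (J + 1) * 2 ^ (J + 1)) + (4 * J + 8) * δ -
        (1 / 2 : ℝ) ^ (J + 1) * ((4 * J + 8) * δ) := by
      rw [pow_succ (1 - (1 / 2 : ℝ) ^ (J + 1)) N]; ring
    rw [e2, e1]
    have : 0 ≤ (1 / 2 : ℝ) ^ (J + 1) * ((4 * J + 8) * δ) := by positivity
    linarith

end auto

end Pool.Agent.K3h78.RS
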