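import Mathlib
import Pool.Agent.K3h78.RS.A6

/-!
# Slopes two and minus two: the bad set is small
-/

set_option autoImplicit false
set_option maxHeartbeats 400000

open Set Filter Topology MeasureTheory

namespace Pool.Agent.K3h78.RS

/-- the half of the parameters -/
def Half (H δ' L0 L1 : ℝ) (b : Bool) : Set ℝ :=
  {t | |t| ≤ H ∧ (if b then δ' ≤ L0 + L1 + 2 * t else L0 + L1 + 2 * t ≤ -δ')}

theorem exists_J {R Λ H δ' : ℝ} (hδ' : 0 < δ') : ∃ J : ℕ, 3 * R + 3 * Λ + H + 3 * H < 2 ^ J * δ' := by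
  obtain ⟨J, hJ⟩ := pow_unbounded_of_one_lt ((3 * R + 3 * Λ + H + 3 * H) / δ') (by norm_num : (1 : ℝ) < 2)
  exact ⟨J, by rwa [div_lt_iff₀ hδ'] at hJ⟩

theorem pow_kill {δ' s : ℝ} (hδ' : 0 < δ') {J j : ℕ} (h1 : s < 2 ^ J * δ') (h2 : 2 ^ j * δ' ≤ s) :
    j < J := by
  by_contra hcon
  rw [not_lt] at hcon
  have h3 : (2 : ℝ) ^ J ≤ 2 ^ j := pow_le_pow_right₀ (by norm_num) hcon
  have h4 : (2 : ℝ) ^ J * δ' ≤ 2 ^ j * δ' := mul_le_mul_of_nonneg_right h3 hδ'.le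
  linarith

theorem two_W : ∀ D : ℝ, 2 ≤ |D + 1| → |D + 1| ≤ 2 * |D| := by
  intro D hD
  have h1 := abs_add_le D 1
  rw [abs_one] at h1
  linarith

theorem neg_two_W : ∀ D : ℝ, 2 / 3 ≤ |D - 1 / 3| → |D - 1 / 3| ≤ 2 * |D| := by
  intro D hD
  have h1 := abs_sub D (1 / 3)
  rw [abs_of_pos (by norm_num : (0 : ℝ) < 1 / 3)] at h1
  linarith

/-- the case of slope two -/
theorem half_two {R Λ H δ' : ℝ} (hR : 0 ≤ R) (hH : 0 ≤ H) (hδ' : 0 < δ') {J : ℕ}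
    (hJ : 3 * R + 3 * Λ + H + 3 * H < 2 ^ J * δ') {δ : ℝ} (hδ : 0 ≤ δ) {L0 L1 : ℝ}
    (h0 : |L0| ≤ Λ) (h1 : |L1| ≤ Λ) (b : Bool) (N : ℕ) (c : ℝ) :
    volume (Half H δ' L0 L1 b ∩ Bad 2 2 L0 L1 δ R (N * (J + 1)) 1 c) ≤
      ENNReal.ofReal ((1 - (1 / 2) ^ (J + 1)) ^ N * (4 * R) + (4 * J + 8) * 2 ^ (J + 1) * δ) := by
  have hΛ : 0 ≤ Λ := (abs_nonneg _).trans h0
  have fin : ∀ X : ℝ, 0 ≤ X → X / |(1 : ℝ) + 1| ≤ X := by
    intro X hX
    have : |(1 : ℝ) + 1| = 2 := by norm_num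
    rw [this]
    linarith
  have hq0 : (0 : ℝ) ≤ 1 - (1 / 2) ^ (J + 1) := by
    have := pow_le_one₀ (n := J + 1) (by norm_num : (0 : ℝ) ≤ 1 / 2) (by norm_num)
    linarith
  have hX : 0 ≤ (1 - (1 / 2 : ℝ) ^ (J + 1)) ^ N * (4 * R) + (4 * J + 8) * 2 ^ (J + 1) * δ := by
    positivity
  rw [abs_le] at h0 h1
  have hW2 : ∀ D : ℝ, |2 * D + 1 + 1| = 2 * |D + 1| := by
    intro D
    have e : (2 * D + 1 + 1) = 2 * (D + 1) := by ring
    rw [e, abs_mul, abs_two]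
  have hw : (2 : ℝ) ≤ |(1 : ℝ) + 1| := by norm_num
  rcases b with _ | _
  · refine (auto_rounds (γ := 2) (L0 := L0) (L1 := L1) (W := fun D => |D + 1|)
      (I := Half H δ' L0 L1 false) (Con := fun j t x => 2 ^ j * δ' ≤ -(x + L1 + t))
      (br := fun _ => true) (b0 := false) (J := J) hδ hR (by norm_num : (0 : ℝ) < 2) two_W hW2
      ?_ ?_ ?_ N 1 c hw).trans (ENNReal.ofReal_le_ofReal (fin _ hX))
    · rintro t ⟨ht, -⟩ x j hx hc
      rw [abs_le] at ht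
      rw [abs_lt] at hx
      exact pow_kill (s := -(x + L1 + t)) hδ' (by linarith [hx.1, h1.1, ht.1]) hc
    · rintro t ⟨ht, -⟩ x j hc
      refine ⟨fun h => by simp at h, fun _ hx => ?_⟩
      rw [pow_succ]
      linarith
    · rintro t ⟨ht, hs⟩ x
      simp only [Bool.false_eq_true, if_false] at hs
      refine ⟨fun _ hx => ?_, fun h => by simp at h⟩
      simp only [pow_zero, one_mul]
      linarith
  · refine (auto_rounds (γ := 2) (L0 := L0) (L1 := L1) (W := fun D => |D + 1|)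
      (I := Half H δ' L0 L1 true) (Con := fun j t x => 2 ^ j * δ' ≤ x + L0 + t)
      (br := fun _ => false) (b0 := true) (J := J) hδ hR (by norm_num : (0 : ℝ) < 2) two_W hW2
      ?_ ?_ ?_ N 1 c hw).trans (ENNReal.ofReal_le_ofReal (fin _ hX))
    · rintro t ⟨ht, -⟩ x j hx hc
      rw [abs_le] at ht
      rw [abs_lt] at hx
      exact pow_kill (s := x + L0 + t) hδ' (by linarith [hx.2, h0.2, ht.2]) hc
    · rintro t ⟨ht, -⟩ x j hc
      refine ⟨fun _ hx => ?_, fun h => by simp at h⟩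
      rw [pow_succ]
      linarith
    · rintro t ⟨ht, hs⟩ x
      simp only [if_true] at hs
      refine ⟨fun h => by simp at h, fun _ hx => ?_⟩
      simp only [pow_zero, one_mul]
      linarith

/-- the condition in the case of slope minus two -/
def Con2 (L0 L1 δ' : ℝ) (b : Bool) (j : ℕ) (t x : ℝ) : Prop :=
  2 ^ j * δ' ≤ if (j % 2 == 0) = b then 3 * x - (2 * L0 - L1 + t) else (2 * L1 - L0 + t) - 3 * x

/-- the case of slope minus two -/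
theorem half_neg_two {R Λ H δ' : ℝ} (hR : 0 ≤ R) (hH : 0 ≤ H) (hδ' : 0 < δ') {J : ℕ}
    (hJ : 3 * R + 3 * Λ + H + 3 * H < 2 ^ J * δ') {δ : ℝ} (hδ : 0 ≤ δ) {L0 L1 : ℝ}
    (h0 : |L0| ≤ Λ) (h1 : |L1| ≤ Λ) (b : Bool) (N : ℕ) (c : ℝ) :
    volume (Half H δ' L0 L1 b ∩ Bad (-2) (-2) L0 L1 δ R (N * (J + 1)) 1 c) ≤
      ENNReal.ofReal (2 * ((1 - (1 / 2) ^ (J + 1)) ^ N * (4 * R) +
        (4 * J + 8) * 2 ^ (J + 1) * δ)) := by
  have hΛ : 0 ≤ Λ := (abs_nonneg _).trans h0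
  have fin : ∀ X : ℝ, 0 ≤ X → X / |(1 : ℝ) - 1 / 3| ≤ 2 * X := by
    intro X hX
    have : |(1 : ℝ) - 1 / 3| = 2 / 3 := by norm_num
    rw [this, div_le_iff₀ (by norm_num)]
    linarith
  have hq0 : (0 : ℝ) ≤ 1 - (1 / 2) ^ (J + 1) := by
    have := pow_le_one₀ (n := J + 1) (by norm_num : (0 : ℝ) ≤ 1 / 2) (by norm_num)
    linarith
  have hX : 0 ≤ (1 - (1 / 2 : ℝ) ^ (J + 1)) ^ N * (4 * R) + (4 * J + 8) * 2 ^ (J + 1) * δ := by
    positivity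
  rw [abs_le] at h0 h1
  have hW2 : ∀ D : ℝ, |-2 * D + 1 - 1 / 3| = 2 * |D - 1 / 3| := by
    intro D
    have e : (-2 * D + 1 - 1 / 3) = -(2 * (D - 1 / 3)) := by ring
    rw [e, abs_neg, abs_mul, abs_two]
  have hw : (2 : ℝ) / 3 ≤ |(1 : ℝ) - 1 / 3| := by norm_num
  have hpar : ∀ j : ℕ, ((j + 1) % 2 == 0) = !(j % 2 == 0) := by
    intro j
    rcases Nat.mod_two_eq_zero_or_one j with h | h <;> simp [Nat.add_mod, h]
  refine (auto_rounds (γ := -2) (L0 := L0) (L1 := L1) (W := fun D => |D - 1 / 3|)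
      (I := Half H δ' L0 L1 b) (Con := Con2 L0 L1 δ' b)
      (br := fun j => !((j % 2 == 0) == b)) (b0 := !b) (J := J) hδ hR
      (by norm_num : (0 : ℝ) < 2 / 3) neg_two_W hW2
      ?_ ?_ ?_ N 1 c hw).trans (ENNReal.ofReal_le_ofReal (fin _ hX))
  · rintro t ⟨ht, -⟩ x j hx hc
    rw [abs_le] at ht
    rw [abs_lt] at hx
    unfold Con2 at hc
    split_ifs at hc
    · exact pow_kill (s := 3 * x - (2 * L0 - L1 + t)) hδ'
        (by linarith [hx.2, h0.1, h1.2, ht.1]) hc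
    · exact pow_kill (s := (2 * L1 - L0 + t) - 3 * x) hδ'
        (by linarith [hx.1, h0.1, h1.2, ht.2]) hc
  · rintro t ⟨ht, -⟩ x j hc
    unfold Con2 at hc ⊢
    rw [hpar j]
    rcases hp : (j % 2 == 0) with _ | _ <;> rcases b with _ | _ <;> rw [hp] at hc <;>
      simp at hc ⊢ <;> intro _ <;> rw [pow_succ] <;> linarith
  · rintro t ⟨ht, hs⟩ x
    unfold Con2
    rcases b with _ | _
    · simp at hs ⊢
      intro _
      linarith
    · simp at hs ⊢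
      intro _
      linarith

/-- both slopes -/
theorem half_both {γ : ℝ} (hγ : γ = 2 ∨ γ = -2) {R Λ H δ' : ℝ} (hR : 0 ≤ R) (hH : 0 ≤ H)
    (hδ' : 0 < δ') {J : ℕ} (hJ : 3 * R + 3 * Λ + H + 3 * H < 2 ^ J * δ') {δ : ℝ} (hδ : 0 ≤ δ)
    {L0 L1 : ℝ} (h0 : |L0| ≤ Λ) (h1 : |L1| ≤ Λ) (b : Bool) (N : ℕ) (c : ℝ) :
    volume (Half H δ' L0 L1 b ∩ Bad γ γ L0 L1 δ R (N * (J + 1)) 1 c) ≤
      ENNReal.ofReal (2 * ((1 - (1 / 2) ^ (J + 1)) ^ N * (4 * R) +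
        (4 * J + 8) * 2 ^ (J + 1) * δ)) := by
  rcases hγ with rfl | rfl
  · refine (half_two hR hH hδ' hJ hδ h0 h1 b N c).trans (ENNReal.ofReal_le_ofReal ?_)
    have hq0 : (0 : ℝ) ≤ 1 - (1 / 2) ^ (J + 1) := by
      have := pow_le_one₀ (n := J + 1) (by norm_num : (0 : ℝ) ≤ 1 / 2) (by norm_num)
      linarith
    have hX : 0 ≤ (1 - (1 / 2 : ℝ) ^ (J + 1)) ^ N * (4 * R) + (4 * J + 8) * 2 ^ (J + 1) * δ := by
      positivity
    linarith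
  · exact half_neg_two hR hH hδ' hJ hδ h0 h1 b N c

/-- **The bad set is small** for slopes two and minus two. -/
theorem bad_two (R Λ H : ℝ) (hR : 0 ≤ R) (hH : 0 ≤ H) {τ : ℝ} (hτ : 0 < τ) :
    ∃ m : ℕ, ∃ δ₀ : ℝ, 0 < δ₀ ∧ ∀ γ : ℝ, (γ = 2 ∨ γ = -2) → ∀ δ : ℝ, 0 ≤ δ → δ ≤ δ₀ →
      ∀ L0 L1 : ℝ, |L0| ≤ Λ → |L1| ≤ Λ → ∀ c : ℝ,
        volume ({t | |t| ≤ H} ∩ Bad γ γ L0 L1 δ R m 1 c) ≤ ENNReal.ofReal τ := by
  have hδ' : 0 < τ / 4 := by linarith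
  obtain ⟨J, hJ⟩ := exists_J (R := R) (Λ := Λ) (H := H) hδ'
  have hq0 : (0 : ℝ) ≤ 1 - (1 / 2) ^ (J + 1) := by
    have := pow_le_one₀ (n := J + 1) (by norm_num : (0 : ℝ) ≤ 1 / 2) (by norm_num)
    linarith
  have hq1 : (1 : ℝ) - (1 / 2) ^ (J + 1) < 1 := by
    have : (0 : ℝ) < (1 / 2) ^ (J + 1) := by positivity
    linarith
  obtain ⟨N, hN⟩ := exists_pow_lt_of_lt_one (show 0 < τ / (64 * (R + 1)) by positivity) hq1
  rw [lt_div_iff₀ (by positivity)] at hN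
  obtain ⟨K, hK⟩ : ∃ K : ℝ, K = (4 * J + 8) * 2 ^ (J + 1) := ⟨_, rfl⟩
  have hK0 : 0 < K := by rw [hK]; positivity
  refine ⟨N * (J + 1), τ / (16 * K), by positivity, ?_⟩
  intro γ hγ δ hδ0 hδ L0 L1 h0 h1 c
  rw [le_div_iff₀ (by positivity)] at hδ
  have hsub : {t | |t| ≤ H} ∩ Bad γ γ L0 L1 δ R (N * (J + 1)) 1 c ⊆
      ({t : ℝ | |2 * t + (L0 + L1)| < τ / 4} ∪
        (Half H (τ / 4) L0 L1 true ∩ Bad γ γ L0 L1 δ R (N * (J + 1)) 1 c)) ∪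
        (Half H (τ / 4) L0 L1 false ∩ Bad γ γ L0 L1 δ R (N * (J + 1)) 1 c) := by
    rintro t ⟨ht, hb⟩
    by_cases h2 : |2 * t + (L0 + L1)| < τ / 4
    · exact Or.inl (Or.inl h2)
    · rw [not_lt, le_abs] at h2
      rcases h2 with h2 | h2
      · refine Or.inl (Or.inr ⟨⟨ht, ?_⟩, hb⟩)
        simp only [if_true]
        linarith
      · refine Or.inr ⟨⟨ht, ?_⟩, hb⟩
        simp only [Bool.false_eq_true, if_false]
        linarith
  have hb := half_both hγ hR hH hδ' hJ hδ0 h0 h1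
  have hv : 2 * ((1 - (1 / 2) ^ (J + 1)) ^ N * (4 * R) + (4 * J + 8) * 2 ^ (J + 1) * δ) ≤
      τ / 4 := by
    rw [← hK]
    have e1 : 0 ≤ (1 - (1 / 2 : ℝ) ^ (J + 1)) ^ N := pow_nonneg hq0 _
    linarith
  have h2 := (hb true N c).trans (ENNReal.ofReal_le_ofReal hv)
  have h3 := (hb false N c).trans (ENNReal.ofReal_le_ofReal hv)
  have h4 : volume {t : ℝ | |2 * t + (L0 + L1)| < τ / 4} ≤ ENNReal.ofReal (τ / 4) := by
    refine (volume_affine (by norm_num : (2 : ℝ) ≠ 0)).trans (ENNReal.ofReal_le_ofReal ?_)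
    rw [abs_two]
    linarith
  refine (measure_mono hsub).trans ((measure_union_le _ _).trans
    ((add_le_add (measure_union_le _ _) le_rfl).trans ?_))
  refine (add_le_add (add_le_add h4 h2) h3).trans ?_
  rw [← ENNReal.ofReal_add (by positivity) (by positivity),
    ← ENNReal.ofReal_add (by positivity) (by positivity)]
  apply ENNReal.ofReal_le_ofReal
  linarith

end Pool.Agent.K3h78.RS
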