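import Mathlib
import Pool.Agent.K3h78.RS.A5
import Pool.Agent.K3h78.RS.A7

/-!
# All exponents of modulus at least two
-/

set_option autoImplicit false
set_option maxHeartbeats 400000

open Set Filter Topology Polynomial MeasureTheory
open scoped OnePoint

namespace Pool.Agent.K3h78.RS

open Pool.Agent.H762R2.Rt

theorem dat_of' {D : ℕ} {M H : ℝ} (hM : 0 < M) {A B : ℂ[X]} (h : Nrm D M A B) {a b n : ℕ}
    (hn : 1 ≤ n) (hab : a = 0 ∨ b = 0) (h2 : 2 ≤ |expo0 a b| ∧ 2 ≤ |expo1 a b n A B|) {t : ℝ}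
    (ht : |t| ≤ H) : Dat D M (Real.exp H) n a b A B (Real.exp t : ℂ) := by
  have hH : 0 ≤ H := (abs_nonneg t).trans ht
  have hns : ‖(Real.exp t : ℂ)‖ = Real.exp t := by
    rw [Complex.norm_real, Real.norm_eq_abs, abs_of_pos (Real.exp_pos t)]
  have key : ∀ x y : ℕ, 2 ≤ |(x : ℝ) - y| → x + 2 ≤ y ∨ y + 2 ≤ x := by
    intro x y hxy
    have h3 : (2 : ℤ) ≤ |(x : ℤ) - y| := by exact_mod_cast hxy
    rcases abs_cases ((x : ℤ) - y) with ⟨h4, -⟩ | ⟨h4, -⟩ <;> omega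
  refine ⟨hM, hn, Real.one_le_exp hH, ?_, ?_, ?_, h.cop, ⟨h.degA, h.bdA, h.A0⟩,
    ⟨h.degB, h.bdB, h.B0⟩, loc_reverse h.degA h.bdA h.A1, loc_reverse h.degB h.bdB h.B1, hab, ?_, ?_⟩
  · rw [hns]; exact Real.exp_le_exp.2 ((le_abs_self t).trans ht)
  · rw [hns, ← Real.exp_add]
    apply Real.one_le_exp
    linarith [neg_abs_le t]
  · exact_mod_cast (Real.exp_pos t).ne'
  · have := key a b h2.1
    omega
  · refine key _ _ ?_
    have h3 := h2.2
    unfold expo1 at h3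
    push_cast
    exact h3

theorem measure_core' {D : ℕ} {M H : ℝ} (hM : 0 < M) {a b n : ℕ} {A B : ℂ[X]} (hN : Nrm D M A B)
    (hn : 1 ≤ n) (hab : a = 0 ∨ b = 0) (h2 : 2 ≤ |expo0 a b| ∧ 2 ≤ |expo1 a b n A B|)
    {ρ : ℝ} (hρ0 : 0 < ρ) (hρ1 : ρ ≤ 1) (hρ2 : D * M ^ 2 * ρ ≤ 1 / 2)
    (hρ3 : 4 * M ^ 2 * Real.exp H * ρ < 1 / 4) {δ Γ R : ℝ} (hδ : 0 < δ)
    (hsm : D * M ^ 2 * Real.exp (-(n * (δ / 2))) ≤ 1 / 2) (hΓ0 : |expo0 a b| ≤ Γ)
    (hΓ1 : |expo1 a b n A B| ≤ Γ) {m : ℕ}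
    (herr : 4 * (D * M ^ 2 * Real.exp (-(n * (δ / 2)))) * (Γ + 1) ^ m ≤ δ / 2)
    (hR : -Real.log (ρ / 2) + δ / 2 ≤ R) {X : ENNReal}
    (hX : ∀ c : ℝ, volume ({t : ℝ | |t| ≤ H} ∩
      Bad (expo0 a b) (expo1 a b n A B) (lev0 A B) (lev1 A B) δ R m 1 c) ≤ X) :
    volume {t : ℝ | |t| ≤ H ∧ ¬ Hyp (PP (Real.exp t : ℂ) a n A) (PP 1 b n B)} ≤
      (2 * D + 1 : ℕ) * X := by
  set α := expo0 a b with hα
  set β := expo1 a b n A B with hβ
  set V : Finset ℝ := (NN a b n A B).roots.toFinset.image (val a b n A B) with hV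
  have hVc : V.card ≤ 2 * D + 1 :=
    Finset.card_image_le.trans ((Multiset.toFinset_card_le _).trans
      ((card_roots' _).trans (NN_natDegree hN.degA hN.degB)))
  have hne : a ≠ b := by
    intro hab'
    have h0 : α = 0 := by rw [hα, hab']; unfold expo0; ring
    have h1 := h2.1
    rw [h0, abs_zero] at h1
    norm_num at h1
  have hNN : NN a b n A B ≠ 0 := NN_ne (by
    have := lt_of_lt_of_le (inv_pos.2 hM) hN.A0
    exact norm_pos_iff.1 this) (by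
    have := lt_of_lt_of_le (inv_pos.2 hM) hN.B0
    exact norm_pos_iff.1 this) hne
  have hsub : {t : ℝ | |t| ≤ H ∧ ¬ Hyp (PP (Real.exp t : ℂ) a n A) (PP 1 b n B)} ⊆
      ⋃ v ∈ V, ({t : ℝ | |t| ≤ H} ∩ Bad α β (lev0 A B) (lev1 A B) δ R m 1 v) := by
    rintro t ⟨ht, hnot⟩
    by_contra hcon
    apply hnot
    simp only [mem_iUnion, not_exists] at hcon
    have hd := dat_of' hM hN hn hab h2 ht
    have hlog : Real.log ‖(Real.exp t : ℂ)‖ = t := by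
      rw [Complex.norm_real, Real.norm_eq_abs, abs_of_pos (Real.exp_pos t), Real.log_exp]
    refine hd.hyp hρ0 hρ1 hρ2 hρ3 hδ hsm hΓ0 hΓ1 herr hR ?_
    intro u hu
    rw [hlog]
    have h1 : val a b n A B u ∈ V := by
      rw [hV]
      refine Finset.mem_image.2 ⟨u, ?_, rfl⟩
      rw [Multiset.mem_toFinset, mem_roots hNN]
      exact hu
    have h2 := leaves_of_not_bad m 1 (val a b n A B u) t (fun h3 => hcon _ h1 ⟨ht, h3⟩)
    rwa [one_mul] at h2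
  refine (measure_mono hsub).trans ((measure_biUnion_finset_le V _).trans ?_)
  refine (Finset.sum_le_sum (fun v _ => hX v)).trans ?_
  rw [Finset.sum_const, nsmul_eq_mul]
  gcongr

theorem log_bounds {M x : ℝ} (hM : 0 < M) (h1 : M⁻¹ ≤ x) (h2 : x ≤ M) : |Real.log x| ≤ Real.log M := by
  have h0 : 0 < x := lt_of_lt_of_le (inv_pos.2 hM) h1
  rw [abs_le]
  constructor
  · rw [← Real.log_inv]
    exact Real.log_le_log (inv_pos.2 hM) h1
  · exact Real.log_le_log h0 h2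

theorem lev_bounds {D : ℕ} {M : ℝ} (hM : 0 < M) {A B : ℂ[X]} (h : Nrm D M A B) :
    |lev0 A B| ≤ 2 * Real.log M ∧ |lev1 A B| ≤ 2 * Real.log M := by
  constructor
  · have h1 := log_bounds hM h.A0 (h.bdA 0)
    have h2 := log_bounds hM h.B0 (h.bdB 0)
    have h3 := abs_sub (Real.log ‖A.coeff 0‖) (Real.log ‖B.coeff 0‖)
    unfold lev0
    linarith
  · have h1 := log_bounds hM h.A1 (h.bdA _)
    have h2 := log_bounds hM h.B1 (h.bdB _)
    have h3 := abs_sub (Real.log ‖A.leadingCoeff‖) (Real.log ‖B.leadingCoeff‖)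
    unfold lev1
    linarith

theorem tendsto_exp_small {c δ : ℝ} (hδ : 0 < δ) :
    Tendsto (fun n : ℕ => c * Real.exp (-(n * δ))) atTop (𝓝 0) := by
  have h1 : Tendsto (fun n : ℕ => (n : ℝ) * δ) atTop atTop :=
    tendsto_natCast_atTop_atTop.atTop_mul_const hδ
  have h2 := (Real.tendsto_exp_neg_atTop_nhds_zero.comp h1).const_mul c
  rw [mul_zero] at h2
  exact h2

/-- **Measure of the exceptional multiples, exponents two or minus two.** -/
theorem measure_two (D : ℕ) {M H : ℝ} (hM : 0 < M) (hH : 0 ≤ H) {τ : ℝ} (hτ : 0 < τ) :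
    ∃ n₀ : ℕ, ∀ n : ℕ, n₀ ≤ n → ∀ (a b : ℕ) (A B : ℂ[X]), Nrm D M A B →
      (a = 0 ∨ b = 0) → (∃ γ : ℝ, (γ = 2 ∨ γ = -2) ∧ expo0 a b = γ ∧ expo1 a b n A B = γ) →
      volume {t : ℝ | |t| ≤ H ∧ ¬ Hyp (PP (Real.exp t : ℂ) a n A) (PP 1 b n B)} ≤
        ENNReal.ofReal τ := by
  have hDM : 0 ≤ D * M ^ 2 := by positivity
  have hMG : 0 < M ^ 2 * Real.exp H := mul_pos (by positivity) (Real.exp_pos H)
  obtain ⟨ρ, hρ0, hρ1, hρ2, hρ3⟩ := choose_rho hDM hMG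
  rw [← mul_assoc] at hρ3
  obtain ⟨R, hR⟩ : ∃ R : ℝ, R = -Real.log (ρ / 2) + 1 := ⟨_, rfl⟩
  have hR0 : 0 ≤ R := by
    have : Real.log (ρ / 2) ≤ 0 := Real.log_nonpos (by linarith) (by linarith)
    rw [hR]; linarith
  have hτ' : 0 < τ / (2 * D + 1) := by positivity
  obtain ⟨m, δ₀, hδ₀, hbad⟩ := bad_two R (2 * Real.log M) H hR0 hH hτ'
  obtain ⟨δ, hδ⟩ : ∃ δ : ℝ, δ = min δ₀ 1 := ⟨_, rfl⟩
  have hδ0 : 0 < δ := by rw [hδ]; exact lt_min hδ₀ one_pos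
  have hδ1 : δ ≤ δ₀ := by rw [hδ]; exact min_le_left _ _
  have hδ2 : δ ≤ 1 := by rw [hδ]; exact min_le_right _ _
  obtain ⟨n₁, hn₁⟩ := eventually_atTop.1
    ((tendsto_exp_small (c := D * M ^ 2) (half_pos hδ0)).eventually
      (ge_mem_nhds (by norm_num : (0 : ℝ) < 1 / 2)))
  obtain ⟨n₂, hn₂⟩ := eventually_atTop.1
    ((tendsto_exp_small (c := 4 * (D * M ^ 2) * (2 + 1) ^ m) (half_pos hδ0)).eventually
      (ge_mem_nhds (half_pos hδ0)))
  refine ⟨max (max n₁ n₂) 1, ?_⟩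
  rintro n hn a b A B hN hab ⟨γ, hγ, h0, h1⟩
  have e1 := hn₁ n (by omega)
  have e2 := hn₂ n (by omega)
  have hγ2 : |γ| = 2 := by rcases hγ with rfl | rfl <;> norm_num
  obtain ⟨hl0, hl1⟩ := lev_bounds hM hN
  have hX : ∀ c : ℝ, volume ({t : ℝ | |t| ≤ H} ∩
      Bad (expo0 a b) (expo1 a b n A B) (lev0 A B) (lev1 A B) δ R m 1 c) ≤
      ENNReal.ofReal (τ / (2 * D + 1)) := by
    intro c
    rw [h0, h1]
    exact hbad γ hγ δ hδ0.le hδ1 _ _ hl0 hl1 c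
  have key := measure_core' (Γ := 2) hM hN (by omega) hab
    ⟨by rw [h0, hγ2], by rw [h1, hγ2]⟩ hρ0 hρ1 hρ2 hρ3 hδ0 e1 (by rw [h0, hγ2]) (by rw [h1, hγ2])
    (m := m) (by
      have e3 : 4 * (D * M ^ 2) * (2 + 1) ^ m * Real.exp (-(n * (δ / 2))) =
        4 * (D * M ^ 2 * Real.exp (-(n * (δ / 2)))) * (2 + 1) ^ m := by ring
      rw [← e3]; exact e2) (R := R) (by rw [hR]; linarith) hX
  refine key.trans (le_of_eq ?_)
  rw [← ENNReal.ofReal_natCast, ← ENNReal.ofReal_mul (by positivity)]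
  congr 1
  push_cast
  field_simp

/-- the exponents are admissible, or both equal to two or both equal to minus two -/
theorem adm_or {a b n : ℕ} {A B : ℂ[X]} (hn : 9 ≤ n) (h0 : 2 ≤ |expo0 a b|)
    (h1 : 2 ≤ |expo1 a b n A B|) : Adm (expo0 a b) (expo1 a b n A B) ∨
      ∃ γ : ℝ, (γ = 2 ∨ γ = -2) ∧ expo0 a b = γ ∧ expo1 a b n A B = γ := by
  obtain ⟨x, hx⟩ : ∃ x : ℤ, x = (a : ℤ) - b := ⟨_, rfl⟩
  obtain ⟨w, hw⟩ : ∃ w : ℤ, w = (A.natDegree : ℤ) - B.natDegree := ⟨_, rfl⟩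
  obtain ⟨y, hy⟩ : ∃ y : ℤ, y = x + n * w := ⟨_, rfl⟩
  have e0 : expo0 a b = (x : ℝ) := by unfold expo0; rw [hx]; push_cast; ring
  have e1 : expo1 a b n A B = (y : ℝ) := by unfold expo1; rw [hy, hw, hx]; push_cast; ring
  rw [e0] at h0 ⊢
  rw [e1] at h1 ⊢
  have h0' : 2 ≤ |x| := by exact_mod_cast h0
  have h1' : 2 ≤ |y| := by exact_mod_cast h1
  have hnz : (9 : ℤ) ≤ n := by exact_mod_cast hn
  have cast : ∀ (k : ℕ) (z : ℤ), (k : ℤ) ≤ |z| → (k : ℝ) ≤ |(z : ℝ)| := by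
    intro k z h; exact_mod_cast h
  have hw0 : w = 0 ∨ n ≤ |n * w| := by
    rcases eq_or_ne w 0 with h | h
    · exact Or.inl h
    · right
      rw [abs_mul, abs_of_nonneg (by omega : (0 : ℤ) ≤ n)]
      have := Int.one_le_abs h
      nlinarith
  rcases eq_or_ne |x| 2 with hx2 | hx2
  · rcases eq_or_ne |y| 2 with hy2 | hy2
    · right
      have hxy : y = x := by
        rcases hw0 with h | h
        · rw [hy, h]; ring
        · have h3 : |(n : ℤ) * w| ≤ |y| + |x| := by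
            have h4 := abs_sub y x
            have e : y - x = n * w := by rw [hy]; ring
            rwa [e] at h4
          omega
      rw [hxy]
      rcases (abs_eq (by norm_num : (0 : ℤ) ≤ 2)).1 hx2 with h | h
      · exact ⟨2, Or.inl rfl, by rw [h]; norm_num, by rw [h]; norm_num⟩
      · exact ⟨-2, Or.inr rfl, by rw [h]; norm_num, by rw [h]; norm_num⟩
    · left
      right; left
      refine ⟨by exact_mod_cast hx2, ?_⟩
      have h3 : (7 : ℤ) ≤ |y| := by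
        rcases hw0 with h | h
        · exfalso; apply hy2
          rw [hy, h, mul_zero, add_zero]; exact hx2
        · have h3 : |(n : ℤ) * w| ≤ |y| + |x| := by
            have h4 := abs_sub y x
            have e : y - x = n * w := by rw [hy]; ring
            rwa [e] at h4
          omega
      exact_mod_cast h3
  · left
    rcases eq_or_ne |y| 2 with hy2 | hy2
    · right; right
      refine ⟨?_, by exact_mod_cast hy2⟩
      have h3 : (7 : ℤ) ≤ |x| := by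
        rcases hw0 with h | h
        · exfalso; apply hx2
          rw [hy, h, mul_zero, add_zero] at hy2; exact hy2
        · have h3 : |(n : ℤ) * w| ≤ |y| + |x| := by
            have h4 := abs_sub y x
            have e : y - x = n * w := by rw [hy]; ring
            rwa [e] at h4
          omega
      exact_mod_cast h3
    · left
      refine ⟨by exact_mod_cast (by omega : (3 : ℤ) ≤ |x|), by exact_mod_cast (by omega : (3 : ℤ) ≤ |y|)⟩

/-- **Measure of the exceptional multiples, all exponents of modulus at least two.** -/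
theorem measure_all (D : ℕ) {M κ H : ℝ} (hM : 0 < M) (hκ : 0 ≤ κ) (hH : 0 ≤ H) {τ : ℝ}
    (hτ : 0 < τ) :
    ∃ n₀ : ℕ, ∀ n : ℕ, n₀ ≤ n → ∀ (a b : ℕ) (A B : ℂ[X]), Nrm D M A B →
      (a = 0 ∨ b = 0) → 2 ≤ |expo0 a b| → 2 ≤ |expo1 a b n A B| → |expo0 a b| ≤ κ * n →
      |expo1 a b n A B| ≤ κ * n →
      volume {t : ℝ | |t| ≤ H ∧ ¬ Hyp (PP (Real.exp t : ℂ) a n A) (PP 1 b n B)} ≤
        ENNReal.ofReal τ := by
  obtain ⟨n₁, h₁⟩ := measure_two D hM hH hτ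
  obtain ⟨C, hC, n₂, h₂⟩ := measure_bound D (H := H) hM hκ
  obtain ⟨n₃, h₃⟩ := eventually_atTop.1
    ((tendsto_rate C).eventually (ge_mem_nhds hτ))
  refine ⟨max (max n₁ n₂) (max n₃ 9), ?_⟩
  intro n hn a b A B hN hab h0 h1 hκ0 hκ1
  rcases adm_or (by omega) h0 h1 with h | h
  · exact (h₂ n (by omega) a b A B hN hab h hκ0 hκ1).trans
      (ENNReal.ofReal_le_ofReal (h₃ n (by omega)))
  · exact h₁ n (by omega) a b A B hN hab h

/-- a hyperbolic multiple with a factor close to one -/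
theorem mult_all (D : ℕ) {M κ : ℝ} (hM : 0 < M) (hκ : 0 ≤ κ) {τ : ℝ} (hτ : 0 < τ) :
    ∃ n₀ : ℕ, ∀ n : ℕ, n₀ ≤ n → ∀ (a b : ℕ) (A B : ℂ[X]), Nrm D M A B →
      (a = 0 ∨ b = 0) → 2 ≤ |expo0 a b| → 2 ≤ |expo1 a b n A B| → |expo0 a b| ≤ κ * n →
      |expo1 a b n A B| ≤ κ * n → ∃ t : ℝ, 0 ≤ t ∧ t ≤ τ ∧
        Hyp (PP (Real.exp t : ℂ) a n A) (PP 1 b n B) := by
  obtain ⟨n₀, h⟩ := measure_all D (H := τ) hM hκ hτ.le (half_pos hτ)
  refine ⟨n₀, ?_⟩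
  intro n hn a b A B hN hab h0 h1 hκ0 hκ1
  have h2 := h n hn a b A B hN hab h0 h1 hκ0 hκ1
  by_contra hcon
  push Not at hcon
  have h3 : Icc 0 τ ⊆ {t : ℝ | |t| ≤ τ ∧ ¬ Hyp (PP (Real.exp t : ℂ) a n A) (PP 1 b n B)} := by
    rintro t ⟨ht0, ht1⟩
    refine ⟨?_, hcon t ht0 ht1⟩
    rw [abs_of_nonneg ht0]
    exact ht1
  have h4 := (measure_mono h3).trans h2
  rw [Real.volume_Icc, sub_zero, ENNReal.ofReal_le_ofReal_iff (by positivity)] at h4
  linarith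

end Pool.Agent.K3h78.RS
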