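import Mathlib
import Pool.Agent.K3h78.RS.A8

/-!
# Maps close to maps with a rotational symmetry
-/

set_option autoImplicit false
set_option maxHeartbeats 400000

open Set Filter Topology Polynomial MeasureTheory
open scoped OnePoint

namespace Pool.Agent.K3h78.RS

open Pool.Agent.H762R2.Rt

/-- replace a small coefficient -/
noncomputable def fixc (e : ℝ) (z : ℂ) : ℂ := if ‖z‖ < e / 4 then ((e / 4 : ℝ) : ℂ) else z

theorem fixc_ge {e : ℝ} (he : 0 < e) (z : ℂ) : e / 4 ≤ ‖fixc e z‖ := by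
  unfold fixc
  split_ifs with h
  · rw [Complex.norm_real, Real.norm_eq_abs, abs_of_pos (by linarith)]
  · exact not_lt.1 h

theorem fixc_sub {e : ℝ} (he : 0 < e) (z : ℂ) : ‖fixc e z - z‖ ≤ e / 2 := by
  unfold fixc
  split_ifs with h
  · refine (norm_sub_le _ _).trans ?_
    rw [Complex.norm_real, Real.norm_eq_abs, abs_of_pos (by linarith)]
    linarith
  · rw [sub_self, norm_zero]
    linarith

theorem fixc_le {e M : ℝ} (he : 0 < e) (he1 : e ≤ 1) {z : ℂ} (hz : ‖z‖ ≤ M) :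
    ‖fixc e z‖ ≤ M + 1 := by
  have h := fixc_sub he z
  have h1 := norm_sub_norm_le (fixc e z) z
  linarith

/-- the symmetric part -/
noncomputable def cut (e : ℝ) (i n p : ℕ) (P : ℂ[X]) : ℂ[X] :=
  ∑ l ∈ Finset.range (p + 1), C (fixc e (P.coeff (i + n * l))) * X ^ l

theorem cut_coeff (e : ℝ) (i n p : ℕ) (P : ℂ[X]) (k : ℕ) :
    (cut e i n p P).coeff k = if k ≤ p then fixc e (P.coeff (i + n * k)) else 0 := by
  unfold cut
  rw [finset_sum_coeff]
  simp only [coeff_C_mul_X_pow]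
  rw [Finset.sum_ite_eq (Finset.range (p + 1)) k]
  simp only [Finset.mem_range, Nat.lt_succ_iff]

/-- an admissible modification -/
structure Mod (e : ℝ) (i n p : ℕ) (P A : ℂ[X]) : Prop where
  hi : ∀ k, p < k → A.coeff k = 0
  lo : ∀ k, k ≤ p → e / 8 ≤ ‖A.coeff k‖
  near : ∀ k, k ≤ p → ‖A.coeff k - P.coeff (i + n * k)‖ ≤ 5 / 8 * e

theorem Mod.natDegree {e : ℝ} (he : 0 < e) {i n p : ℕ} {P A : ℂ[X]} (h : Mod e i n p P A) :
    A.natDegree = p := by
  apply le_antisymm
  · exact natDegree_le_iff_coeff_eq_zero.2 fun k hk => h.hi k hk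
  · apply le_natDegree_of_ne_zero
    intro h0
    have h1 := h.lo p le_rfl
    rw [h0, norm_zero] at h1
    linarith

theorem Mod.bd {e M : ℝ} (he : 0 < e) (he1 : e ≤ 1) (hM : 0 ≤ M) {i n p : ℕ} {P A : ℂ[X]}
    (h : Mod e i n p P A) (hP : ∀ k, ‖P.coeff k‖ ≤ M) (k : ℕ) : ‖A.coeff k‖ ≤ M + 1 := by
  rcases le_or_gt k p with hk | hk
  · have h1 := h.near k hk
    have h2 := norm_sub_norm_le (A.coeff k) (P.coeff (i + n * k))
    have h3 := hP (i + n * k)
    linarith
  · rw [h.hi k hk, norm_zero]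
    linarith

theorem exists_mod {e : ℝ} (he : 0 < e) (i j n p q : ℕ) (P Q : ℂ[X]) :
    ∃ A B : ℂ[X], IsCoprime A B ∧ Mod e i n p P A ∧ Mod e j n q Q B := by
  have hA : Mod e i n p P (cut e i n p P) := by
    refine ⟨fun k hk => ?_, fun k hk => ?_, fun k hk => ?_⟩
    · rw [cut_coeff, if_neg (by omega)]
    · rw [cut_coeff, if_pos hk]
      have := fixc_ge he (P.coeff (i + n * k))
      linarith
    · rw [cut_coeff, if_pos hk]
      have := fixc_sub he (P.coeff (i + n * k))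
      linarith
  have hA0 : cut e i n p P ≠ 0 := by
    intro h0
    have h1 := hA.lo p le_rfl
    rw [h0, coeff_zero, norm_zero] at h1
    linarith
  -- the constant
  have hfin : {x : ℝ | ∃ r : ℂ, (cut e i n p P).eval r = 0 ∧
      (x : ℂ) = -(cut e j n q Q).eval r}.Finite := by
    have h1 : {r : ℂ | (cut e i n p P).eval r = 0}.Finite := by
      refine ((cut e i n p P).roots.toFinset.finite_toSet).subset ?_
      intro r hr
      rw [Finset.mem_coe, Multiset.mem_toFinset, mem_roots hA0]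
      exact hr
    have h2 := h1.image (fun r : ℂ => (-(cut e j n q Q).eval r).re)
    refine h2.subset ?_
    rintro x ⟨r, hr, hx⟩
    refine ⟨r, hr, ?_⟩
    simp only
    rw [← hx, Complex.ofReal_re]
  obtain ⟨η, hη, hη2⟩ := (Set.Ioo_infinite (show (0 : ℝ) < e / 8 by linarith)).exists_notMem_finset
    hfin.toFinset
  rw [Set.Finite.mem_toFinset] at hη2
  have hηn : ‖(η : ℂ)‖ ≤ e / 8 := by
    rw [Complex.norm_real, Real.norm_eq_abs, abs_of_pos hη.1]
    exact hη.2.le
  refine ⟨cut e i n p P, cut e j n q Q + C (η : ℂ), ?_, hA, ?_⟩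
  · rw [isCoprime_iff_aeval_ne_zero_of_isAlgClosed ℂ ℂ]
    intro r
    by_contra hcon
    push Not at hcon
    obtain ⟨h1, h2⟩ := hcon
    rw [coe_aeval_eq_eval] at h1 h2
    apply hη2
    refine ⟨r, h1, ?_⟩
    rw [eval_add, eval_C] at h2
    linear_combination h2
  · have hc : ∀ k, (cut e j n q Q + C (η : ℂ)).coeff k =
        (cut e j n q Q).coeff k + if k = 0 then (η : ℂ) else 0 := by
      intro k
      rw [coeff_add, coeff_C]
    have hsm : ∀ k : ℕ, ‖(if k = 0 then (η : ℂ) else 0)‖ ≤ e / 8 := by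
      intro k
      split_ifs
      · exact hηn
      · rw [norm_zero]; linarith
    refine ⟨fun k hk => ?_, fun k hk => ?_, fun k hk => ?_⟩
    · rw [hc, cut_coeff, if_neg (by omega), if_neg (by omega), add_zero]
    · rw [hc, cut_coeff, if_pos hk]
      have h1 := fixc_ge he (Q.coeff (j + n * k))
      have h2 := norm_sub_le_norm_add (fixc e (Q.coeff (j + n * k))) (if k = 0 then (η : ℂ) else 0)
      have h3 := hsm k
      linarith
    · rw [hc, cut_coeff, if_pos hk]
      have h1 := fixc_sub he (Q.coeff (j + n * k))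
      have h2 := hsm k
      have e1 : fixc e (Q.coeff (j + n * k)) + (if k = 0 then (η : ℂ) else 0) -
          Q.coeff (j + n * k) = (fixc e (Q.coeff (j + n * k)) - Q.coeff (j + n * k)) +
          (if k = 0 then (η : ℂ) else 0) := by ring
      rw [e1]
      refine (norm_add_le _ _).trans ?_
      linarith

theorem PP_coeff (s : ℂ) (a : ℕ) {n : ℕ} (hn : 0 < n) (A : ℂ[X]) (k : ℕ) :
    (PP s a n A).coeff k = if a ≤ k ∧ n ∣ k - a then s * A.coeff ((k - a) / n) else 0 := by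
  unfold PP
  rw [mul_assoc, coeff_C_mul, coeff_X_pow_mul']
  by_cases h1 : a ≤ k
  · rw [if_pos h1, coeff_expand hn]
    by_cases h2 : n ∣ k - a
    · rw [if_pos h2, if_pos ⟨h1, h2⟩]
    · rw [if_neg h2, if_neg (fun h => h2 h.2), mul_zero]
  · rw [if_neg h1, if_neg (fun h => h1 h.1), mul_zero]

/-- the coefficients off the class vanish -/
theorem PP_off (s : ℂ) {a n : ℕ} (ha : a < n) (A : ℂ[X]) {k : ℕ} (hk : k % n ≠ a) :
    (PP s a n A).coeff k = 0 := by
  rw [PP_coeff s a (by omega)]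
  apply if_neg
  rintro ⟨h1, h2, h3⟩
  apply hk
  have e : k = a + n * h2 := by omega
  rw [e, Nat.add_mul_mod_self_left, Nat.mod_eq_of_lt ha]

theorem PP_on (s : ℂ) {a n : ℕ} (hn : 0 < n) (A : ℂ[X]) (l : ℕ) :
    (PP s a n A).coeff (a + n * l) = s * A.coeff l := by
  rw [PP_coeff s a hn, if_pos ⟨Nat.le_add_right _ _, ⟨l, by omega⟩⟩, Nat.add_sub_cancel_left,
    Nat.mul_div_cancel_left _ hn]

/-- the distance of the modified polynomial -/
theorem PP_near {e ε M : ℝ} (he : 0 < e) (he1 : e ≤ 1) (hee : e ≤ ε) (hM : 0 ≤ M) {s : ℂ}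
    (hs : ‖s - 1‖ * (M + 1) ≤ e / 4) {i n D : ℕ} (hi : i < n) {P A : ℂ[X]}
    (hP : ∀ k, ‖P.coeff k‖ ≤ M) (hdeg : P.natDegree ≤ D) (hiD : i ≤ D)
    (hoff : ∀ k, k % n ≠ i → ‖P.coeff k‖ < ε) (h : Mod e i n ((D - i) / n) P A) (k : ℕ) :
    ‖(PP s i n A).coeff k - P.coeff k‖ < ε := by
  have hn : 0 < n := by omega
  by_cases hk : k % n = i
  · obtain ⟨l, rfl⟩ : ∃ l, k = i + n * l := ⟨k / n, by rw [← hk, Nat.mod_add_div]⟩
    rw [PP_on s hn]
    rcases le_or_gt l ((D - i) / n) with hl | hl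
    · have h1 := h.near l hl
      have h2 := h.bd he he1 hM hP l
      have e1 : s * A.coeff l - P.coeff (i + n * l) = (s - 1) * A.coeff l +
          (A.coeff l - P.coeff (i + n * l)) := by ring
      rw [e1]
      refine lt_of_le_of_lt (norm_add_le _ _) ?_
      rw [norm_mul]
      have h3 : ‖s - 1‖ * ‖A.coeff l‖ ≤ ‖s - 1‖ * (M + 1) :=
        mul_le_mul_of_nonneg_left h2 (norm_nonneg _)
      linarith
    · rw [h.hi l hl, mul_zero]
      have h1 : D < i + n * l := by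
        have h2 : D - i < n * l := by
          have := (Nat.div_lt_iff_lt_mul hn).1 hl
          rwa [mul_comm] at this
        omega
      rw [coeff_eq_zero_of_natDegree_lt (lt_of_le_of_lt hdeg h1), sub_zero, norm_zero]
      linarith
  · rw [PP_off s hi A hk, zero_sub, norm_neg]
    exact hoff k hk

theorem exp_small {τ t : ℝ} (h0 : 0 ≤ t) (h1 : t ≤ τ) (h2 : τ ≤ 1) :
    ‖((Real.exp t : ℝ) : ℂ) - 1‖ ≤ 2 * τ := by
  have e1 : ((Real.exp t : ℝ) : ℂ) - 1 = ((Real.exp t - 1 : ℝ) : ℂ) := by push_cast; ring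
  rw [e1, Complex.norm_real, Real.norm_eq_abs,
    abs_of_nonneg (by have := Real.add_one_le_exp t; linarith)]
  have h3 := Real.abs_exp_sub_one_le (x := t) (by rw [abs_of_nonneg h0]; linarith)
  rw [abs_of_nonneg h0] at h3
  have := le_abs_self (Real.exp t - 1)
  linarith

theorem nrm_of_mod {e M : ℝ} (he : 0 < e) (he1 : e ≤ 1) (hM : 0 ≤ M) {i j n p q K : ℕ}
    {P Q A B : ℂ[X]} (hc : IsCoprime A B) (hA : Mod e i n p P A) (hB : Mod e j n q Q B)
    (hP : ∀ k, ‖P.coeff k‖ ≤ M) (hQ : ∀ k, ‖Q.coeff k‖ ≤ M) (hp : p ≤ K) (hq : q ≤ K) :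
    Nrm K (M + 1 + 8 / e) A B := by
  have h8 : 0 < 8 / e := by positivity
  have hinv : (M + 1 + 8 / e)⁻¹ ≤ e / 8 := by
    rw [inv_le_comm₀ (by positivity) (by positivity), inv_div]
    linarith
  refine ⟨hc, by rw [hA.natDegree he]; exact hp, by rw [hB.natDegree he]; exact hq,
    fun k => ?_, fun k => ?_, ?_, ?_, ?_, ?_⟩
  · have := hA.bd he he1 hM hP k
    linarith
  · have := hB.bd he he1 hM hQ k
    linarith
  · exact hinv.trans (hA.lo 0 (Nat.zero_le _))
  · exact hinv.trans (hB.lo 0 (Nat.zero_le _))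
  · rw [leadingCoeff, hA.natDegree he]; exact hinv.trans (hA.lo p le_rfl)
  · rw [leadingCoeff, hB.natDegree he]; exact hinv.trans (hB.lo q le_rfl)

end Pool.Agent.K3h78.RS
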