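import Mathlib
import Pool.Agent.K3h78.RS.A9
import Pool.Agent.H762R2.RtD

/-!
# Maps close to maps with a rotational symmetry: approximation by hyperbolic maps
-/

set_option autoImplicit false
set_option maxHeartbeats 400000

open Set Filter Topology Polynomial MeasureTheory
open scoped OnePoint

namespace Pool.Agent.K3h78.RS

open Pool.Agent.H762R2.Rt

theorem div_lem {D i n w : ℕ} (h1 : i + n * w ≤ D) (h2 : D < i + n * w + n) : (D - i) / n = w := by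
  apply Nat.div_eq_of_lt_le
  · rw [mul_comm]; omega
  · rw [Nat.add_mul, mul_comm w n]; omega

/-- the degrees -/
theorem degs {i j n D : ℕ} (hi : i < n) (hj : j < n) (hij : i = 0 ∨ j = 0)
    (hD : D % n = i ∨ D % n = j) (hD1 : 1 ≤ D) :
    i ≤ D ∧ j ≤ D ∧ max (i + n * ((D - i) / n)) (j + n * ((D - j) / n)) = D ∧
    ((i + n * ((D - i) / n) : ℕ) : ℤ) - ((j + n * ((D - j) / n) : ℕ) : ℤ) ∈
      ({(i : ℤ) - j, (i : ℤ) - j + n, (i : ℤ) - j - n} : Set ℤ) ∧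
    ((i : ℤ) - j = 0 → ((i + n * ((D - i) / n) : ℕ) : ℤ) - ((j + n * ((D - j) / n) : ℕ) : ℤ) = 0) := by
  have hdm := Nat.mod_add_div D n
  obtain ⟨w, hw⟩ : ∃ w, w = D / n := ⟨_, rfl⟩
  rw [← hw] at hdm
  obtain ⟨r, hr⟩ : ∃ r, r = D % n := ⟨_, rfl⟩
  rw [← hr] at hdm hD
  have key : ∀ x, x < n → x ≤ D → (x ≤ r → x + n * ((D - x) / n) = x + n * w) ∧
      (r < x → x + n * ((D - x) / n) + n = x + n * w) := by
    intro x hx hxD
    refine ⟨fun h => ?_, fun h => ?_⟩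
    · rw [div_lem (w := w) (by omega) (by omega)]
    · rcases w with _ | w
      · omega
      · rw [Nat.mul_succ] at hdm ⊢
        rw [div_lem (w := w) (by omega) (by omega)]
        omega
  have hiD : i ≤ D := by
    rcases hij with h | h
    · omega
    · rcases hD with h1 | h1
      · omega
      · rcases w with _ | w
        · omega
        · rw [Nat.mul_succ] at hdm; omega
  have hjD : j ≤ D := by
    rcases hij with h | h
    · rcases hD with h1 | h1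
      · rcases w with _ | w
        · omega
        · rw [Nat.mul_succ] at hdm; omega
      · omega
    · omega
  obtain ⟨a1, a2⟩ := key i hi hiD
  obtain ⟨b1, b2⟩ := key j hj hjD
  simp only [mem_insert_iff, mem_singleton_iff]
  generalize i + n * ((D - i) / n) = X at *
  generalize j + n * ((D - j) / n) = Y at *
  generalize n * w = u at *
  refine ⟨hiD, hjD, ?_, ?_, ?_⟩
  · rcases le_or_gt i r with h | h <;> rcases le_or_gt j r with h' | h' <;> omega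
  · rcases le_or_gt i r with h | h <;> rcases le_or_gt j r with h' | h' <;> omega
  · rcases le_or_gt i r with h | h <;> rcases le_or_gt j r with h' | h' <;> omega

/-- `i - j` is not one or minus one modulo `n` -/
def Off (n i j : ℕ) : Prop := ¬ (n : ℤ) ∣ (i : ℤ) - j - 1 ∧ ¬ (n : ℤ) ∣ (i : ℤ) - j + 1

theorem off_bounds {n i j : ℕ} (h : Off n i j) {x : ℤ}
    (hx : x ∈ ({(i : ℤ) - j, (i : ℤ) - j + n, (i : ℤ) - j - n} : Set ℤ)) : x ≠ 1 ∧ x ≠ -1 := by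
  obtain ⟨h1, h2⟩ := h
  simp only [mem_insert_iff, mem_singleton_iff] at hx
  rcases hx with rfl | rfl | rfl
  · exact ⟨fun h => h1 ⟨0, by omega⟩, fun h => h2 ⟨0, by omega⟩⟩
  · exact ⟨fun h => h1 ⟨-1, by omega⟩, fun h => h2 ⟨-1, by omega⟩⟩
  · exact ⟨fun h => h1 ⟨1, by omega⟩, fun h => h2 ⟨1, by omega⟩⟩

/-- the conclusion -/
def Goal (ε : ℝ) (n i j D : ℕ) (P Q : ℂ[X]) : Prop :=
  ∃ P' Q' : ℂ[X], max P'.natDegree Q'.natDegree = D ∧ (∀ k, ‖P'.coeff k - P.coeff k‖ < ε) ∧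
    (∀ k, ‖Q'.coeff k - Q.coeff k‖ < ε) ∧ (∀ k, k % n ≠ i → P'.coeff k = 0) ∧
    (∀ k, k % n ≠ j → Q'.coeff k = 0) ∧ Hyp P' Q'

theorem goal_of {e ε M : ℝ} (he : 0 < e) (he1 : e ≤ 1) (hee : e ≤ ε) (hM : 0 ≤ M) {s : ℂ}
    (hs0 : s ≠ 0) (hs : ‖s - 1‖ * (M + 1) ≤ e / 4) {i j n D : ℕ} (hi : i < n) (hj : j < n)
    {P Q A B : ℂ[X]} (hP : ∀ k, ‖P.coeff k‖ ≤ M) (hQ : ∀ k, ‖Q.coeff k‖ ≤ M)
    (hdP : P.natDegree ≤ D) (hdQ : Q.natDegree ≤ D) (hiD : i ≤ D) (hjD : j ≤ D)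
    (hmax : max (i + n * ((D - i) / n)) (j + n * ((D - j) / n)) = D)
    (hoffP : ∀ k, k % n ≠ i → ‖P.coeff k‖ < ε) (hoffQ : ∀ k, k % n ≠ j → ‖Q.coeff k‖ < ε)
    (hA : Mod e i n ((D - i) / n) P A) (hB : Mod e j n ((D - j) / n) Q B)
    (hyp : Hyp (PP s i n A) (PP 1 j n B)) : Goal ε n i j D P Q := by
  have hn : 0 < n := by omega
  have ne : ∀ {p x : ℕ} {E F : ℂ[X]}, Mod e x n p E F → F ≠ 0 := by
    intro p x E F h h0
    have h1 := h.lo p le_rfl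
    rw [h0, coeff_zero, norm_zero] at h1
    linarith
  refine ⟨PP s i n A, PP 1 j n B, ?_, ?_, ?_, fun k hk => PP_off s hi A hk,
    fun k hk => PP_off 1 hj B hk, hyp⟩
  · rw [PP_natDegree hs0 i hn (ne hA), PP_natDegree one_ne_zero j hn (ne hB), hA.natDegree he,
      hB.natDegree he]
    exact hmax
  · exact PP_near he he1 hee hM hs hi hP hdP hiD hoffP hA
  · refine PP_near he he1 hee hM ?_ hj hQ hdQ hjD hoffQ hB
    rw [sub_self, norm_zero, zero_mul]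
    linarith

theorem near_ne (K : ℕ) {M ε : ℝ} (hM : 0 ≤ M) (hε : 0 < ε) : ∃ n₀ : ℕ, ∀ n : ℕ, n₀ ≤ n →
    ∀ i j D : ℕ, i < n → j < n → (i = 0 ∨ j = 0) → Off n i j → i ≠ j → 1 ≤ D → D ≤ K * n →
      (D % n = i ∨ D % n = j) → ∀ P Q : ℂ[X], P.natDegree ≤ D → Q.natDegree ≤ D →
      (∀ k, ‖P.coeff k‖ ≤ M) → (∀ k, ‖Q.coeff k‖ ≤ M) → (∀ k, k % n ≠ i → ‖P.coeff k‖ < ε) →
      (∀ k, k % n ≠ j → ‖Q.coeff k‖ < ε) → Goal ε n i j D P Q := by
  obtain ⟨e, he⟩ : ∃ e : ℝ, e = min ε 1 := ⟨_, rfl⟩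
  have he0 : 0 < e := by rw [he]; exact lt_min hε one_pos
  have hee : e ≤ ε := by rw [he]; exact min_le_left _ _
  have he1 : e ≤ 1 := by rw [he]; exact min_le_right _ _
  obtain ⟨τ, hτ⟩ : ∃ τ : ℝ, τ = e / (8 * (M + 1)) := ⟨_, rfl⟩
  have hτ0 : 0 < τ := by rw [hτ]; positivity
  have hτM : 2 * τ * (M + 1) = e / 4 := by rw [hτ]; field_simp; norm_num
  have hτ1 : τ ≤ 1 := by
    rw [hτ, div_le_one (by positivity)]
    linarith
  have h8 : 0 < 8 / e := by positivity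
  obtain ⟨n₀, h⟩ := mult_all K (M := M + 1 + 8 / e) (κ := 2) (by positivity) (by norm_num) hτ0
  refine ⟨n₀, ?_⟩
  intro n hn i j D hi hj hij hoff hne hD1 hDK hD P Q hdP hdQ hP hQ hoffP hoffQ
  obtain ⟨hiD, hjD, hmax, hmem, -⟩ := degs hi hj hij hD hD1
  have hn0 : 0 < n := by omega
  obtain ⟨A, B, hcop, hA, hB⟩ := exists_mod he0 i j n ((D - i) / n) ((D - j) / n) P Q
  have hdiv : ∀ x, (D - x) / n ≤ K := by
    intro x
    rw [Nat.div_le_iff_le_mul_add_pred hn0]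
    have : D - x ≤ K * n := by omega
    rw [mul_comm] at this
    omega
  have hN := nrm_of_mod he0 he1 hM hcop hA hB hP hQ (hdiv i) (hdiv j)
  obtain ⟨x, hx⟩ : ∃ x : ℤ, x = (i : ℤ) - j := ⟨_, rfl⟩
  obtain ⟨y, hy⟩ : ∃ y : ℤ, y = ((i + n * ((D - i) / n) : ℕ) : ℤ) -
    ((j + n * ((D - j) / n) : ℕ) : ℤ) := ⟨_, rfl⟩
  have e0 : expo0 i j = (x : ℝ) := by unfold expo0; rw [hx]; push_cast; ring
  have e1 : expo1 i j n A B = (y : ℝ) := by
    unfold expo1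
    rw [hy, hA.natDegree he0, hB.natDegree he0]
    generalize (D - i) / n = p
    generalize (D - j) / n = q
    push_cast
    ring
  rw [← hy] at hmem
  have hox := off_bounds hoff (x := x) (by rw [hx]; simp)
  have hoy := off_bounds hoff hmem
  simp only [mem_insert_iff, mem_singleton_iff] at hmem
  have hx2 : 2 ≤ |x| := by
    rcases abs_cases x with ⟨h1, h2⟩ | ⟨h1, h2⟩ <;> omega
  have hy2 : 2 ≤ |y| := by
    rcases abs_cases y with ⟨h1, h2⟩ | ⟨h1, h2⟩ <;> omega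
  have hxn : |x| ≤ 2 * (n : ℤ) := by
    rcases abs_cases x with ⟨h1, h2⟩ | ⟨h1, h2⟩ <;> omega
  have hyn : |y| ≤ 2 * (n : ℤ) := by
    rcases abs_cases y with ⟨h1, h2⟩ | ⟨h1, h2⟩ <;> omega
  obtain ⟨t, ht0, ht1, hyp⟩ := h n hn i j A B hN hij (by rw [e0]; exact_mod_cast hx2)
    (by rw [e1]; exact_mod_cast hy2) (by rw [e0]; exact_mod_cast hxn)
    (by rw [e1]; exact_mod_cast hyn)
  have hs : ‖((Real.exp t : ℝ) : ℂ) - 1‖ * (M + 1) ≤ e / 4 := by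
    rw [← hτM]
    exact mul_le_mul_of_nonneg_right (exp_small ht0 ht1 hτ1) (by positivity)
  exact goal_of he0 he1 hee hM (by exact_mod_cast (Real.exp_pos t).ne') hs hi hj hP hQ hdP hdQ hiD
    hjD hmax hoffP hoffQ hA hB hyp

/-- the case `i = j = 0` -/
theorem near_eq (K : ℕ) {M ε : ℝ} (hM : 0 ≤ M) (hε : 0 < ε) : ∃ n₀ : ℕ, ∀ n : ℕ, n₀ ≤ n →
    ∀ D : ℕ, 1 ≤ D → D ≤ K * n →
      D % n = 0 → ∀ P Q : ℂ[X], P.natDegree ≤ D → Q.natDegree ≤ D →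
      (∀ k, ‖P.coeff k‖ ≤ M) → (∀ k, ‖Q.coeff k‖ ≤ M) → (∀ k, k % n ≠ 0 → ‖P.coeff k‖ < ε) →
      (∀ k, k % n ≠ 0 → ‖Q.coeff k‖ < ε) → Goal ε n 0 0 D P Q := by
  obtain ⟨e, he⟩ : ∃ e : ℝ, e = min ε 1 := ⟨_, rfl⟩
  have he0 : 0 < e := by rw [he]; exact lt_min hε one_pos
  have hee : e ≤ ε := by rw [he]; exact min_le_left _ _
  have he1 : e ≤ 1 := by rw [he]; exact min_le_right _ _
  obtain ⟨τ, hτ⟩ : ∃ τ : ℝ, τ = e / (4 * (M + 1)) := ⟨_, rfl⟩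
  have hτ0 : 0 < τ := by rw [hτ]; positivity
  have hτM : τ * (M + 1) = e / 4 := by rw [hτ]; field_simp
  have h8 : 0 < 8 / e := by positivity
  have hone : ∀ w : ℕ, 1 ≤ w → ∃ n₀ : ℕ, ∀ A B : ℂ[X], Cls w (M + 1 + 8 / e) A B → ∀ n : ℕ,
      n₀ ≤ n → ∃ s : ℝ, 1 ≤ s ∧ s ≤ 1 + τ ∧
        Hyp (Polynomial.C (s : ℂ) * Polynomial.expand ℂ n A) (Polynomial.expand ℂ n B) := by
    intro w hw
    obtain ⟨C, hC, n₁, h₁⟩ := coarse w hw (M + 1 + 8 / e) (by linarith)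
    have hlim : Tendsto (fun n : ℕ => C * (Real.log n / n)) atTop (𝓝 0) := by
      have h1 : Tendsto (fun x : ℝ => Real.log x / x) atTop (𝓝 0) := by
        simpa using Real.isLittleO_log_id_atTop.tendsto_div_nhds_zero
      have h2 := (h1.comp tendsto_natCast_atTop_atTop).const_mul C
      simpa using h2
    obtain ⟨n₂, hn₂⟩ := eventually_atTop.1 (hlim.eventually (ge_mem_nhds hτ0))
    refine ⟨max n₁ n₂, fun A B hAB n hn => ?_⟩
    obtain ⟨s, hs1, hs2, hs3⟩ := h₁ A B hAB n (by omega)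
    have := hn₂ n (by omega)
    exact ⟨s, hs1, by linarith, hs3⟩
  choose! N hN using hone
  refine ⟨max 1 ((Finset.range (K + 1)).sup N), ?_⟩
  intro n hn D hD1 hDK hD P Q hdP hdQ hP hQ hoffP hoffQ
  have hn0 : 0 < n := by omega
  obtain ⟨hiD, hjD, hmax, -, -⟩ := degs (i := 0) (j := 0) hn0 hn0 (Or.inl rfl) (Or.inl hD) hD1
  obtain ⟨A, B, hcop, hA, hB⟩ := exists_mod he0 0 0 n ((D - 0) / n) ((D - 0) / n) P Q
  have hw : 1 ≤ (D - 0) / n := by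
    rw [Nat.sub_zero]
    have h1 := Nat.mod_add_div D n
    rcases Nat.eq_zero_or_pos (D / n) with h | h
    · rw [h, mul_zero] at h1; omega
    · exact h
  have hwK : (D - 0) / n ≤ K := by
    rw [Nat.div_le_iff_le_mul_add_pred hn0]
    have : D ≤ K * n := hDK
    rw [mul_comm] at this
    omega
  have hNn : N ((D - 0) / n) ≤ n := by
    have h1 : N ((D - 0) / n) ≤ (Finset.range (K + 1)).sup N :=
      Finset.le_sup (f := N) (Finset.mem_range.2 (by omega))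
    omega
  have hNrm := nrm_of_mod he0 he1 hM hcop hA hB hP hQ hwK hwK
  have hlead : ∀ {E F : ℂ[X]}, Mod e 0 n ((D - 0) / n) E F →
      (M + 1 + 8 / e)⁻¹ ≤ ‖F.coeff ((D - 0) / n)‖ := by
    intro E F h
    have hinv : (M + 1 + 8 / e)⁻¹ ≤ e / 8 := by
      rw [inv_le_comm₀ (by positivity) (by positivity), inv_div]
      linarith
    exact hinv.trans (h.lo _ le_rfl)
  have hcls : Cls ((D - 0) / n) (M + 1 + 8 / e) A B :=
    ⟨hcop, by rw [hA.natDegree he0, hB.natDegree he0, max_self], hNrm.bdA, hNrm.bdB,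
      hNrm.A0.trans (le_max_left _ _), (hlead hA).trans (le_max_left _ _)⟩
  obtain ⟨s, hs1, hs2, hyp⟩ := hN _ hw A B hcls n hNn
  have hs0 : (s : ℂ) ≠ 0 := by
    have : s ≠ 0 := by linarith
    exact_mod_cast this
  have hs : ‖(s : ℂ) - 1‖ * (M + 1) ≤ e / 4 := by
    rw [← hτM]
    apply mul_le_mul_of_nonneg_right _ (by positivity)
    have e1 : (s : ℂ) - 1 = ((s - 1 : ℝ) : ℂ) := by push_cast; ring
    rw [e1, Complex.norm_real, Real.norm_eq_abs, abs_of_nonneg (by linarith)]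
    linarith
  have hyp' : Hyp (PP (s : ℂ) 0 n A) (PP 1 0 n B) := by
    have e1 : PP (s : ℂ) 0 n A = Polynomial.C (s : ℂ) * Polynomial.expand ℂ n A := by
      unfold PP; rw [pow_zero, mul_one]
    have e2 : PP 1 0 n B = Polynomial.expand ℂ n B := by
      unfold PP; rw [pow_zero, mul_one, C_1, one_mul]
    rw [e1, e2]
    exact hyp
  exact goal_of he0 he1 hee hM hs0 hs hn0 hn0 hP hQ hdP hdQ hiD hjD hmax hoffP hoffQ hA hB hyp'

/-- **Density of hyperbolicity at scale `ε` near the maps with a symmetry of large order.** -/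
theorem near_all (K : ℕ) {M ε : ℝ} (hε : 0 < ε) : ∃ n₀ : ℕ, ∀ n : ℕ, n₀ ≤ n →
    ∀ i j D : ℕ, i < n → j < n → (i = 0 ∨ j = 0) → Off n i j → 1 ≤ D → D ≤ K * n →
      (D % n = i ∨ D % n = j) → ∀ P Q : ℂ[X], P.natDegree ≤ D → Q.natDegree ≤ D →
      (∀ k, ‖P.coeff k‖ ≤ M) → (∀ k, ‖Q.coeff k‖ ≤ M) → (∀ k, k % n ≠ i → ‖P.coeff k‖ < ε) →
      (∀ k, k % n ≠ j → ‖Q.coeff k‖ < ε) → Goal ε n i j D P Q := by
  obtain ⟨n₁, h₁⟩ := near_ne K (M := max M 0) (le_max_right _ _) hε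
  obtain ⟨n₂, h₂⟩ := near_eq K (M := max M 0) (le_max_right _ _) hε
  refine ⟨max n₁ n₂, ?_⟩
  intro n hn i j D hi hj hij hoff hD1 hDK hD P Q hdP hdQ hP hQ hoffP hoffQ
  have hP' : ∀ k, ‖P.coeff k‖ ≤ max M 0 := fun k => (hP k).trans (le_max_left _ _)
  have hQ' : ∀ k, ‖Q.coeff k‖ ≤ max M 0 := fun k => (hQ k).trans (le_max_left _ _)
  rcases eq_or_ne i j with h | h
  · subst h
    have h0 : i = 0 := by omega
    subst h0
    exact h₂ n (by omega) D hD1 hDK (by omega) P Q hdP hdQ hP' hQ' hoffP hoffQ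
  · exact h₁ n (by omega) i j D hi hj hij hoff h hD1 hDK hD P Q hdP hdQ hP' hQ' hoffP hoffQ

end Pool.Agent.K3h78.RS
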