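import Mathlib
import Pool.Agent.K3h78.RS.A10

/-!
# Rational maps with a rotational symmetry
-/

set_option autoImplicit false
set_option maxHeartbeats 400000

open Set Filter Topology Polynomial MeasureTheory
open scoped OnePoint

namespace Pool.Agent.K3h78.RS

open Pool.Agent.H762R2.Rt

/-- `f (ω z) = ω ^ k f (z)` for the roots of unity of order `n` -/
def Sym (n : ℕ) (k : ℤ) (P Q : ℂ[X]) : Prop :=
  ∀ ω : ℂ, ω ^ n = 1 → ∀ z : ℂ, P.eval (ω * z) * Q.eval z = ω ^ k * (P.eval z * Q.eval (ω * z))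

theorem support_mod {n : ℕ} {ω : ℂ} (hω : IsPrimitiveRoot ω n) (hn : 0 < n) {E : ℂ[X]}
    (hE : E ≠ 0) (hdvd : E ∣ E.comp (C ω * X)) (m : ℕ) (hm : m % n ≠ E.natDegree % n) :
    E.coeff m = 0 := by
  have hω0 : ω ≠ 0 := hω.ne_zero hn.ne'
  obtain ⟨R, hR⟩ := hdvd
  have hdeg : (E.comp (C ω * X)).natDegree = E.natDegree := by
    rw [natDegree_comp, natDegree_C_mul_X ω hω0, mul_one]
  have hne : E.comp (C ω * X) ≠ 0 := by
    intro h0
    have h1 : (E.comp (C ω * X)).coeff E.natDegree = 0 := by rw [h0, coeff_zero]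
    rw [comp_C_mul_X_coeff] at h1
    rcases mul_eq_zero.1 h1 with h2 | h2
    · exact hE (leadingCoeff_eq_zero.1 h2)
    · exact pow_ne_zero _ hω0 h2
  have hR0 : R ≠ 0 := by
    rintro rfl
    rw [mul_zero] at hR
    exact hne hR
  have hRd : R.natDegree = 0 := by
    have h1 := natDegree_mul hE hR0
    rw [← hR, hdeg] at h1
    omega
  rw [natDegree_eq_zero] at hRd
  obtain ⟨c, rfl⟩ := hRd
  have hc : ∀ l, E.coeff l * ω ^ l = E.coeff l * c := by
    intro l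
    have h1 := congrArg (fun F : ℂ[X] => F.coeff l) hR
    simp only [comp_C_mul_X_coeff, coeff_mul_C] at h1
    exact h1
  by_contra hcon
  have h1 : ω ^ m = c := mul_left_cancel₀ hcon (hc m)
  have h2 : ω ^ E.natDegree = c :=
    mul_left_cancel₀ (fun h => hE (leadingCoeff_eq_zero.1 h)) (hc E.natDegree)
  apply hm
  have h3 : ω ^ (m % n) = ω ^ (E.natDegree % n) := by
    rw [← pow_mod_orderOf, ← pow_mod_orderOf ω (E.natDegree % n), ← hω.eq_orderOf, Nat.mod_mod,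
      Nat.mod_mod, hω.eq_orderOf, pow_mod_orderOf, pow_mod_orderOf, h1, h2]
  exact hω.pow_inj (Nat.mod_lt _ hn) (Nat.mod_lt _ hn) h3

/-- the effect of the rotation on a polynomial in a class -/
theorem eval_rot {n i : ℕ} {ω : ℂ} (hω : ω ^ n = 1) {E : ℂ[X]}
    (hE : ∀ m, m % n ≠ i → E.coeff m = 0) (z : ℂ) : E.eval (ω * z) = ω ^ i * E.eval z := by
  rw [eval_eq_sum_range, eval_eq_sum_range, Finset.mul_sum]
  apply Finset.sum_congr rfl
  intro m _
  by_cases h : m % n = i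
  · have h1 : ω ^ m = ω ^ i := by
      rw [← h, ← Nat.mod_add_div m n, Nat.add_mul_mod_self_left, Nat.mod_mod, pow_add, pow_mul, hω,
        one_pow, mul_one]
    rw [mul_pow, h1]; ring
  · rw [hE m h]; ring

theorem sym_class {n : ℕ} (hn : 0 < n) {k : ℤ} {P Q : ℂ[X]} (hc : IsCoprime P Q)
    (hD : 1 ≤ max P.natDegree Q.natDegree) (h : Sym n k P Q) :
    ∃ i j : ℕ, i < n ∧ j < n ∧ (i = 0 ∨ j = 0) ∧ (n : ℤ) ∣ (i : ℤ) - j - k ∧
      (max P.natDegree Q.natDegree % n = i ∨ max P.natDegree Q.natDegree % n = j) ∧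
      (∀ m, m % n ≠ i → P.coeff m = 0) ∧ (∀ m, m % n ≠ j → Q.coeff m = 0) := by
  obtain ⟨ω, hω⟩ : ∃ ω : ℂ, IsPrimitiveRoot ω n := ⟨_, Complex.isPrimitiveRoot_exp n hn.ne'⟩
  have hω0 : ω ≠ 0 := hω.ne_zero hn.ne'
  have hP : P ≠ 0 := by
    rintro rfl
    rw [isCoprime_zero_left] at hc
    have := natDegree_eq_zero_of_isUnit hc
    rw [this, natDegree_zero] at hD
    simp at hD
  have hQ : Q ≠ 0 := by
    rintro rfl
    rw [isCoprime_zero_right] at hc
    have := natDegree_eq_zero_of_isUnit hc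
    rw [this, natDegree_zero] at hD
    simp at hD
  have hpol : P.comp (C ω * X) * Q = C (ω ^ k) * (P * Q.comp (C ω * X)) := by
    apply Polynomial.funext
    intro z
    have h1 := h ω hω.pow_eq_one z
    simpa [eval_comp] using h1
  have hPd : P ∣ P.comp (C ω * X) := by
    apply hc.dvd_of_dvd_mul_right
    rw [hpol]
    exact Dvd.intro_left (C (ω ^ k) * Q.comp (C ω * X)) (by ring)
  have hQd : Q ∣ Q.comp (C ω * X) := by
    apply hc.symm.dvd_of_dvd_mul_left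
    have hu : IsUnit (C (ω ^ k) : ℂ[X]) := isUnit_C.2 (isUnit_iff_ne_zero.2 (zpow_ne_zero _ hω0))
    rw [← hu.dvd_mul_left, ← hpol]
    exact Dvd.intro_left (P.comp (C ω * X)) rfl
  have hPm := support_mod hω hn hP hPd
  have hQm := support_mod hω hn hQ hQd
  refine ⟨P.natDegree % n, Q.natDegree % n, Nat.mod_lt _ hn, Nat.mod_lt _ hn, ?_, ?_, ?_, hPm,
    hQm⟩
  · by_contra hcon
    push Not at hcon
    have h1 : P.coeff 0 = 0 := hPm 0 (by rw [Nat.zero_mod]; exact hcon.1.symm)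
    have h2 : Q.coeff 0 = 0 := hQm 0 (by rw [Nat.zero_mod]; exact hcon.2.symm)
    have h3 : IsUnit (X : ℂ[X]) := hc.isUnit_of_dvd' (X_dvd_iff.2 h1) (X_dvd_iff.2 h2)
    exact not_isUnit_X h3
  · rw [← hω.zpow_eq_one_iff_dvd]
    -- a point where nothing vanishes
    obtain ⟨z, hz⟩ : ∃ z : ℂ, (P * Q).eval z ≠ 0 := by
      by_contra hcon
      push Not at hcon
      have h1 : P * Q = 0 := Polynomial.funext (by simpa using hcon)
      exact mul_ne_zero hP hQ h1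
    rw [eval_mul] at hz
    have h1 := h ω hω.pow_eq_one z
    rw [eval_rot hω.pow_eq_one hPm, eval_rot hω.pow_eq_one hQm] at h1
    have h2 : (ω ^ (P.natDegree % n) - ω ^ k * ω ^ (Q.natDegree % n)) * (P.eval z * Q.eval z) = 0 := by
      linear_combination h1
    have h3 : ω ^ (P.natDegree % n) = ω ^ k * ω ^ (Q.natDegree % n) := by
      rcases mul_eq_zero.1 h2 with h4 | h4
      · exact sub_eq_zero.1 h4
      · exact absurd h4 hz
    rw [zpow_sub₀ hω0, zpow_sub₀ hω0, zpow_natCast, zpow_natCast, h3]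
    have h4 : ω ^ k ≠ 0 := zpow_ne_zero _ hω0
    have h5 : ω ^ (Q.natDegree % n) ≠ 0 := pow_ne_zero _ hω0
    field_simp
  · rcases le_total P.natDegree Q.natDegree with h1 | h1
    · right; rw [max_eq_right h1]
    · left; rw [max_eq_left h1]

theorem sym_of_class {n i j : ℕ} {k : ℤ} (hk : (n : ℤ) ∣ (i : ℤ) - j - k) {P Q : ℂ[X]}
    (hn : 0 < n) (hP : ∀ m, m % n ≠ i → P.coeff m = 0) (hQ : ∀ m, m % n ≠ j → Q.coeff m = 0) :
    Sym n k P Q := by
  intro ω hω z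
  have hω0 : ω ≠ 0 := by
    rintro rfl
    rw [zero_pow hn.ne'] at hω
    exact zero_ne_one hω
  rw [eval_rot hω hP, eval_rot hω hQ]
  obtain ⟨c, hc⟩ := hk
  have h1 : ω ^ ((i : ℤ) - j - k) = 1 := by
    rw [hc, zpow_mul, zpow_natCast, hω, one_zpow]
  rw [zpow_sub₀ hω0, zpow_sub₀ hω0, zpow_natCast, zpow_natCast] at h1
  have h4 : ω ^ k ≠ 0 := zpow_ne_zero _ hω0
  have h5 : ω ^ j ≠ 0 := pow_ne_zero _ hω0
  rw [div_div, div_eq_one_iff_eq (mul_ne_zero h5 h4)] at h1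
  rw [h1]
  ring

/-- **Density of hyperbolicity at scale `ε` among the maps with a symmetry of large order.** -/
theorem sym_all (K : ℕ) {M ε : ℝ} (hε : 0 < ε) : ∃ n₀ : ℕ, ∀ n : ℕ, n₀ ≤ n →
    ∀ k : ℤ, ¬ (n : ℤ) ∣ k - 1 → ¬ (n : ℤ) ∣ k + 1 → ∀ P Q : ℂ[X], IsCoprime P Q →
      1 ≤ max P.natDegree Q.natDegree → max P.natDegree Q.natDegree ≤ K * n →
      (∀ m, ‖P.coeff m‖ ≤ M) → (∀ m, ‖Q.coeff m‖ ≤ M) → Sym n k P Q →
      ∃ P' Q' : ℂ[X], Sym n k P' Q' ∧
        max P'.natDegree Q'.natDegree = max P.natDegree Q.natDegree ∧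
        (∀ m, ‖P'.coeff m - P.coeff m‖ < ε) ∧ (∀ m, ‖Q'.coeff m - Q.coeff m‖ < ε) ∧ Hyp P' Q' := by
  obtain ⟨n₀, h⟩ := near_all K (M := M) hε
  refine ⟨max n₀ 1, ?_⟩
  intro n hn k hk1 hk2 P Q hc hD hDK hP hQ hsym
  have hn0 : 0 < n := by omega
  obtain ⟨i, j, hi, hj, hij, hdvd, hmod, hPm, hQm⟩ := sym_class hn0 hc hD hsym
  have hoff : Off n i j := by
    constructor
    · intro h1
      apply hk1
      have := dvd_sub h1 hdvd
      have e : (i : ℤ) - j - 1 - (i - j - k) = k - 1 := by ring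
      rwa [e] at this
    · intro h1
      apply hk2
      have := dvd_sub h1 hdvd
      have e : (i : ℤ) - j + 1 - (i - j - k) = k + 1 := by ring
      rwa [e] at this
  obtain ⟨P', Q', h1, h2, h3, h4, h5, h6⟩ := h n (by omega) i j _ hi hj hij hoff hD hDK hmod P Q
    (le_max_left _ _) (le_max_right _ _) hP hQ (fun m hm => by rw [hPm m hm, norm_zero]; exact hε)
    (fun m hm => by rw [hQm m hm, norm_zero]; exact hε)
  exact ⟨P', Q', sym_of_class hdvd hn0 h4 h5, h1, h2, h3, h6⟩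

end Pool.Agent.K3h78.RS
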